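import Pool.Agent.H583.SA.D

/-!
Points with a given ratio of two forms.
-/

set_option autoImplicit false

namespace Pool.Agent.H583.SB

open Finset Pool.Agent.T2H20.ABC Pool.Agent.T2H20.AH Pool.Agent.H785R2.ABC Pool.Agent.H583.SF
  Pool.Agent.H583.WT Pool.Agent.H583.AL Pool.Agent.H583.AR Pool.Agent.H583.GD Pool.Agent.H583.PD
  Pool.Agent.H583.ST Pool.Agent.H583.SA

variable {n r : ℕ}

/-- a relation of three forms -/
structure Rl (L : Fin n → Fin r → ℤ) (i j l : Fin n) (a b c : ℤ) : Prop where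
  ha : a ≠ 0
  hb : b ≠ 0
  hc : c ≠ 0
  rel : ∀ k, a * L i k + b * L j k + c * L l k = 0

/-- the ratio -/
def yr (L : Fin n → Fin r → ℤ) (i j : Fin n) (a b : ℤ) (x : Fin r → ℤ) : ℚ :=
  ((a * lz L i x : ℤ) : ℚ) / ((b * lz L j x : ℤ) : ℚ)

lemma yr_facts {L : Fin n → Fin r → ℤ} {i j l : Fin n} {a b c : ℤ} (h : Rl L i j l a b c)
    {x : Fin r → ℤ} (hx : Pt L x) : yr L i j a b x ≠ 0 ∧ yr L i j a b x ≠ -1 ∧
    ∃ d : ℤ, d ≠ 0 ∧ a * lz L i x = d * (yr L i j a b x).num ∧ b * lz L j x = d * (yr L i j a b x).den ∧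
      c * lz L l x = -(d * ((yr L i j a b x).num + (yr L i j a b x).den)) := by
  have hA : a * lz L i x ≠ 0 := mul_ne_zero h.ha (hx.ne i)
  have hB : b * lz L j x ≠ 0 := mul_ne_zero h.hb (hx.ne j)
  have hC : c * lz L l x ≠ 0 := mul_ne_zero h.hc (hx.ne l)
  have hr := lz_rel h.rel x
  obtain ⟨d, k1, k2⟩ := Rat.exists_eq_mul_div_num_and_eq_mul_div_den (a * lz L i x) hB
  have hyx : yr L i j a b x = ((a * lz L i x : ℤ) : ℚ) / ((b * lz L j x : ℤ) : ℚ) := rfl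
  rw [← hyx] at k1 k2
  have hA' : ((a * lz L i x : ℤ) : ℚ) ≠ 0 := by exact_mod_cast hA
  have hB' : ((b * lz L j x : ℤ) : ℚ) ≠ 0 := by exact_mod_cast hB
  refine ⟨?_, ?_, d, ?_, k1, k2, ?_⟩
  · rw [hyx]
    exact div_ne_zero hA' hB'
  · rw [hyx]
    intro h1
    rw [div_eq_iff hB'] at h1
    apply hC
    have h2 : ((a * lz L i x : ℤ) : ℚ) + ((b * lz L j x : ℤ) : ℚ) = 0 := by linarith
    have h3 : a * lz L i x + b * lz L j x = 0 := by exact_mod_cast h2
    linarith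
  · intro h1
    rw [h1, zero_mul] at k2
    exact hB k2
  · rw [mul_add, ← k1, ← k2]
    linarith

lemma fibs {α β : Type*} [DecidableEq β] (Q : Finset α) (f : α → β) {A B : ℝ} (hB : 0 ≤ B)
    (h1 : ((Q.image f).card : ℝ) ≤ A)
    (h2 : ∀ b ∈ Q.image f, ((Q.filter fun x => f x = b).card : ℝ) ≤ B) : (Q.card : ℝ) ≤ A * B := by
  rw [Finset.card_eq_sum_card_image f Q]
  push_cast
  refine (Finset.sum_le_sum h2).trans ?_
  rw [Finset.sum_const, nsmul_eq_mul]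
  exact mul_le_mul_of_nonneg_right h1 hB

/-- two forms that are not proportional -/
def Np (L : Fin n → Fin r → ℤ) (i j : Fin n) : Prop :=
  ∀ p q : ℤ, (∀ k, p * L i k = q * L j k) → p = 0 ∧ q = 0

lemma dim_two {L : Fin n → Fin r → ℤ} {i j : Fin n} (hi : ∃ k, L i k ≠ 0) (h : Np L i j) :
    Module.finrank ℚ (zs L fun p => p = i ∨ p = j) + 2 ≤ r := by
  classical
  obtain ⟨k₀, hk₀⟩ := hi
  have hk₀' : (L i k₀ : ℚ) ≠ 0 := by exact_mod_cast hk₀
  have hsg : ∀ (p : Fin n) (k : Fin r), lq L p (Pi.single k 1) = L p k := by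
    intro p k
    rw [lq_apply, Finset.sum_eq_single k]
    · rw [Pi.single_eq_same, mul_one]
    · intro j _ hj
      rw [Pi.single_eq_of_ne hj, mul_zero]
    · intro h
      exact absurd (mem_univ k) h
  obtain ⟨x₁, h11, h12⟩ : ∃ x₁ : Fin r → ℚ, lq L i x₁ = 0 ∧ lq L j x₁ ≠ 0 := by
    by_contra hcon
    push Not at hcon
    apply hk₀
    refine (h (L j k₀) (L i k₀) ?_).2
    intro k
    have h1 := hcon ((L i k₀ : ℚ) • Pi.single k 1 - (L i k : ℚ) • Pi.single k₀ 1) (by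
      rw [map_sub, map_smul, map_smul, hsg, hsg, smul_eq_mul, smul_eq_mul]
      ring)
    rw [map_sub, map_smul, map_smul, hsg, hsg, smul_eq_mul, smul_eq_mul] at h1
    have h2 : (L j k₀ : ℚ) * L i k = L i k₀ * L j k := by linarith
    exact_mod_cast h2
  obtain ⟨Φ, hΦ⟩ : ∃ Φ : (Fin r → ℚ) →ₗ[ℚ] ℚ × ℚ, Φ = (lq L i).prod (lq L j) := ⟨_, rfl⟩
  have h1 := LinearMap.finrank_range_add_finrank_ker Φ
  have h2 : LinearMap.range Φ = ⊤ := by
    rw [LinearMap.range_eq_top]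
    rintro ⟨s, t⟩
    refine ⟨(s / L i k₀) • Pi.single k₀ 1 + ((t - s / L i k₀ * L j k₀) / lq L j x₁) • x₁, ?_⟩
    rw [hΦ]
    apply Prod.ext
    · change lq L i _ = s
      rw [map_add, map_smul, map_smul, hsg, h11, smul_eq_mul, smul_eq_mul, mul_zero, add_zero]
      exact div_mul_cancel₀ s hk₀'
    · change lq L j _ = t
      rw [map_add, map_smul, map_smul, hsg, smul_eq_mul, smul_eq_mul, div_mul_cancel₀ _ h12]
      ring
  have h3 : zs L (fun p => p = i ∨ p = j) ≤ LinearMap.ker Φ := by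
    intro x hx
    rw [mem_zs] at hx
    rw [LinearMap.mem_ker, hΦ]
    apply Prod.ext
    · exact hx i (Or.inl rfl)
    · exact hx j (Or.inr rfl)
  have h4 := Submodule.finrank_mono h3
  rw [h2, finrank_top, Module.finrank_prod, Module.finrank_self, Module.finrank_fin_fun] at h1
  omega

/-- **the number of points in terms of the number of ratios** -/
theorem fix {L : Fin n → Fin r → ℤ} (hL : Ar L) (i j l k : Fin n) (a b c e : ℤ)
    (hR : Rl L i j l a b c) (he : e ≠ 0) (hnp : Np L i j) (ν : ℚ → ℤ) (ε : ℝ) (hε : 0 < ε) :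
    ∃ C : ℝ, 0 < C ∧ ∀ X R A₀ : ℕ, 1 ≤ A₀ → 1 ≤ R → R ≤ X → ∀ Q : Finset (Fin r → ℤ),
    (∀ x ∈ Q, Pt L x ∧ (∀ i, zr (lz L i x) ≤ R) ∧ ν (yr L i j a b x) ≠ 0 ∧
      A₀ ≤ zr (ν (yr L i j a b x)) ∧ ∀ d : ℤ, a * lz L i x = d * (yr L i j a b x).num →
        b * lz L j x = d * (yr L i j a b x).den →
        zr (e * lz L k x) = zr (d * ν (yr L i j a b x))) →
    (Q.card : ℝ) ≤ C * (X : ℝ) ^ ε * (Q.image (yr L i j a b)).card * ((R : ℝ) / A₀) *
      (R : ℝ) ^ (r - 2) := by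
  classical
  obtain ⟨B', hB1, hB2, hB3⟩ := small_set hL.ess (zs L fun p => p = i ∨ p = j)
  have hdim := dim_two (hL.ne i) hnp
  obtain ⟨K, hK⟩ := known hL i (insert i (insert j B')) (by
    intro x hx
    apply hB2 x
    · rw [mem_zs]
      rintro p (rfl | rfl)
      · exact hx p (mem_insert_self _ _)
      · exact hx p (mem_insert_of_mem (mem_insert_self _ _))
    · intro p hp
      exact hx p (mem_insert_of_mem (mem_insert_of_mem hp)))
  obtain ⟨C₁, hC₁, h₁⟩ := tw_le L (ε / 4 / (K + 1)) (by positivity)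
  obtain ⟨D, hD, hd⟩ := div_pow 1 (ε / 4) (by positivity)
  obtain ⟨N, hN⟩ : ∃ N : ℕ, N = a.natAbs + b.natAbs + e.natAbs := ⟨_, rfl⟩
  have ha' : 1 ≤ a.natAbs := Int.natAbs_pos.2 hR.ha
  have hb' : 1 ≤ b.natAbs := Int.natAbs_pos.2 hR.hb
  have he' : 1 ≤ e.natAbs := Int.natAbs_pos.2 he
  have hN1 : 1 ≤ N := by omega
  have hN0 : (0 : ℝ) < N := by exact_mod_cast hN1
  refine ⟨N * (D * (N : ℝ) ^ (ε / 4)) ^ 3 * (2 * C₁ ^ K), by positivity, ?_⟩
  intro X R A₀ hA₀ hR1 hRX Q hQ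
  have hX : 1 ≤ X := hR1.trans hRX
  have hX1 : (1 : ℝ) ≤ X := by exact_mod_cast hX
  have hX0 : (0 : ℝ) < X := by linarith
  have hA0 : (0 : ℝ) < A₀ := by exact_mod_cast hA₀
  have hRr : (1 : ℝ) ≤ R := by exact_mod_cast hR1
  obtain ⟨Z, hZ⟩ : ∃ Z : ℕ, Z = N * X := ⟨_, rfl⟩
  have hNR : N * R ≤ Z := by rw [hZ]; exact Nat.mul_le_mul_left _ hRX
  have hzc : ∀ f : ℤ, f ≠ 0 → f.natAbs ≤ N → ∀ x ∈ Q, ∀ p, zr (f * lz L p x) ≤ N * R := by
    intro f hf hfN x hx p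
    obtain ⟨g1, g2, -⟩ := hQ x hx
    refine (zr_mul_le hf (g1.ne p)).trans ?_
    exact Nat.mul_le_mul ((SF.rad_le_self (Int.natAbs_ne_zero.2 hf)).trans hfN) (g2 p)
  obtain ⟨E, hE⟩ : ∃ E : ℝ, E = D * (Z : ℝ) ^ (ε / 4) := ⟨_, rfl⟩
  have hE0 : 0 ≤ E := by rw [hE]; positivity
  have hdiv : ∀ w : ℕ, 1 ≤ w → w ≤ N * R → (w.divisors.card : ℝ) ≤ E := by
    intro w h1 h2
    have := hd Z w h1 (h2.trans hNR)
    rw [pow_one] at this
    rw [hE]
    exact this
  obtain ⟨G, hG⟩ : ∃ G : ℝ, G = 2 * C₁ ^ K * (X : ℝ) ^ (ε / 4) := ⟨_, rfl⟩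
  have hG0 : 0 ≤ G := by rw [hG]; positivity
  obtain ⟨y, hy⟩ : ∃ y, y = yr L i j a b := ⟨_, rfl⟩
  obtain ⟨dd, hdd⟩ : ∃ dd : (Fin r → ℤ) → ℤ, dd = fun x => (a * lz L i x) / (y x).num := ⟨_, rfl⟩
  have hfac : ∀ x ∈ Q, dd x ≠ 0 ∧ (y x).num ≠ 0 ∧ a * lz L i x = dd x * (y x).num ∧
      b * lz L j x = dd x * (y x).den ∧ zr (e * lz L k x) = zr (dd x * ν (y x)) ∧ ν (y x) ≠ 0 := by
    intro x hx
    obtain ⟨g1, g2, g3, g4, g5⟩ := hQ x hx
    obtain ⟨f1, f2, d, d1, d2, d3, d4⟩ := yr_facts hR g1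
    have h5 := g5 d d2 d3
    rw [← hy] at f1 f2 d2 d3 h5 g3
    have h3 : (y x).num ≠ 0 := Rat.num_ne_zero.2 f1
    have h4 : dd x = d := by
      rw [hdd]
      dsimp only
      rw [d2]
      exact Int.mul_ediv_cancel _ h3
    rw [h4]
    exact ⟨d1, h3, d2, d3, h5, g3⟩
  -- step 1: the ratio
  have hQy : (Q.card : ℝ) ≤ ((Q.image y).card : ℝ) * ((N * R / A₀ : ℝ) * (E * (E * (E *
      ((R : ℝ) ^ (r - 2) * G))))) := by
    refine fibs Q y (by positivity) le_rfl ?_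
    intro y₀ hy₀
    obtain ⟨P₁, hP₁⟩ : ∃ P, P = Q.filter fun x => y x = y₀ := ⟨_, rfl⟩
    rw [← hP₁]
    have m1 : ∀ x ∈ P₁, x ∈ Q ∧ y x = y₀ := fun x hx => by
      rw [hP₁, mem_filter] at hx
      exact hx
    rw [mem_image] at hy₀
    obtain ⟨x₁, hx₁, hx₁'⟩ := hy₀
    -- step 2: the radical of the third form
    have hρ : A₀ ≤ zr (ν y₀) := by
      rw [← hx₁', hy]
      exact (hQ x₁ hx₁).2.2.2.1
    refine fibs P₁ (fun x => zr (e * lz L k x)) (by positivity) ?_ ?_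
    · have hsub : (P₁.image fun x => zr (e * lz L k x)) ⊆
          (Ioc 0 (N * R)).filter fun w => zr (ν y₀) ∣ w := by
        intro w hw
        rw [mem_image] at hw
        obtain ⟨x, hx, rfl⟩ := hw
        obtain ⟨hxQ, hxy⟩ := m1 x hx
        obtain ⟨f1, f2, f3, f4, f5, f6⟩ := hfac x hxQ
        rw [mem_filter, mem_Ioc]
        refine ⟨⟨zr_pos _, hzc e he (by omega) x hxQ k⟩, ?_⟩
        rw [f5, ← hxy]
        exact zr_dvd_of_dvd (mul_ne_zero f1 f6) (dvd_mul_left _ _)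
      have h1 := card_le_card hsub
      rw [Nat.Ioc_filter_dvd_card_eq_div] at h1
      have hρ0 : (0 : ℝ) < zr (ν y₀) := by exact_mod_cast zr_pos _
      calc ((P₁.image fun x => zr (e * lz L k x)).card : ℝ) ≤ ((N * R / zr (ν y₀) : ℕ) : ℝ) := by
            exact_mod_cast h1
        _ ≤ ((N * R : ℕ) : ℝ) / (zr (ν y₀) : ℝ) := Nat.cast_div_le
        _ ≤ (N * R / A₀ : ℝ) := by
            push_cast
            apply div_le_div_of_nonneg_left (by positivity) hA0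
            exact_mod_cast hρ
    intro w hw
    obtain ⟨P₂, hP₂⟩ : ∃ P, P = P₁.filter fun x => zr (e * lz L k x) = w := ⟨_, rfl⟩
    rw [← hP₂]
    have m2 : ∀ x ∈ P₂, x ∈ P₁ ∧ zr (e * lz L k x) = w := fun x hx => by
      rw [hP₂, mem_filter] at hx
      exact hx
    rw [mem_image] at hw
    obtain ⟨x₂, hx₂, hx₂'⟩ := hw
    -- step 3: the radical of the common factor
    refine fibs P₂ (fun x => zr (dd x)) (by positivity) ?_ ?_
    · refine le_trans ?_ (hdiv w (by rw [← hx₂']; exact zr_pos _)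
        (by rw [← hx₂']; exact hzc e he (by omega) x₂ (m1 x₂ hx₂).1 k))
      have hsub : (P₂.image fun x => zr (dd x)) ⊆ w.divisors := by
        intro v hv
        rw [mem_image] at hv
        obtain ⟨x, hx, rfl⟩ := hv
        obtain ⟨hx1, hxw⟩ := m2 x hx
        obtain ⟨f1, f2, f3, f4, f5, f6⟩ := hfac x (m1 x hx1).1
        rw [Nat.mem_divisors, ← hxw]
        refine ⟨?_, (zr_pos _).ne'⟩
        rw [f5]
        exact zr_dvd_of_dvd (mul_ne_zero f1 f6) (dvd_mul_right _ _)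
      exact_mod_cast card_le_card hsub
    intro δ hδ
    obtain ⟨P₃, hP₃⟩ : ∃ P, P = P₂.filter fun x => zr (dd x) = δ := ⟨_, rfl⟩
    rw [← hP₃]
    have m3 : ∀ x ∈ P₃, x ∈ P₂ ∧ zr (dd x) = δ := fun x hx => by
      rw [hP₃, mem_filter] at hx
      exact hx
    have m3' : ∀ x ∈ P₃, x ∈ Q ∧ y x = y₀ ∧ zr (dd x) = δ := fun x hx =>
      ⟨(m1 x (m2 x (m3 x hx).1).1).1, (m1 x (m2 x (m3 x hx).1).1).2, (m3 x hx).2⟩
    rw [mem_image] at hδ
    obtain ⟨x₃, hx₃, hx₃'⟩ := hδ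
    have hx₃P : x₃ ∈ P₃ := by rw [hP₃, mem_filter]; exact ⟨hx₃, hx₃'⟩
    -- step 4: the radical of the first form
    have hi : ∀ x ∈ P₃, zr (a * lz L i x) = rad (δ * y₀.num.natAbs) := by
      intro x hx
      obtain ⟨h1, h2, h3⟩ := m3' x hx
      obtain ⟨f1, f2, f3, f4, f5, f6⟩ := hfac x h1
      rw [f3, zr_mul_rad f1 f2, h3, h2]
    have hj : ∀ x ∈ P₃, zr (b * lz L j x) = rad (δ * (y₀.den : ℤ).natAbs) := by
      intro x hx
      obtain ⟨h1, h2, h3⟩ := m3' x hx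
      obtain ⟨f1, f2, f3, f4, f5, f6⟩ := hfac x h1
      rw [f4, zr_mul_rad f1 (den_ne _), h3, h2]
    refine fibs P₃ (fun x => zr (lz L i x)) (by positivity) ?_ ?_
    · refine le_trans ?_ (hdiv (rad (δ * y₀.num.natAbs)) (SF.rad_pos _)
        (by rw [← hi x₃ hx₃P]; exact hzc a hR.ha (by omega) x₃ (m3' x₃ hx₃P).1 i))
      have hsub : (P₃.image fun x => zr (lz L i x)) ⊆ (rad (δ * y₀.num.natAbs)).divisors := by
        intro v hv
        rw [mem_image] at hv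
        obtain ⟨x, hx, rfl⟩ := hv
        rw [Nat.mem_divisors]
        refine ⟨?_, (SF.rad_pos _).ne'⟩
        rw [← hi x hx]
        exact zr_dvd_of_dvd (mul_ne_zero hR.ha ((hQ x (m3' x hx).1).1.ne i)) (dvd_mul_left _ _)
      exact_mod_cast card_le_card hsub
    intro ρ₁ hρ₁
    obtain ⟨P₄, hP₄⟩ : ∃ P, P = P₃.filter fun x => zr (lz L i x) = ρ₁ := ⟨_, rfl⟩
    rw [← hP₄]
    have m4 : ∀ x ∈ P₄, x ∈ P₃ ∧ zr (lz L i x) = ρ₁ := fun x hx => by
      rw [hP₄, mem_filter] at hx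
      exact hx
    rw [mem_image] at hρ₁
    obtain ⟨x₄, hx₄, hx₄'⟩ := hρ₁
    -- step 5: the radical of the second form
    refine fibs P₄ (fun x => zr (lz L j x)) (by positivity) ?_ ?_
    · refine le_trans ?_ (hdiv (rad (δ * (y₀.den : ℤ).natAbs)) (SF.rad_pos _)
        (by rw [← hj x₃ hx₃P]; exact hzc b hR.hb (by omega) x₃ (m3' x₃ hx₃P).1 j))
      have hsub : (P₄.image fun x => zr (lz L j x)) ⊆ (rad (δ * (y₀.den : ℤ).natAbs)).divisors := by
        intro v hv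
        rw [mem_image] at hv
        obtain ⟨x, hx, rfl⟩ := hv
        rw [Nat.mem_divisors]
        refine ⟨?_, (SF.rad_pos _).ne'⟩
        rw [← hj x (m4 x hx).1]
        exact zr_dvd_of_dvd (mul_ne_zero hR.hb ((hQ x (m3' x (m4 x hx).1).1).1.ne j))
          (dvd_mul_left _ _)
      exact_mod_cast card_le_card hsub
    intro ρ₂ hρ₂
    obtain ⟨P₅, hP₅⟩ : ∃ P, P = P₄.filter fun x => zr (lz L j x) = ρ₂ := ⟨_, rfl⟩
    rw [← hP₅]
    have m5 : ∀ x ∈ P₅, x ∈ P₄ ∧ zr (lz L j x) = ρ₂ := fun x hx => by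
      rw [hP₅, mem_filter] at hx
      exact hx
    -- step 6: the other radicals
    refine fibs P₅ (fun x => fun p : Fin n => if p ∈ B' then zr (lz L p x) else 0) hG0 ?_ ?_
    · have hsub : (P₅.image fun x => fun p : Fin n => if p ∈ B' then zr (lz L p x) else 0) ⊆
          Fintype.piFinset fun p : Fin n => if p ∈ B' then Ioc 0 R else {0} := by
        intro v hv
        rw [mem_image] at hv
        obtain ⟨x, hx, rfl⟩ := hv
        rw [Fintype.mem_piFinset]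
        intro p
        split_ifs with hp
        · rw [mem_Ioc]
          exact ⟨zr_pos _, (hQ x (m3' x (m4 x (m5 x hx).1).1).1).2.1 p⟩
        · exact mem_singleton_self _
      have h1 := card_le_card hsub
      rw [Fintype.card_piFinset] at h1
      have h2 : ∀ p : Fin n, (if p ∈ B' then Ioc 0 R else {0} : Finset ℕ).card =
          if p ∈ B' then R else 1 := by
        intro p
        split_ifs
        · rw [Nat.card_Ioc, Nat.sub_zero]
        · rw [card_singleton]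
      rw [Finset.prod_congr rfl fun p _ => h2 p, Finset.prod_ite_mem, Finset.univ_inter,
        Finset.prod_const] at h1
      have h3 : R ^ B'.card ≤ R ^ (r - 2) := Nat.pow_le_pow_right hR1 (by omega)
      exact_mod_cast h1.trans h3
    intro v hv
    obtain ⟨P₆, hP₆⟩ : ∃ P, P = P₅.filter fun x =>
        (fun p : Fin n => if p ∈ B' then zr (lz L p x) else 0) = v := ⟨_, rfl⟩
    rw [← hP₆]
    have m6 : ∀ x ∈ P₆, x ∈ P₅ ∧ (fun p : Fin n => if p ∈ B' then zr (lz L p x) else 0) = v :=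
      fun x hx => by
        rw [hP₆, mem_filter] at hx
        exact hx
    have m6' : ∀ x ∈ P₆, x ∈ Q := fun x hx => (m3' x (m4 x (m5 x (m6 x hx).1).1).1).1
    obtain ⟨F, hF1, hF2, hF3⟩ := h₁ X hX P₆ (fun x hx => ⟨(hQ x (m6' x hx)).1,
      fun p => ((hQ x (m6' x hx)).2.1 p).trans hRX⟩)
    have h2 := hK F P₆ hF1 hF3 (fun x hx => (hQ x (m6' x hx)).1) (by
      intro p hp
      have hone : ∀ q : ℕ, (∀ x ∈ P₆, zr (lz L p x) = q) →
          (P₆.image fun x => zr (lz L p x)).card ≤ 1 := by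
        intro q hq
        refine (card_le_card (t := {q}) ?_).trans (by simp)
        intro z hz
        rw [mem_image] at hz
        obtain ⟨x, hx, rfl⟩ := hz
        rw [mem_singleton]
        exact hq x hx
      rw [mem_insert, mem_insert] at hp
      rcases hp with rfl | rfl | hp
      · exact hone ρ₁ fun x hx => (m4 x (m5 x (m6 x hx).1).1).2
      · exact hone ρ₂ fun x hx => (m5 x (m6 x hx).1).2
      · refine hone (v p) fun x hx => ?_
        have h3 := congrFun (m6 x hx).2 p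
        rw [if_pos hp] at h3
        exact h3)
    calc (P₆.card : ℝ) ≤ ((2 * F ^ K : ℕ) : ℝ) := by exact_mod_cast h2
      _ = 2 * (F : ℝ) ^ K := by push_cast; ring
      _ ≤ 2 * (C₁ * (X : ℝ) ^ (ε / 4 / (K + 1))) ^ K := by
          apply mul_le_mul_of_nonneg_left _ (by norm_num)
          exact pow_le_pow_left₀ (Nat.cast_nonneg _) hF2 K
      _ = 2 * C₁ ^ K * (X : ℝ) ^ (ε / 4 / (K + 1) * K) := by
          rw [mul_pow, ← Real.rpow_natCast ((X : ℝ) ^ (ε / 4 / (K + 1))), ← Real.rpow_mul hX0.le,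
            mul_assoc]
      _ ≤ G := by
          rw [hG]
          apply mul_le_mul_of_nonneg_left _ (by positivity)
          apply Real.rpow_le_rpow_of_exponent_le hX1
          rw [div_mul_eq_mul_div, div_le_iff₀ (by positivity)]
          nlinarith
  refine hQy.trans (le_of_eq ?_)
  have hE' : E = D * (N : ℝ) ^ (ε / 4) * (X : ℝ) ^ (ε / 4) := by
    rw [hE, hZ]
    push_cast
    rw [Real.mul_rpow hN0.le hX0.le]
    ring
  have hX4 : (X : ℝ) ^ ε = (X : ℝ) ^ (ε / 4) * (X : ℝ) ^ (ε / 4) * (X : ℝ) ^ (ε / 4) *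
      (X : ℝ) ^ (ε / 4) := by
    rw [← Real.rpow_add hX0, ← Real.rpow_add hX0, ← Real.rpow_add hX0]
    congr 1
    ring
  rw [hE', hG, hX4, hy]
  ring

end Pool.Agent.H583.SB
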