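import Pool.Agent.H583.SB.A

/-!
Weighted arrangements: the points with unbalanced radicals are few if the arrangement is stable.
-/

set_option autoImplicit false

namespace Pool.Agent.H583.SB

open Finset Pool.Agent.T2H20.ABC Pool.Agent.T2H20.AH Pool.Agent.H785R2.ABC Pool.Agent.H583.SF
  Pool.Agent.H583.WT Pool.Agent.H583.AL Pool.Agent.H583.AR Pool.Agent.H583.GD Pool.Agent.H583.PD
  Pool.Agent.H583.ST Pool.Agent.H583.SA

variable {n r : ℕ}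

/-- the stability of a weighted arrangement -/
def Stb (L : Fin n → Fin r → ℤ) (w : Fin n → ℝ) : Prop :=
  ∀ W : Submodule ℚ (Fin r → ℚ), W ≠ ⊥ → W ≠ ⊤ →
    (Module.finrank ℚ W : ℝ) * ∑ i, w i < r * ∑ i ∈ crs L W, w i

lemma crs_top {L : Fin n → Fin r → ℤ} (hne : ∀ i, ∃ k, L i k ≠ 0) : crs L ⊤ = univ := by
  ext i
  rw [mem_crs]
  refine ⟨fun _ => mem_univ i, fun _ => ?_⟩
  obtain ⟨k, hk⟩ := hne i
  refine ⟨Pi.single k 1, Submodule.mem_top, ?_⟩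
  rw [lq_apply, Finset.sum_eq_single k]
  · rw [Pi.single_eq_same, mul_one]
    exact_mod_cast hk
  · intro j _ hj
    rw [Pi.single_eq_of_ne hj, mul_zero]
  · intro h
    exact absurd (mem_univ k) h

/-- **classes** -/
theorem cls_all {L : Fin n → Fin r → ℤ} (hL : Ar L) (i₀ : Fin n) (w : Fin n → ℝ)
    (hw : ∀ i, 0 < w i) (hst : Stb L w) (hr : 2 ≤ r) : ∃ c₁ : ℝ, 0 < c₁ ∧ ∀ ε : ℝ, 0 < ε →
      ∃ C : ℝ, 0 < C ∧ ∀ (u : Fin n → ℕ) (Q : Finset (Fin r → ℤ)),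
        (∀ x ∈ Q, Pt L x ∧ ∀ i, Nat.log 2 (zr (lz L i x)) = u i) → ∀ p q : Fin n,
        (Q.card : ℝ) ≤ C * (2 : ℝ) ^ (r / (∑ i, w i) * ∑ i, w i * u i - c₁ * (u p - u q)) *
          (2 : ℝ) ^ (ε * ∑ i, (u i : ℝ)) := by
  classical
  obtain ⟨Ω, hΩ⟩ : ∃ Ω : ℝ, Ω = ∑ i, w i := ⟨_, rfl⟩
  have hΩ0 : 0 < Ω := by
    rw [hΩ]
    exact Finset.sum_pos (fun i _ => hw i) ⟨i₀, mem_univ _⟩
  have hr0 : (0 : ℝ) < r := by exact_mod_cast (by omega : 0 < r)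
  obtain ⟨s, hs⟩ : ∃ s : Fin n → ℝ, s = fun i => r / Ω * w i := ⟨_, rfl⟩
  have hs0 : ∀ i, 0 < s i := by
    intro i
    rw [hs]
    exact mul_pos (div_pos hr0 hΩ0) (hw i)
  have hssum : ∀ S : Finset (Fin n), ∑ i ∈ S, s i = r / Ω * ∑ i ∈ S, w i := by
    intro S
    rw [hs, Finset.mul_sum]
  have hstot : ∑ i, s i = r := by
    rw [hssum, ← hΩ, div_mul_cancel₀ _ hΩ0.ne']
  -- a uniform constant
  obtain ⟨c₁, hc₁, hc₁s, Hc⟩ : ∃ c₁ : ℝ, 0 < c₁ ∧ (∀ i, c₁ ≤ s i) ∧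
      ∀ W : Submodule ℚ (Fin r → ℚ), W ≠ ⊥ → W ≠ ⊤ →
      (Module.finrank ℚ W : ℝ) + c₁ ≤ ∑ i ∈ crs L W, s i := by
    obtain ⟨d, hd⟩ : ∃ d : Fin (r + 1) × Finset (Fin n) → ℝ, d = fun z =>
      if (z.1 : ℝ) < ∑ i ∈ z.2, s i then ∑ i ∈ z.2, s i - (z.1 : ℝ) else 1 := ⟨_, rfl⟩
    obtain ⟨t₀, -, ht₀⟩ := Finset.exists_min_image univ d ⟨(0, ∅), mem_univ _⟩
    have hpos : ∀ z, 0 < d z := by
      intro z
      rw [hd]
      dsimp only
      split_ifs with h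
      · linarith
      · exact one_pos
    obtain ⟨p₀, -, hp₀⟩ := Finset.exists_min_image univ s ⟨i₀, mem_univ _⟩
    refine ⟨min (d t₀) (s p₀), lt_min (hpos t₀) (hs0 p₀), ?_, ?_⟩
    · intro i
      exact (min_le_right _ _).trans (hp₀ i (mem_univ i))
    intro W hW hW'
    have hfr : Module.finrank ℚ W < r + 1 := by
      have := Submodule.finrank_le W
      rw [Module.finrank_fin_fun] at this
      omega
    have h1 := ht₀ (⟨Module.finrank ℚ W, hfr⟩, crs L W) (mem_univ _)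
    have h2 := hst W hW hW'
    have h3 : (Module.finrank ℚ W : ℝ) < ∑ i ∈ crs L W, s i := by
      rw [hssum, div_mul_eq_mul_div, lt_div_iff₀ hΩ0, hΩ]
      exact h2
    have h4 : d (⟨Module.finrank ℚ W, hfr⟩, crs L W) =
        ∑ i ∈ crs L W, s i - (Module.finrank ℚ W : ℝ) := by
      rw [hd]
      dsimp only
      rw [if_pos h3]
    rw [h4] at h1
    have := min_le_left (d t₀) (s p₀)
    linarith
  refine ⟨c₁, hc₁, ?_⟩
  intro ε hε
  have hcst : ∀ B : Finset (Fin n), ∃ C : ℝ, 0 < C ∧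
      ((∀ x : Fin r → ℚ, (∀ i ∈ B, lq L i x = 0) → x = 0) →
      ∀ (u : Fin n → ℕ) (Q : Finset (Fin r → ℤ)),
      (∀ x ∈ Q, Pt L x ∧ ∀ i, Nat.log 2 (zr (lz L i x)) = u i) →
      (Q.card : ℝ) ≤ C * (2 : ℝ) ^ (∑ i ∈ B, (u i : ℝ)) * (2 : ℝ) ^ (ε * ∑ i, (u i : ℝ))) := by
    intro B
    by_cases h : ∀ x : Fin r → ℚ, (∀ i ∈ B, lq L i x = 0) → x = 0
    · obtain ⟨C, hC, h1⟩ := cls_one hL i₀ B h ε hε
      exact ⟨C, hC, fun _ => h1⟩
    · exact ⟨1, one_pos, fun h1 => absurd h1 h⟩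
  choose C hC hCB using hcst
  obtain ⟨C', hC'⟩ : ∃ C', C' = ∑ B : Finset (Fin n), C B := ⟨_, rfl⟩
  have hCC : ∀ B, C B ≤ C' := by
    intro B
    rw [hC']
    exact Finset.single_le_sum (f := C) (fun B _ => (hC B).le) (mem_univ B)
  have hC'0 : 0 < C' := lt_of_lt_of_le (hC ∅) (hCC ∅)
  refine ⟨C', hC'0, ?_⟩
  intro u Q hQ p q
  obtain ⟨s', hs'⟩ : ∃ s' : Fin n → ℝ, s' = fun i =>
    s i - (if i = p then c₁ else 0) + (if i = q then c₁ else 0) := ⟨_, rfl⟩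
  have hs'0 : ∀ i, 0 ≤ s' i := by
    intro i
    rw [hs']
    dsimp only
    have h1 := hc₁s i
    split_ifs <;> linarith [hs0 i]
  have hsum' : ∀ (S : Finset (Fin n)) (v : Fin n → ℝ), ∑ i ∈ S, s' i * v i =
      ∑ i ∈ S, s i * v i - (if p ∈ S then c₁ * v p else 0) + (if q ∈ S then c₁ * v q else 0) := by
    intro S v
    rw [hs']
    simp only [add_mul, sub_mul, Finset.sum_add_distrib, Finset.sum_sub_distrib, ite_mul, zero_mul,
      Finset.sum_ite_eq']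
  have H : ∀ W : Submodule ℚ (Fin r → ℚ), W ≠ ⊥ →
      (1 + (0 : ℝ)) * (Module.finrank ℚ W : ℝ) ≤ 0 + ∑ i ∈ crs L W, s' i := by
    intro W hW
    have h1 := hsum' (crs L W) (fun _ => 1)
    simp only [mul_one] at h1
    rw [h1, add_zero, one_mul, zero_add]
    by_cases hW' : W = ⊤
    · rw [hW', crs_top hL.ne, if_pos (mem_univ _), if_pos (mem_univ _), hstot, finrank_top,
        Module.finrank_fin_fun]
      linarith
    · have h2 := Hc W hW hW'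
      split_ifs <;> linarith
  have htop : Module.finrank ℚ (⊤ : Submodule ℚ (Fin r → ℚ)) = r := by
    rw [finrank_top, Module.finrank_fin_fun]
  obtain ⟨B, -, hB2, -, hB4⟩ := greedy hL.ess hs'0 (t := 0) le_rfl (δ := 0) le_rfl H r ⊤ htop
    (fun i => (u i : ℝ)) (∑ i, (u i : ℝ))
    (fun i _ => ⟨Nat.cast_nonneg _, Finset.single_le_sum (f := fun i => (u i : ℝ))
      (fun _ _ => Nat.cast_nonneg _) (mem_univ i)⟩) (Finset.sum_nonneg fun _ _ => Nat.cast_nonneg _)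
  have hB2' : ∀ x : Fin r → ℚ, (∀ i ∈ B, lq L i x = 0) → x = 0 := fun x hx =>
    hB2 x (Submodule.mem_top) hx
  rw [crs_top hL.ne, hsum' univ (fun i => (u i : ℝ)), if_pos (mem_univ _), if_pos (mem_univ _)] at hB4
  have h1 := hCB B hB2' u Q hQ
  have h2 : ∑ i, s i * (u i : ℝ) = r / Ω * ∑ i, w i * u i := by
    rw [hs, Finset.mul_sum]
    apply Finset.sum_congr rfl
    intro i _
    ring
  refine h1.trans ?_
  apply mul_le_mul_of_nonneg_right _ (by positivity)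
  apply mul_le_mul (hCC B) _ (by positivity) hC'0.le
  apply Real.rpow_le_rpow_of_exponent_le (by norm_num)
  rw [← hΩ]
  rw [h2] at hB4
  linarith

/-- the weighted product of the radicals -/
noncomputable def wp (L : Fin n → Fin r → ℤ) (w : Fin n → ℝ) (x : Fin r → ℤ) : ℝ :=
  ∏ i, (zr (lz L i x) : ℝ) ^ w i

lemma wp_sum {L : Fin n → Fin r → ℤ} {w : Fin n → ℝ} (hw : ∀ i, 0 < w i) {X : ℝ} (hX : 1 ≤ X)
    {x : Fin r → ℤ} (h : wp L w x ≤ X) :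
    ∑ i, w i * (Nat.log 2 (zr (lz L i x)) : ℝ) ≤ Real.logb 2 X := by
  rw [Real.le_logb_iff_rpow_le (by norm_num) (by linarith)]
  refine le_trans ?_ h
  unfold wp
  rw [Real.rpow_sum_of_pos (by norm_num)]
  apply Finset.prod_le_prod (fun _ _ => by positivity)
  intro i _
  rw [mul_comm, Real.rpow_mul (by norm_num), Real.rpow_natCast]
  apply Real.rpow_le_rpow (by positivity) _ (hw i).le
  exact_mod_cast Nat.pow_log_le_self 2 (zr_pos _).ne'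

lemma X_two {X : ℝ} (hX : 1 ≤ X) (a : ℝ) : (2 : ℝ) ^ (a * Real.logb 2 X) = X ^ a := by
  rw [mul_comm, Real.rpow_mul (by norm_num), Real.rpow_logb (by norm_num) (by norm_num) (by linarith)]

/-- **unbalanced classes are small** -/
theorem unb {L : Fin n → Fin r → ℤ} (hL : Ar L) (i₀ : Fin n) (w : Fin n → ℝ)
    (hw : ∀ i, 0 < w i) (hst : Stb L w) (hr : 2 ≤ r) (κ : ℝ) (hκ : 0 < κ) : ∃ δ C : ℝ, 0 < δ ∧ 0 < C ∧
      ∀ X : ℝ, 1 ≤ X → ∀ (z : Fin r → ℤ) (Q : Finset (Fin r → ℤ)), wp L w z ≤ X →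
        (∀ x ∈ Q, Pt L x ∧ ∀ i, Nat.log 2 (zr (lz L i x)) = Nat.log 2 (zr (lz L i z))) →
        ((∃ p q, κ * Real.logb 2 X ≤
          (Nat.log 2 (zr (lz L p z)) : ℝ) - Nat.log 2 (zr (lz L q z))) ∨
        ∑ i, w i * (Nat.log 2 (zr (lz L i z)) : ℝ) ≤ (1 - κ) * Real.logb 2 X) →
        (Q.card : ℝ) ≤ C * X ^ (r / (∑ i, w i) - δ) := by
  classical
  obtain ⟨c₁, hc₁, h₁⟩ := cls_all hL i₀ w hw hst hr
  obtain ⟨Ω, hΩ⟩ : ∃ Ω : ℝ, Ω = ∑ i, w i := ⟨_, rfl⟩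
  have hΩ0 : 0 < Ω := by
    rw [hΩ]
    exact Finset.sum_pos (fun i _ => hw i) ⟨i₀, mem_univ _⟩
  have hr0 : (0 : ℝ) < r := by exact_mod_cast (by omega : 0 < r)
  obtain ⟨p₀, -, hp₀⟩ := Finset.exists_min_image univ w ⟨i₀, mem_univ _⟩
  obtain ⟨m, hm⟩ : ∃ m, m = min c₁ (r / Ω) := ⟨_, rfl⟩
  have hm0 : 0 < m := by rw [hm]; exact lt_min hc₁ (div_pos hr0 hΩ0)
  obtain ⟨δ, hδ⟩ : ∃ δ, δ = m * κ / 2 := ⟨_, rfl⟩
  have hδ0 : 0 < δ := by rw [hδ]; positivity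
  obtain ⟨C, hC, h₂⟩ := h₁ (δ * w p₀) (mul_pos hδ0 (hw p₀))
  refine ⟨δ, C, hδ0, hC, ?_⟩
  intro X hX z Q hz hQ hun
  obtain ⟨ℓ, hℓ⟩ : ∃ ℓ, ℓ = Real.logb 2 X := ⟨_, rfl⟩
  have hℓ0 : 0 ≤ ℓ := by rw [hℓ]; exact Real.logb_nonneg (by norm_num) hX
  obtain ⟨u, hu⟩ : ∃ u : Fin n → ℕ, u = fun i => Nat.log 2 (zr (lz L i z)) := ⟨_, rfl⟩
  have hsum := wp_sum hw hX hz
  have hu' : ∀ i, Nat.log 2 (zr (lz L i z)) = u i := fun i => by rw [hu]
  simp only [hu'] at hsum hun hQ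
  rw [← hℓ] at hsum hun
  have hε : δ * w p₀ * ∑ i, (u i : ℝ) ≤ δ * ℓ := by
    have h3 : w p₀ * ∑ i, (u i : ℝ) ≤ ∑ i, w i * u i := by
      rw [Finset.mul_sum]
      apply Finset.sum_le_sum
      intro i _
      exact mul_le_mul_of_nonneg_right (hp₀ i (mem_univ i)) (Nat.cast_nonneg _)
    calc δ * w p₀ * ∑ i, (u i : ℝ) = δ * (w p₀ * ∑ i, (u i : ℝ)) := by ring
      _ ≤ δ * ℓ := mul_le_mul_of_nonneg_left (h3.trans hsum) hδ0.le
  have key : ∃ p q : Fin n, r / Ω * ∑ i, w i * (u i : ℝ) - c₁ * (u p - u q) ≤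
      (r / Ω) * ℓ - 2 * δ * ℓ := by
    rcases hun with ⟨p, q, h⟩ | h
    · refine ⟨p, q, ?_⟩
      have h1 : r / Ω * ∑ i, w i * (u i : ℝ) ≤ r / Ω * ℓ :=
        mul_le_mul_of_nonneg_left hsum (div_pos hr0 hΩ0).le
      have h2 : c₁ * (κ * ℓ) ≤ c₁ * ((u p : ℝ) - u q) := mul_le_mul_of_nonneg_left h hc₁.le
      have h3 : m * (κ * ℓ) ≤ c₁ * (κ * ℓ) := by
        apply mul_le_mul_of_nonneg_right _ (by positivity)
        rw [hm]
        exact min_le_left _ _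
      have h4 : 2 * δ * ℓ = m * (κ * ℓ) := by rw [hδ]; ring
      linarith
    · refine ⟨i₀, i₀, ?_⟩
      have h1 : r / Ω * ∑ i, w i * (u i : ℝ) ≤ r / Ω * ((1 - κ) * ℓ) :=
        mul_le_mul_of_nonneg_left h (div_pos hr0 hΩ0).le
      have h3 : m * (κ * ℓ) ≤ r / Ω * (κ * ℓ) := by
        apply mul_le_mul_of_nonneg_right _ (by positivity)
        rw [hm]
        exact min_le_right _ _
      have h4 : 2 * δ * ℓ = m * (κ * ℓ) := by rw [hδ]; ring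
      rw [sub_self, mul_zero, sub_zero]
      have h5 : r / Ω * ((1 - κ) * ℓ) = r / Ω * ℓ - r / Ω * (κ * ℓ) := by ring
      linarith
  obtain ⟨p, q, hpq⟩ := key
  have h3 := h₂ u Q hQ p q
  rw [← hΩ] at h3 ⊢
  refine h3.trans ?_
  rw [mul_assoc, ← Real.rpow_add (by norm_num)]
  apply mul_le_mul_of_nonneg_left _ hC.le
  calc (2 : ℝ) ^ (r / Ω * ∑ i, w i * (u i : ℝ) - c₁ * (u p - u q) + δ * w p₀ * ∑ i, (u i : ℝ)) ≤
        (2 : ℝ) ^ ((r / Ω - δ) * Real.logb 2 X) := by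
        apply Real.rpow_le_rpow_of_exponent_le (by norm_num)
        rw [← hℓ]
        linarith
    _ = X ^ (r / Ω - δ) := X_two hX _

/-- **balanced classes** -/
lemma bal {w : Fin n → ℝ} (hw : ∀ i, 0 < w i) (u : Fin n → ℕ) {ℓ κ : ℝ}
    (h1 : ∑ i, w i * (u i : ℝ) ≤ ℓ) (h2 : ∀ p q, (u p : ℝ) - u q < κ * ℓ)
    (h3 : (1 - κ) * ℓ < ∑ i, w i * (u i : ℝ)) (q : Fin n) :
    (u q : ℝ) ≤ (1 / (∑ i, w i) + κ) * ℓ ∧
      (1 / (∑ i, w i) - κ * (1 / (∑ i, w i) + 1)) * ℓ ≤ u q := by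
  obtain ⟨Ω, hΩ⟩ : ∃ Ω : ℝ, Ω = ∑ i, w i := ⟨_, rfl⟩
  have hΩ0 : 0 < Ω := by
    rw [hΩ]
    exact Finset.sum_pos (fun i _ => hw i) ⟨q, mem_univ _⟩
  rw [← hΩ]
  have h4 : Ω * ((u q : ℝ) - κ * ℓ) ≤ ∑ i, w i * (u i : ℝ) := by
    rw [hΩ, Finset.sum_mul]
    apply Finset.sum_le_sum
    intro i _
    apply mul_le_mul_of_nonneg_left _ (hw i).le
    linarith [h2 q i]
  have h5 : ∑ i, w i * (u i : ℝ) ≤ Ω * ((u q : ℝ) + κ * ℓ) := by
    rw [hΩ, Finset.sum_mul]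
    apply Finset.sum_le_sum
    intro i _
    apply mul_le_mul_of_nonneg_left _ (hw i).le
    linarith [h2 i q]
  constructor
  · have h6 : (u q : ℝ) - κ * ℓ ≤ ℓ / Ω := by
      rw [le_div_iff₀ hΩ0]
      linarith
    have h7 : (1 / Ω + κ) * ℓ = ℓ / Ω + κ * ℓ := by ring
    linarith
  · have h6 : (1 - κ) * ℓ / Ω ≤ (u q : ℝ) + κ * ℓ := by
      rw [div_le_iff₀ hΩ0]
      linarith
    have h7 : (1 / Ω - κ * (1 / Ω + 1)) * ℓ = (1 - κ) * ℓ / Ω - κ * ℓ := by ring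
    linarith

/-- **the number of classes** -/
lemma csum {L : Fin n → Fin r → ℤ} {w : Fin n → ℝ} (hw : ∀ i, 0 < w i) (M : ℕ) (ε : ℝ) (hε : 0 < ε) :
    ∃ D : ℝ, 0 < D ∧ ∀ X : ℝ, 1 ≤ X → ∀ Q : Finset (Fin r → ℤ), (∀ x ∈ Q, wp L w x ≤ X) →
      ∀ g : (Fin r → ℤ) → (Fin 3 → ℕ),
      (∀ x ∈ Q, ∀ a, ∃ i, g x a ≤ M + Nat.log 2 (zr (lz L i x))) → ∀ F : ℝ, 0 ≤ F →
      (∀ z ∈ Q, ∀ P : Finset (Fin r → ℤ), (∀ x ∈ P, x ∈ Q ∧
        (∀ i, Nat.log 2 (zr (lz L i x)) = Nat.log 2 (zr (lz L i z))) ∧ g x = g z) →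
        (P.card : ℝ) ≤ F) → (Q.card : ℝ) ≤ D * X ^ ε * F := by
  classical
  obtain ⟨K, hK⟩ : ∃ K : ℕ, ∀ i, 1 ≤ w i * K := by
    have h1 : ∀ i, ∃ k : ℕ, 1 ≤ w i * k := by
      intro i
      obtain ⟨k, hk⟩ := exists_nat_ge (1 / w i)
      refine ⟨k, ?_⟩
      rw [div_le_iff₀ (hw i)] at hk
      linarith
    choose k hk using h1
    refine ⟨∑ i, k i, fun i => (hk i).trans ?_⟩
    apply mul_le_mul_of_nonneg_left _ (hw i).le
    exact_mod_cast Finset.single_le_sum (f := k) (fun _ _ => Nat.zero_le _) (mem_univ i)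
  obtain ⟨D, hD, hlog⟩ := log_pow_le (n + 3) ε hε
  obtain ⟨N, hN⟩ : ∃ N : ℕ, N = K + M + 1 := ⟨_, rfl⟩
  refine ⟨(N : ℝ) ^ (n + 3) * (D * 2 ^ ε), by rw [hN]; positivity, ?_⟩
  intro X hX Q hQ g hg F hF hcl
  obtain ⟨Y, hY⟩ : ∃ Y : ℕ, Y = ⌈X⌉₊ := ⟨_, rfl⟩
  have hXY : X ≤ Y := by rw [hY]; exact Nat.le_ceil X
  have hY1 : 1 ≤ Y := by exact_mod_cast hX.trans hXY
  have hY2 : (Y : ℝ) ≤ 2 * X := by
    rw [hY]
    have := (Nat.ceil_lt_add_one (by linarith : 0 ≤ X)).le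
    linarith
  obtain ⟨G, hG⟩ : ∃ G, G = Nat.log 2 Y + 1 := ⟨_, rfl⟩
  have hub : ∀ x ∈ Q, ∀ i, Nat.log 2 (zr (lz L i x)) ≤ K * G := by
    intro x hx i
    have h1 := wp_sum hw hX (hQ x hx)
    have h2 : w i * (Nat.log 2 (zr (lz L i x)) : ℝ) ≤ Real.logb 2 X :=
      (Finset.single_le_sum (f := fun i => w i * (Nat.log 2 (zr (lz L i x)) : ℝ))
        (fun i _ => mul_nonneg (hw i).le (Nat.cast_nonneg _)) (mem_univ i)).trans h1
    have h3 : Real.logb 2 X ≤ G := by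
      rw [Real.logb_le_iff_le_rpow (by norm_num) (by linarith)]
      refine hXY.trans ?_
      rw [Real.rpow_natCast, hG]
      exact_mod_cast (Nat.lt_pow_succ_log_self (by norm_num) Y).le
    have h4 : (Nat.log 2 (zr (lz L i x)) : ℝ) ≤ K * G := by
      have h5 : (Nat.log 2 (zr (lz L i x)) : ℝ) ≤ (w i * K) * Nat.log 2 (zr (lz L i x)) :=
        le_mul_of_one_le_left (Nat.cast_nonneg _) (hK i)
      calc (Nat.log 2 (zr (lz L i x)) : ℝ) ≤ (w i * K) * Nat.log 2 (zr (lz L i x)) := h5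
        _ = K * (w i * Nat.log 2 (zr (lz L i x))) := by ring
        _ ≤ K * G := mul_le_mul_of_nonneg_left (h2.trans h3) (Nat.cast_nonneg _)
    exact_mod_cast h4
  have hG1 : 1 ≤ G := by omega
  obtain ⟨Φ, hΦ⟩ : ∃ Φ : (Fin r → ℤ) → (Fin n → ℕ) × (Fin 3 → ℕ),
    Φ = fun x => (fun i => Nat.log 2 (zr (lz L i x)), g x) := ⟨_, rfl⟩
  have hKN : K * G < N * G := by
    apply Nat.mul_lt_mul_of_pos_right _ hG1
    omega
  have him : ((Q.image Φ).card : ℝ) ≤ (N : ℝ) ^ (n + 3) * (D * 2 ^ ε) * X ^ ε := by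
    have hsub : Q.image Φ ⊆ (Fintype.piFinset fun _ : Fin n => range (N * G)) ×ˢ
        (Fintype.piFinset fun _ : Fin 3 => range (N * G)) := by
      intro v hv
      rw [mem_image] at hv
      obtain ⟨x, hx, rfl⟩ := hv
      rw [hΦ, mem_product, Fintype.mem_piFinset, Fintype.mem_piFinset]
      constructor
      · intro i
        rw [mem_range]
        exact (hub x hx i).trans_lt hKN
      · intro a
        rw [mem_range]
        obtain ⟨i, hi⟩ := hg x hx a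
        have h1 := hub x hx i
        have h2 : N * G = K * G + M * G + G := by rw [hN]; ring
        have h3 : M ≤ M * G := Nat.le_mul_of_pos_right _ hG1
        dsimp only
        omega
    have h1 := card_le_card hsub
    rw [card_product, Fintype.card_piFinset, Fintype.card_piFinset] at h1
    simp only [card_range, Finset.prod_const, Finset.card_univ, Fintype.card_fin] at h1
    rw [← pow_add] at h1
    calc ((Q.image Φ).card : ℝ) ≤ (((N * G) ^ (n + 3) : ℕ) : ℝ) := by exact_mod_cast h1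
      _ = (N : ℝ) ^ (n + 3) * (G : ℝ) ^ (n + 3) := by push_cast; ring
      _ ≤ (N : ℝ) ^ (n + 3) * (D * (Y : ℝ) ^ ε) := by
          apply mul_le_mul_of_nonneg_left _ (by positivity)
          rw [hG]
          exact hlog Y hY1
      _ ≤ (N : ℝ) ^ (n + 3) * (D * (2 * X) ^ ε) := by
          apply mul_le_mul_of_nonneg_left _ (by positivity)
          apply mul_le_mul_of_nonneg_left _ hD.le
          exact Real.rpow_le_rpow (Nat.cast_nonneg _) hY2 hε.le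
      _ = _ := by
          rw [Real.mul_rpow (by norm_num) (by linarith)]
          ring
  refine fibs Q Φ hF him ?_
  intro b hb
  rw [mem_image] at hb
  obtain ⟨z, hz, rfl⟩ := hb
  apply hcl z hz
  intro x hx
  rw [mem_filter] at hx
  refine ⟨hx.1, ?_, ?_⟩
  · intro i
    have h1 := congrArg Prod.fst hx.2
    rw [hΦ] at h1
    exact congrFun h1 i
  · have h1 := congrArg Prod.snd hx.2
    rw [hΦ] at h1
    exact h1

end Pool.Agent.H583.SB
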