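import Pool.Agent.H583.SB.B

/-!
Stable weighted arrangements: the untypical points are few.
-/

set_option autoImplicit false

namespace Pool.Agent.H583.SB

open Finset Pool.Agent.T2H20.ABC Pool.Agent.T2H20.AH Pool.Agent.H785R2.ABC Pool.Agent.H583.SF
  Pool.Agent.H583.WT Pool.Agent.H583.AL Pool.Agent.H583.AR Pool.Agent.H583.GD Pool.Agent.H583.PD
  Pool.Agent.H583.ST Pool.Agent.H583.SA

variable {n r : ℕ}

/-- the logarithms of the radicals of the reduced triple -/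
def gg (L : Fin n → Fin r → ℤ) (i j : Fin n) (a b : ℤ) (x : Fin r → ℤ) : Fin 3 → ℕ :=
  ![Nat.log 2 (zr (yr L i j a b x).num), Nat.log 2 (zr (yr L i j a b x).den),
    Nat.log 2 (zr ((yr L i j a b x).num + (yr L i j a b x).den))]

lemma red_facts {L : Fin n → Fin r → ℤ} {i j l : Fin n} {a b c : ℤ} (h : Rl L i j l a b c)
    {x : Fin r → ℤ} (hx : Pt L x) {N : ℕ} (hN : a.natAbs + b.natAbs + c.natAbs ≤ N) :
    zr (yr L i j a b x).num ≤ N * zr (lz L i x) ∧ zr (yr L i j a b x).den ≤ N * zr (lz L j x) ∧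
    zr ((yr L i j a b x).num + (yr L i j a b x).den) ≤ N * zr (lz L l x) := by
  obtain ⟨f1, f2, d, d1, d2, d3, d4⟩ := yr_facts h hx
  have key : ∀ (e : ℤ) (p : Fin n) (v : ℤ), e ≠ 0 → e.natAbs ≤ N → e * lz L p x = d * v →
      zr v ≤ N * zr (lz L p x) := by
    intro e p v he heN hv
    have h1 : e * lz L p x ≠ 0 := mul_ne_zero he (hx.ne p)
    refine (zr_le_of_dvd h1 ⟨d, by rw [hv]; ring⟩).trans ((zr_mul_le he (hx.ne p)).trans ?_)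
    exact Nat.mul_le_mul_right _ ((SF.rad_le_self (Int.natAbs_ne_zero.2 he)).trans heN)
  refine ⟨key a i _ h.ha (by omega) d2, key b j _ h.hb (by omega) d3, ?_⟩
  have h1 := key (-c) l ((yr L i j a b x).num + (yr L i j a b x).den) (neg_ne_zero.2 h.hc)
    (by rw [Int.natAbs_neg]; omega) (by rw [neg_mul, d4, neg_neg])
  exact h1

lemma zU_le' {y : ℚ} (h0 : y ≠ 0) (h1 : y ≠ -1) :
    zr (U y) ≤ zr y.num * zr y.den * zr (y.num + y.den) := by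
  have n0 := Rat.num_ne_zero.2 h0
  have n1 := den_ne y
  have n2 := num_add_ne h1
  exact (zr_mul_le (mul_ne_zero n0 n1) n2).trans (Nat.mul_le_mul_right _ (zr_mul_le n0 n1))

/-- **a class and a relation** -/
theorem spl {L : Fin n → Fin r → ℤ} (hL : Ar L) (hr2 : 2 ≤ r) {i j l : Fin n} {a b c : ℤ}
    (hR : Rl L i j l a b c) (hnp : Np L i j) (ε : ℝ) (hε : 0 < ε) : ∃ C : ℝ, 0 < C ∧
    ∀ R : ℕ, 1 ≤ R → ∀ (g : Fin 3 → ℕ) (Q : Finset (Fin r → ℤ)),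
    (∀ x ∈ Q, Pt L x ∧ (∀ i, zr (lz L i x) ≤ R) ∧ gg L i j a b x = g) →
    ∀ C₀ θ : ℝ, 0 ≤ C₀ → ((Q.image (yr L i j a b)).card : ℝ) ≤
      C₀ * ((2 ^ (g 0 + g 1 + g 2 + 3) : ℕ) : ℝ) ^ θ →
    (Q.card : ℝ) ≤ C * C₀ * 8 ^ θ * (R : ℝ) ^ ε *
      (2 : ℝ) ^ ((θ - 1 / 3) * (g 0 + g 1 + g 2 : ℕ)) * (R : ℝ) ^ (r - 1) := by
  classical
  obtain ⟨C₁, hC₁, h₁⟩ := fix hL i j l i a b c a hR hR.ha hnp (fun y => y.num) ε hε
  obtain ⟨C₂, hC₂, h₂⟩ := fix hL i j l j a b c b hR hR.hb hnp (fun y => (y.den : ℤ)) ε hε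
  obtain ⟨C₃, hC₃, h₃⟩ := fix hL i j l l a b c c hR hR.hc hnp (fun y => y.num + y.den) ε hε
  refine ⟨C₁ + C₂ + C₃, by positivity, ?_⟩
  intro R hR1 g Q hQ C₀ θ hC₀ hY
  have hRr : (1 : ℝ) ≤ R := by exact_mod_cast hR1
  have hR0 : (0 : ℝ) < R := by linarith
  obtain ⟨S, hS⟩ : ∃ S : ℕ, S = g 0 + g 1 + g 2 := ⟨_, rfl⟩
  rw [← hS] at hY ⊢
  have h8 : ((2 ^ (S + 3) : ℕ) : ℝ) ^ θ = 8 ^ θ * (2 : ℝ) ^ (θ * S) := by
    push_cast
    rw [pow_add, mul_comm ((2 : ℝ) ^ S), Real.mul_rpow (by positivity) (by positivity),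
      ← Real.rpow_natCast (2 : ℝ) S, ← Real.rpow_mul (by norm_num), mul_comm θ]
    norm_num
  rw [h8] at hY
  have fin : ∀ (m : ℕ) (C : ℝ), 0 < C → C ≤ C₁ + C₂ + C₃ → (S : ℝ) / 3 ≤ m →
      (Q.card : ℝ) ≤ C * (R : ℝ) ^ ε * (Q.image (yr L i j a b)).card * ((R : ℝ) / (2 ^ m : ℕ)) *
        (R : ℝ) ^ (r - 2) →
      (Q.card : ℝ) ≤ (C₁ + C₂ + C₃) * C₀ * 8 ^ θ * (R : ℝ) ^ ε *
        (2 : ℝ) ^ ((θ - 1 / 3) * (S : ℝ)) * (R : ℝ) ^ (r - 1) := by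
    intro m C hC hCC hm h
    have e1 : (R : ℝ) / (2 ^ m : ℕ) ≤ R * (2 : ℝ) ^ (-(S : ℝ) / 3) := by
      push_cast
      rw [div_eq_mul_inv, ← Real.rpow_natCast, ← Real.rpow_neg (by norm_num)]
      apply mul_le_mul_of_nonneg_left _ hR0.le
      apply Real.rpow_le_rpow_of_exponent_le (by norm_num)
      linarith
    have e2 : (R : ℝ) ^ (r - 1) = R * (R : ℝ) ^ (r - 2) := by
      rw [← pow_succ']
      congr 1
      omega
    calc (Q.card : ℝ) ≤ C * (R : ℝ) ^ ε * (Q.image (yr L i j a b)).card * ((R : ℝ) / (2 ^ m : ℕ)) *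
          (R : ℝ) ^ (r - 2) := h
      _ ≤ (C₁ + C₂ + C₃) * (R : ℝ) ^ ε * (C₀ * (8 ^ θ * (2 : ℝ) ^ (θ * S))) *
          (R * (2 : ℝ) ^ (-(S : ℝ) / 3)) * (R : ℝ) ^ (r - 2) := by
          apply mul_le_mul_of_nonneg_right _ (by positivity)
          apply mul_le_mul _ e1 (by positivity) (by positivity)
          apply mul_le_mul _ hY (by positivity) (by positivity)
          exact mul_le_mul_of_nonneg_right hCC (by positivity)
      _ = (C₁ + C₂ + C₃) * C₀ * 8 ^ θ * (R : ℝ) ^ ε *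
          ((2 : ℝ) ^ (θ * S) * (2 : ℝ) ^ (-(S : ℝ) / 3)) * (R * (R : ℝ) ^ (r - 2)) := by ring
      _ = _ := by
          rw [← Real.rpow_add (by norm_num), ← e2]
          congr 3
          ring
  have hg : ∀ x ∈ Q, Nat.log 2 (zr (yr L i j a b x).num) = g 0 ∧
      Nat.log 2 (zr (yr L i j a b x).den) = g 1 ∧
      Nat.log 2 (zr ((yr L i j a b x).num + (yr L i j a b x).den)) = g 2 := by
    intro x hx
    have h := (hQ x hx).2.2
    exact ⟨congrFun h 0, congrFun h 1, congrFun h 2⟩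
  have hS' : (S : ℝ) = g 0 + g 1 + g 2 := by rw [hS]; push_cast; ring
  by_cases g1 : (S : ℝ) / 3 ≤ g 0
  · refine fin (g 0) C₁ hC₁ (by linarith) g1 ?_
    apply h₁ R R (2 ^ g 0) Nat.one_le_two_pow hR1 le_rfl Q
    intro x hx
    obtain ⟨k1, k2, k3⟩ := hQ x hx
    obtain ⟨f1, f2, -⟩ := yr_facts hR k1
    refine ⟨k1, k2, Rat.num_ne_zero.2 f1, ?_, fun d hd _ => by rw [hd]⟩
    rw [← (hg x hx).1]
    exact Nat.pow_log_le_self 2 (zr_pos _).ne'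
  by_cases g2 : (S : ℝ) / 3 ≤ g 1
  · refine fin (g 1) C₂ hC₂ (by linarith) g2 ?_
    apply h₂ R R (2 ^ g 1) Nat.one_le_two_pow hR1 le_rfl Q
    intro x hx
    obtain ⟨k1, k2, k3⟩ := hQ x hx
    refine ⟨k1, k2, den_ne _, ?_, fun d _ hd => by rw [hd]⟩
    rw [← (hg x hx).2.1]
    exact Nat.pow_log_le_self 2 (zr_pos _).ne'
  · refine fin (g 2) C₃ hC₃ (by linarith) (by rw [not_le] at g1 g2; linarith) ?_
    apply h₃ R R (2 ^ g 2) Nat.one_le_two_pow hR1 le_rfl Q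
    intro x hx
    obtain ⟨k1, k2, k3⟩ := hQ x hx
    obtain ⟨f1, f2, -⟩ := yr_facts hR k1
    refine ⟨k1, k2, num_add_ne f2, ?_, fun d hd1 hd2 => ?_⟩
    · rw [← (hg x hx).2.2]
      exact Nat.pow_log_le_self 2 (zr_pos _).ne'
    · have h4 := lz_rel hR.rel x
      have h5 : c * lz L l x = -(d * ((yr L i j a b x).num + (yr L i j a b x).den)) := by
        rw [mul_add, ← hd1, ← hd2]
        linarith
      rw [h5]
      unfold zr
      rw [Int.natAbs_neg]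

/-- **all points** -/
theorem up {L : Fin n → Fin r → ℤ} (hL : Ar L) (i₀ : Fin n) (w : Fin n → ℝ)
    (hw : ∀ i, 0 < w i) (hst : Stb L w) (hr : 2 ≤ r) (ε : ℝ) (hε : 0 < ε) : ∃ C : ℝ, 0 < C ∧
      ∀ X : ℝ, 1 ≤ X → ∀ Q : Finset (Fin r → ℤ), (∀ x ∈ Q, Pt L x ∧ wp L w x ≤ X) →
        (Q.card : ℝ) ≤ C * X ^ (r / (∑ i, w i) + ε) := by
  classical
  obtain ⟨c₁, hc₁, h₁⟩ := cls_all hL i₀ w hw hst hr
  obtain ⟨Ω, hΩ⟩ : ∃ Ω : ℝ, Ω = ∑ i, w i := ⟨_, rfl⟩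
  have hΩ0 : 0 < Ω := by
    rw [hΩ]
    exact Finset.sum_pos (fun i _ => hw i) ⟨i₀, mem_univ _⟩
  obtain ⟨p₀, -, hp₀⟩ := Finset.exists_min_image univ w ⟨i₀, mem_univ _⟩
  obtain ⟨C, hC, h₂⟩ := h₁ (ε / 2 * w p₀) (mul_pos (by positivity) (hw p₀))
  obtain ⟨D, hD, h₃⟩ := csum (L := L) hw 0 (ε / 2) (by positivity)
  refine ⟨D * C, by positivity, ?_⟩
  intro X hX Q hQ
  have hX0 : 0 < X := by linarith
  have h4 := h₃ X hX Q (fun x hx => (hQ x hx).2) (fun _ _ => 0) (fun x hx a => ⟨i₀, Nat.zero_le _⟩)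
    (C * X ^ (r / Ω + ε / 2)) (by positivity) (by
      intro z hz P hP
      obtain ⟨u, hu⟩ : ∃ u : Fin n → ℕ, u = fun i => Nat.log 2 (zr (lz L i z)) := ⟨_, rfl⟩
      have hsum := wp_sum hw hX (hQ z hz).2
      have hu' : ∀ i, Nat.log 2 (zr (lz L i z)) = u i := fun i => by rw [hu]
      simp only [hu'] at hsum hP
      have h5 := h₂ u P (fun x hx => ⟨(hQ x (hP x hx).1).1, (hP x hx).2.1⟩) i₀ i₀
      have hε' : ε / 2 * w p₀ * ∑ i, (u i : ℝ) ≤ ε / 2 * Real.logb 2 X := by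
        have h3 : w p₀ * ∑ i, (u i : ℝ) ≤ ∑ i, w i * u i := by
          rw [Finset.mul_sum]
          apply Finset.sum_le_sum
          intro i _
          exact mul_le_mul_of_nonneg_right (hp₀ i (mem_univ i)) (Nat.cast_nonneg _)
        calc ε / 2 * w p₀ * ∑ i, (u i : ℝ) = ε / 2 * (w p₀ * ∑ i, (u i : ℝ)) := by ring
          _ ≤ ε / 2 * Real.logb 2 X := mul_le_mul_of_nonneg_left (h3.trans hsum) (by positivity)
      have h6 : r / Ω * ∑ i, w i * (u i : ℝ) ≤ r / Ω * Real.logb 2 X :=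
        mul_le_mul_of_nonneg_left hsum (by positivity)
      rw [← hΩ] at h5
      refine h5.trans ?_
      rw [mul_assoc, ← Real.rpow_add (by norm_num), ← X_two hX]
      apply mul_le_mul_of_nonneg_left _ hC.le
      apply Real.rpow_le_rpow_of_exponent_le (by norm_num)
      rw [sub_self, mul_zero, sub_zero]
      linarith)
  rw [← hΩ]
  refine h4.trans (le_of_eq ?_)
  have h5 : X ^ (r / Ω + ε) = X ^ (ε / 2) * X ^ (r / Ω + ε / 2) := by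
    rw [← Real.rpow_add hX0]
    congr 1
    ring
  rw [h5]
  ring

/-- **the unbalanced classes do not matter** -/
theorem asm {L : Fin n → Fin r → ℤ} (hL : Ar L) (i₀ : Fin n) (w : Fin n → ℝ)
    (hw : ∀ i, 0 < w i) (hst : Stb L w) (hr : 2 ≤ r) (κ : ℝ) (hκ : 0 < κ) (δ₀ C₀ : ℝ) (hδ₀ : 0 < δ₀)
    (hC₀ : 0 < C₀) (M : ℕ) (g : (Fin r → ℤ) → Fin 3 → ℕ)
    (hg : ∀ x, Pt L x → ∀ a, ∃ i, g x a ≤ M + Nat.log 2 (zr (lz L i x)))
    (p : ℝ → (Fin r → ℤ) → Prop)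
    (hbal : ∀ X : ℝ, 1 ≤ X → ∀ (z : Fin r → ℤ) (P : Finset (Fin r → ℤ)), Pt L z → p X z →
      (∀ i, (Nat.log 2 (zr (lz L i z)) : ℝ) ≤ (1 / (∑ i, w i) + κ) * Real.logb 2 X ∧
        (1 / (∑ i, w i) - κ * (1 / (∑ i, w i) + 1)) * Real.logb 2 X ≤ Nat.log 2 (zr (lz L i z))) →
      (∀ x ∈ P, Pt L x ∧ p X x ∧
        (∀ i, Nat.log 2 (zr (lz L i x)) = Nat.log 2 (zr (lz L i z))) ∧ g x = g z) →
      (P.card : ℝ) ≤ C₀ * X ^ (r / (∑ i, w i) - δ₀)) :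
    ∃ δ C : ℝ, 0 < δ ∧ 0 < C ∧ ∀ X : ℝ, 1 ≤ X → ∀ Q : Finset (Fin r → ℤ),
      (∀ x ∈ Q, Pt L x ∧ wp L w x ≤ X ∧ p X x) →
        (Q.card : ℝ) ≤ C * X ^ (r / (∑ i, w i) - δ) := by
  classical
  obtain ⟨δ₁, C₁, hδ₁, hC₁, h₁⟩ := unb hL i₀ w hw hst hr κ hκ
  obtain ⟨Ω, hΩ⟩ : ∃ Ω : ℝ, Ω = ∑ i, w i := ⟨_, rfl⟩
  obtain ⟨δ, hδ⟩ : ∃ δ, δ = min δ₀ δ₁ := ⟨_, rfl⟩
  have hδ0 : 0 < δ := by rw [hδ]; exact lt_min hδ₀ hδ₁
  have hδa : δ ≤ δ₀ := by rw [hδ]; exact min_le_left _ _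
  have hδb : δ ≤ δ₁ := by rw [hδ]; exact min_le_right _ _
  obtain ⟨D, hD, h₃⟩ := csum (L := L) hw M (δ / 2) (by positivity)
  rw [← hΩ] at h₁ hbal ⊢
  refine ⟨δ / 2, D * (C₀ + C₁), by positivity, by positivity, ?_⟩
  intro X hX Q hQ
  have hX0 : 0 < X := by linarith
  have h4 := h₃ X hX Q (fun x hx => (hQ x hx).2.1) g (fun x hx a => hg x (hQ x hx).1 a)
    ((C₀ + C₁) * X ^ (r / Ω - δ)) (by positivity) (by
      intro z hz P hP
      obtain ⟨pz, wz, qz⟩ := hQ z hz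
      by_cases hun : (∃ p q, κ * Real.logb 2 X ≤
          (Nat.log 2 (zr (lz L p z)) : ℝ) - Nat.log 2 (zr (lz L q z))) ∨
        ∑ i, w i * (Nat.log 2 (zr (lz L i z)) : ℝ) ≤ (1 - κ) * Real.logb 2 X
      · have h5 := h₁ X hX z P wz (fun x hx => ⟨(hQ x (hP x hx).1).1, (hP x hx).2.1⟩) hun
        refine h5.trans ?_
        apply mul_le_mul (by linarith) _ (by positivity) (by positivity)
        exact Real.rpow_le_rpow_of_exponent_le hX (by linarith)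
      · push Not at hun
        have hb := bal hw (fun i => Nat.log 2 (zr (lz L i z))) (wp_sum hw hX wz) hun.1 hun.2
        rw [← hΩ] at hb
        have h5 := hbal X hX z P pz qz hb (fun x hx => ⟨(hQ x (hP x hx).1).1,
          (hQ x (hP x hx).1).2.2, (hP x hx).2.1, (hP x hx).2.2⟩)
        refine h5.trans ?_
        apply mul_le_mul (by linarith) _ (by positivity) (by positivity)
        exact Real.rpow_le_rpow_of_exponent_le hX (by linarith))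
  refine h4.trans (le_of_eq ?_)
  have h5 : X ^ (r / Ω - δ / 2) = X ^ (δ / 2) * X ^ (r / Ω - δ) := by
    rw [← Real.rpow_add hX0]
    congr 1
    ring
  rw [h5]
  ring

end Pool.Agent.H583.SB
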