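import Pool.Agent.H583.SB.C
import Pool.Agent.H583.PD.G

/-!
Stable weighted arrangements: the untypical points are few.
-/

set_option autoImplicit false

namespace Pool.Agent.H583.SB

open Finset Pool.Agent.T2H20.ABC Pool.Agent.T2H20.AH Pool.Agent.H785R2.ABC Pool.Agent.H583.SF
  Pool.Agent.H583.WT Pool.Agent.H583.AL Pool.Agent.H583.AR Pool.Agent.H583.GD Pool.Agent.H583.PD
  Pool.Agent.H583.ST Pool.Agent.H583.SA

variable {n r : ℕ}

lemma zr_two (v : ℤ) : (zr v : ℝ) ≤ (2 : ℝ) ^ ((Nat.log 2 (zr v) : ℝ) + 1) := by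
  have h1 : zr v < 2 ^ (Nat.log 2 (zr v) + 1) := Nat.lt_pow_succ_log_self (by norm_num) _
  have h2 : (zr v : ℝ) ≤ ((2 ^ (Nat.log 2 (zr v) + 1) : ℕ) : ℝ) := by exact_mod_cast h1.le
  refine h2.trans (le_of_eq ?_)
  push_cast
  rw [Real.rpow_add (by norm_num), Real.rpow_natCast, Real.rpow_one, pow_succ]

lemma two_zr (v : ℤ) : (2 : ℝ) ^ (Nat.log 2 (zr v) : ℝ) ≤ zr v := by
  rw [Real.rpow_natCast]
  exact_mod_cast Nat.pow_log_le_self 2 (zr_pos _).ne'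

/-- **the radicals of almost all points** -/
theorem thin0 {L : Fin n → Fin r → ℤ} (hL : Ar L) (i₀ : Fin n) (w : Fin n → ℝ)
    (hw : ∀ i, 0 < w i) (hst : Stb L w) (hr : 2 ≤ r) (κ : ℝ) (hκ : 0 < κ) :
    ∃ δ C : ℝ, 0 < δ ∧ 0 < C ∧ ∀ X : ℝ, 1 ≤ X → ∀ Q : Finset (Fin r → ℤ),
      (∀ x ∈ Q, Pt L x ∧ wp L w x ≤ X ∧ ∃ i, X ^ (1 / (∑ i, w i) + κ) < zr (lz L i x) ∨
        (zr (lz L i x) : ℝ) < X ^ (1 / (∑ i, w i) - κ)) →
        (Q.card : ℝ) ≤ C * X ^ (r / (∑ i, w i) - δ) := by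
  classical
  obtain ⟨t, ht⟩ : ∃ t : ℝ, t = 1 / ∑ i, w i := ⟨_, rfl⟩
  have hΩ0 : 0 < ∑ i, w i := Finset.sum_pos (fun i _ => hw i) ⟨i₀, mem_univ _⟩
  have ht0 : 0 < t := by rw [ht]; positivity
  have hr0 : (0 : ℝ) < r := by exact_mod_cast (by omega : 0 < r)
  obtain ⟨κ', hκ'⟩ : ∃ κ' : ℝ, κ' = κ / (2 * (t + 1)) := ⟨_, rfl⟩
  have hκ'0 : 0 < κ' := by rw [hκ']; positivity
  have hκ'1 : κ' * (t + 1) = κ / 2 := by
    rw [hκ']
    field_simp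
  have hκ'2 : κ' ≤ κ / 2 := by
    rw [← hκ'1]
    nlinarith
  obtain ⟨δ, C, hδ, hC, h₁⟩ := asm hL i₀ w hw hst hr κ' hκ'0 1 1 one_pos one_pos 0 (fun _ _ => 0)
    (fun x hx a => ⟨i₀, Nat.zero_le _⟩)
    (fun X x => 2 / κ < Real.logb 2 X ∧ ∃ i, X ^ (1 / (∑ i, w i) + κ) < zr (lz L i x) ∨
        (zr (lz L i x) : ℝ) < X ^ (1 / (∑ i, w i) - κ)) (by
      rintro X hX z P pz ⟨hl, i, hi⟩ hb hP
      exfalso
      obtain ⟨hb1, hb2⟩ := hb i
      rw [← ht] at hb1 hb2 hi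
      obtain ⟨ℓ, hℓ⟩ : ∃ ℓ, ℓ = Real.logb 2 X := ⟨_, rfl⟩
      rw [← hℓ] at hb1 hb2 hl
      have hl1 : 2 < κ * ℓ := by
        rw [div_lt_iff₀ hκ] at hl
        linarith
      have hl0 : 0 < ℓ := by
        have : 0 < 2 / κ := by positivity
        linarith
      have hl2 : κ' * ℓ ≤ κ / 2 * ℓ := mul_le_mul_of_nonneg_right hκ'2 hl0.le
      rcases hi with hi | hi
      · have h1 := hi.trans_le (zr_two _)
        rw [← X_two hX, Real.rpow_lt_rpow_left_iff (by norm_num), ← hℓ] at h1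
        nlinarith
      · have h1 := (two_zr _).trans_lt hi
        rw [← X_two hX, Real.rpow_lt_rpow_left_iff (by norm_num), ← hℓ] at h1
        have h2 : (t - κ' * (t + 1)) * ℓ = t * ℓ - κ / 2 * ℓ := by
          rw [hκ'1]
          ring
        nlinarith)
  obtain ⟨C₂, hC₂, h₂⟩ := up hL i₀ w hw hst hr 1 one_pos
  obtain ⟨X₀, hX₀⟩ : ∃ X₀ : ℝ, X₀ = 2 ^ (2 / κ) := ⟨_, rfl⟩
  have hX₀1 : 1 ≤ X₀ := by rw [hX₀]; exact Real.one_le_rpow (by norm_num) (by positivity)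
  have hrt : 0 < r / ∑ i, w i := div_pos hr0 hΩ0
  refine ⟨min δ (r / ∑ i, w i), C + C₂ * X₀ ^ (r / (∑ i, w i) + 1), lt_min hδ hrt, by positivity, ?_⟩
  intro X hX Q hQ
  have hX0 : 0 < X := by linarith
  by_cases hl : 2 / κ < Real.logb 2 X
  · have h3 := h₁ X hX Q (fun x hx => ⟨(hQ x hx).1, (hQ x hx).2.1, hl, (hQ x hx).2.2⟩)
    refine h3.trans ?_
    apply mul_le_mul _ _ (by positivity) (by positivity)
    · have : 0 ≤ C₂ * X₀ ^ (r / (∑ i, w i) + 1) := by positivity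
      linarith
    · apply Real.rpow_le_rpow_of_exponent_le hX
      have := min_le_left δ (r / ∑ i, w i)
      linarith
  · rw [not_lt, Real.logb_le_iff_le_rpow (by norm_num) hX0, ← hX₀] at hl
    have h3 := h₂ X hX Q (fun x hx => ⟨(hQ x hx).1, (hQ x hx).2.1⟩)
    have h4 : X ^ (r / (∑ i, w i) + 1) ≤ X₀ ^ (r / (∑ i, w i) + 1) :=
      Real.rpow_le_rpow hX0.le hl (by positivity)
    have h5 : 1 ≤ X ^ (r / (∑ i, w i) - min δ (r / ∑ i, w i)) := by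
      apply Real.one_le_rpow hX
      have := min_le_right δ (r / ∑ i, w i)
      linarith
    calc (Q.card : ℝ) ≤ C₂ * X ^ (r / (∑ i, w i) + 1) := h3
      _ ≤ C₂ * X₀ ^ (r / (∑ i, w i) + 1) := mul_le_mul_of_nonneg_left h4 hC₂.le
      _ ≤ (C + C₂ * X₀ ^ (r / (∑ i, w i) + 1)) * 1 := by
          rw [mul_one]
          linarith
      _ ≤ _ := mul_le_mul_of_nonneg_left h5 (by positivity)

/-- the box of a balanced class -/
lemma box {X : ℝ} (hX : 1 ≤ X) {L : Fin n → Fin r → ℤ} {z x : Fin r → ℤ} {a : ℝ} (ha : 0 ≤ a)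
    (hb : ∀ i, (Nat.log 2 (zr (lz L i z)) : ℝ) ≤ a * Real.logb 2 X)
    (he : ∀ i, Nat.log 2 (zr (lz L i x)) = Nat.log 2 (zr (lz L i z))) (i : Fin n) :
    zr (lz L i x) ≤ ⌊2 * X ^ a⌋₊ := by
  apply Nat.le_floor
  refine (zr_two _).trans ?_
  rw [he i, Real.rpow_add (by norm_num), Real.rpow_one, mul_comm, ← X_two hX]
  apply mul_le_mul_of_nonneg_left _ (by norm_num)
  exact Real.rpow_le_rpow_of_exponent_le (by norm_num) (hb i)

lemma gg_le {L : Fin n → Fin r → ℤ} {i j l : Fin n} {a b c : ℤ} (h : Rl L i j l a b c) :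
    ∀ x, Pt L x → ∀ m, ∃ p, gg L i j a b x m ≤
      (a.natAbs + b.natAbs + c.natAbs) + Nat.log 2 (zr (lz L p x)) := by
  intro x hx m
  obtain ⟨N, hN⟩ : ∃ N, N = a.natAbs + b.natAbs + c.natAbs := ⟨_, rfl⟩
  obtain ⟨f1, f2, f3⟩ := red_facts h hx hN.ge
  rw [← hN]
  have hN1 : 1 ≤ N := by
    have := Int.natAbs_pos.2 h.ha
    omega
  have key : ∀ u v : ℕ, 1 ≤ u → 1 ≤ v → u ≤ N * v → Nat.log 2 u ≤ N + Nat.log 2 v := by
    intro u v hu hv huv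
    have h1 : u < 2 ^ (N + Nat.log 2 v + 1) := by
      calc u ≤ N * v := huv
        _ < 2 ^ N * 2 ^ (Nat.log 2 v + 1) := by
            apply Nat.mul_lt_mul_of_lt_of_le Nat.lt_two_pow_self
              (Nat.lt_pow_succ_log_self (by norm_num) v).le (by positivity)
        _ = _ := by rw [← pow_add]; congr 1
    have h2 := Nat.log_lt_of_lt_pow (by omega) h1
    omega
  fin_cases m
  · exact ⟨i, key _ _ (zr_pos _) (zr_pos _) f1⟩
  · exact ⟨j, key _ _ (zr_pos _) (zr_pos _) f2⟩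
  · exact ⟨l, key _ _ (zr_pos _) (zr_pos _) f3⟩

/-- the facts for a balanced class -/
lemma facts {L : Fin n → Fin r → ℤ} {i j l : Fin n} {a b c : ℤ} (h : Rl L i j l a b c)
    {z : Fin r → ℤ} (hz : Pt L z) {R N : ℕ} (hN : a.natAbs + b.natAbs + c.natAbs ≤ N)
    (hzR : ∀ i, zr (lz L i z) ≤ R) (m : Fin 3) : (2 : ℝ) ^ (gg L i j a b z m) ≤ N * R := by
  obtain ⟨f1, f2, f3⟩ := red_facts h hz hN
  have key : ∀ (v : ℤ) (p : Fin n), zr v ≤ N * zr (lz L p z) →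
      (2 : ℝ) ^ (Nat.log 2 (zr v)) ≤ N * R := by
    intro v p hv
    have h1 := two_zr v
    rw [Real.rpow_natCast] at h1
    refine h1.trans ?_
    exact_mod_cast hv.trans (Nat.mul_le_mul_left _ (hzR p))
  fin_cases m
  · exact key _ i f1
  · exact key _ j f2
  · exact key _ l f3

lemma U_dy {L : Fin n → Fin r → ℤ} {i j l : Fin n} {a b c : ℤ} (h : Rl L i j l a b c)
    {x : Fin r → ℤ} (hx : Pt L x) {g : Fin 3 → ℕ} (hg : gg L i j a b x = g) :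
    zr (U (yr L i j a b x)) ≤ 2 ^ (g 0 + g 1 + g 2 + 3) := by
  obtain ⟨f1, f2, -⟩ := yr_facts h hx
  have e : ∀ v : ℤ, zr v ≤ 2 ^ (Nat.log 2 (zr v) + 1) := fun v =>
    (Nat.lt_pow_succ_log_self (by norm_num) _).le
  have e0 : zr (yr L i j a b x).num ≤ 2 ^ (g 0 + 1) := by
    have := e (yr L i j a b x).num
    rwa [show Nat.log 2 (zr (yr L i j a b x).num) = g 0 from congrFun hg 0] at this
  have e1 : zr (yr L i j a b x).den ≤ 2 ^ (g 1 + 1) := by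
    have := e (yr L i j a b x).den
    rwa [show Nat.log 2 (zr (yr L i j a b x).den) = g 1 from congrFun hg 1] at this
  have e2 : zr ((yr L i j a b x).num + (yr L i j a b x).den) ≤ 2 ^ (g 2 + 1) := by
    have := e ((yr L i j a b x).num + (yr L i j a b x).den)
    rwa [show Nat.log 2 (zr ((yr L i j a b x).num + (yr L i j a b x).den)) = g 2 from
      congrFun hg 2] at this
  calc zr (U (yr L i j a b x)) ≤ _ := zU_le' f1 f2
    _ ≤ 2 ^ (g 0 + 1) * 2 ^ (g 1 + 1) * 2 ^ (g 2 + 1) := Nat.mul_le_mul (Nat.mul_le_mul e0 e1) e2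
    _ = _ := by
        rw [← pow_add, ← pow_add]
        congr 1
        ring

/-- **the reduced triples of almost all points satisfy the abc inequality** -/
theorem thin1 {L : Fin n → Fin r → ℤ} (hL : Ar L) (w : Fin n → ℝ)
    (hw : ∀ i, 0 < w i) (hst : Stb L w) (hr : 2 ≤ r) {i j l : Fin n} {a b c : ℤ}
    (hR : Rl L i j l a b c) (hnp : Np L i j) (κ : ℝ) (hκ : 0 < κ) :
    ∃ δ C : ℝ, 0 < δ ∧ 0 < C ∧ ∀ X : ℝ, 1 ≤ X → ∀ Q : Finset (Fin r → ℤ),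
      (∀ x ∈ Q, Pt L x ∧ wp L w x ≤ X ∧
        (zr (U (yr L i j a b x)) : ℝ) ^ (1 / 3 + κ) ≤ Cc (yr L i j a b x)) →
        (Q.card : ℝ) ≤ C * X ^ (r / (∑ i, w i) - δ) := by
  classical
  obtain ⟨t, ht⟩ : ∃ t : ℝ, t = 1 / ∑ i, w i := ⟨_, rfl⟩
  have hΩ0 : 0 < ∑ i, w i := Finset.sum_pos (fun i _ => hw i) ⟨i, mem_univ _⟩
  have ht0 : 0 < t := by rw [ht]; positivity
  have hr0 : (0 : ℝ) < r := by exact_mod_cast (by omega : 0 < r)
  have hr2 : (2 : ℝ) ≤ r := by exact_mod_cast hr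
  obtain ⟨η, hη⟩ : ∃ η : ℝ, η = min κ (2 / 21) / 2 := ⟨_, rfl⟩
  have hη0 : 0 < η := by
    rw [hη]
    have : 0 < min κ (2 / 21) := lt_min hκ (by norm_num)
    linarith
  have hη1 : η ≤ 1 / 21 := by
    rw [hη]
    have := min_le_right κ (2 / 21)
    linarith
  obtain ⟨κ', hκ'⟩ : ∃ κ' : ℝ, κ' = η * t / r := ⟨_, rfl⟩
  have hκ'0 : 0 < κ' := by rw [hκ']; positivity
  have hκ'1 : κ' * r = η * t := by rw [hκ']; field_simp
  obtain ⟨C₃, hC₃, h₃⟩ := ycnt (1 / 3 + κ) η (by positivity) hη0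
  obtain ⟨C₂, hC₂, h₂⟩ := spl hL hr hR hnp η hη0
  obtain ⟨N, hN⟩ : ∃ N : ℕ, N = a.natAbs + b.natAbs + c.natAbs := ⟨_, rfl⟩
  have hN1 : 1 ≤ N := by
    have := Int.natAbs_pos.2 hR.ha
    omega
  have hN0 : (0 : ℝ) < N := by exact_mod_cast hN1
  have hrt : (r : ℝ) / (∑ i, w i) = r * t := by rw [ht]; ring
  obtain ⟨C₀, hC₀⟩ : ∃ C₀ : ℝ, C₀ = C₂ * C₃ * 8 ^ (2 / 3 - η) * (N : ℝ) ^ (1 - 3 * η) *
    2 ^ (r - 2 * η) := ⟨_, rfl⟩
  refine asm hL i w hw hst hr κ' hκ'0 (η * t) C₀ (by positivity) (by rw [hC₀]; positivity) N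
    (gg L i j a b) (by rw [hN]; exact gg_le hR)
    (fun X x => (zr (U (yr L i j a b x)) : ℝ) ^ (1 / 3 + κ) ≤ Cc (yr L i j a b x)) ?_
  intro X hX z P pz hz hb hP
  have hX0 : 0 < X := by linarith
  rw [← ht] at hb
  rw [hrt]
  obtain ⟨R, hRd⟩ : ∃ R : ℕ, R = ⌊2 * X ^ (t + κ')⌋₊ := ⟨_, rfl⟩
  have hXt : 1 ≤ X ^ (t + κ') := Real.one_le_rpow hX (by positivity)
  have hR1 : 1 ≤ R := by
    rw [hRd]
    apply Nat.le_floor
    push_cast
    linarith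
  have hRX : (R : ℝ) ≤ 2 * X ^ (t + κ') := by
    rw [hRd]
    exact Nat.floor_le (by positivity)
  have hR0 : (0 : ℝ) < R := by exact_mod_cast hR1
  have hzR : ∀ p, zr (lz L p z) ≤ R := by
    intro p
    rw [hRd]
    exact box hX (by positivity) (fun i => (hb i).1) (fun _ => rfl) p
  have hxR : ∀ x ∈ P, ∀ p, zr (lz L p x) ≤ R := by
    intro x hx p
    rw [hRd]
    exact box hX (by positivity) (fun i => (hb i).1) (hP x hx).2.2.1 p
  obtain ⟨g, hg⟩ : ∃ g, g = gg L i j a b z := ⟨_, rfl⟩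
  have hxg : ∀ x ∈ P, gg L i j a b x = g := fun x hx => by rw [hg]; exact (hP x hx).2.2.2
  have hmax : max (1 - (1 / 3 + κ)) (4 / 7) + η = 2 / 3 - η := by
    have h3 : max (1 - (1 / 3 + κ)) (4 / 7) = 2 / 3 - min κ (2 / 21) := by
      rcases le_total κ (2 / 21) with h | h
      · rw [min_eq_left h, max_eq_left (by linarith)]
        ring
      · rw [min_eq_right h, max_eq_right (by linarith)]
        norm_num
    rw [h3, hη]
    ring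
  have hY := h₃ (2 ^ (g 0 + g 1 + g 2 + 3)) Nat.one_le_two_pow (P.image (yr L i j a b)) (by
    intro y hy
    rw [mem_image] at hy
    obtain ⟨x, hx, rfl⟩ := hy
    obtain ⟨f1, f2, -⟩ := yr_facts hR (hP x hx).1
    exact ⟨f1, f2, U_dy hR (hP x hx).1 (hxg x hx), (hP x hx).2.1⟩)
  rw [hmax] at hY
  have h5 := h₂ R hR1 g P (fun x hx => ⟨(hP x hx).1, hxR x hx, hxg x hx⟩) C₃ (2 / 3 - η) hC₃.le hY
  have hf := facts hR pz hN.ge hzR
  rw [← hg] at hf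
  have h2S : (2 : ℝ) ^ ((2 / 3 - η - 1 / 3) * ((g 0 + g 1 + g 2 : ℕ) : ℝ)) ≤
      (N : ℝ) ^ (1 - 3 * η) * (R : ℝ) ^ (1 - 3 * η) := by
    rw [mul_comm, Real.rpow_mul (by norm_num), Real.rpow_natCast, ← Real.mul_rpow hN0.le hR0.le]
    have e1 : (2 : ℝ) ^ (g 0 + g 1 + g 2) ≤ (N * R : ℝ) ^ (3 : ℝ) := by
      rw [pow_add, pow_add]
      calc (2 : ℝ) ^ g 0 * 2 ^ g 1 * 2 ^ g 2 ≤ (N * R) * (N * R) * (N * R) :=
            mul_le_mul (mul_le_mul (hf 0) (hf 1) (by positivity) (by positivity)) (hf 2)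
              (by positivity) (by positivity)
        _ = _ := by
            rw [show (3 : ℝ) = ((3 : ℕ) : ℝ) by norm_num, Real.rpow_natCast]
            ring
    calc ((2 : ℝ) ^ (g 0 + g 1 + g 2)) ^ (2 / 3 - η - 1 / 3) ≤
          ((N * R : ℝ) ^ (3 : ℝ)) ^ (2 / 3 - η - 1 / 3) :=
          Real.rpow_le_rpow (by positivity) e1 (by linarith)
      _ = _ := by
          rw [← Real.rpow_mul (by positivity)]
          congr 1
          ring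
  have hRr : (R : ℝ) ^ (r - 1) = (R : ℝ) ^ ((r : ℝ) - 1) := by
    rw [← Real.rpow_natCast, Nat.cast_sub (by omega), Nat.cast_one]
  calc (P.card : ℝ) ≤ C₂ * C₃ * 8 ^ (2 / 3 - η) * (R : ℝ) ^ η *
        (2 : ℝ) ^ ((2 / 3 - η - 1 / 3) * ((g 0 + g 1 + g 2 : ℕ) : ℝ)) * (R : ℝ) ^ (r - 1) := h5
    _ ≤ C₂ * C₃ * 8 ^ (2 / 3 - η) * (R : ℝ) ^ η *
        ((N : ℝ) ^ (1 - 3 * η) * (R : ℝ) ^ (1 - 3 * η)) * (R : ℝ) ^ (r - 1) := by
        apply mul_le_mul_of_nonneg_right _ (by positivity)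
        exact mul_le_mul_of_nonneg_left h2S (by positivity)
    _ = C₂ * C₃ * 8 ^ (2 / 3 - η) * (N : ℝ) ^ (1 - 3 * η) *
        ((R : ℝ) ^ η * (R : ℝ) ^ (1 - 3 * η) * (R : ℝ) ^ ((r : ℝ) - 1)) := by
        rw [hRr]
        ring
    _ = C₂ * C₃ * 8 ^ (2 / 3 - η) * (N : ℝ) ^ (1 - 3 * η) * (R : ℝ) ^ (r - 2 * η) := by
        rw [← Real.rpow_add hR0, ← Real.rpow_add hR0]
        congr 2
        ring
    _ ≤ C₂ * C₃ * 8 ^ (2 / 3 - η) * (N : ℝ) ^ (1 - 3 * η) * (2 * X ^ (t + κ')) ^ (r - 2 * η) := by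
        apply mul_le_mul_of_nonneg_left _ (by positivity)
        exact Real.rpow_le_rpow hR0.le hRX (by linarith)
    _ = C₀ * X ^ ((t + κ') * (r - 2 * η)) := by
        rw [Real.mul_rpow (by norm_num) (by positivity), ← Real.rpow_mul hX0.le, hC₀]
        ring
    _ ≤ C₀ * X ^ (r * t - η * t) := by
        apply mul_le_mul_of_nonneg_left _ (by rw [hC₀]; positivity)
        apply Real.rpow_le_rpow_of_exponent_le hX
        have : 0 ≤ κ' * η := by positivity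
        nlinarith

/-- **the radicals of the reduced triples of almost all points** -/
theorem thin2 {L : Fin n → Fin r → ℤ} (hL : Ar L) (w : Fin n → ℝ)
    (hw : ∀ i, 0 < w i) (hst : Stb L w) (hr : 2 ≤ r) {i j l : Fin n} {a b c : ℤ}
    (hR : Rl L i j l a b c) (hnp : Np L i j) (κ : ℝ) (hκ : 0 < κ) :
    ∃ δ C : ℝ, 0 < δ ∧ 0 < C ∧ ∀ X : ℝ, 1 ≤ X → ∀ Q : Finset (Fin r → ℤ),
      (∀ x ∈ Q, Pt L x ∧ wp L w x ≤ X ∧
        ∃ m, (2 : ℝ) ^ (gg L i j a b x m) < X ^ (1 / (∑ i, w i) - κ)) →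
        (Q.card : ℝ) ≤ C * X ^ (r / (∑ i, w i) - δ) := by
  classical
  obtain ⟨t, ht⟩ : ∃ t : ℝ, t = 1 / ∑ i, w i := ⟨_, rfl⟩
  have hΩ0 : 0 < ∑ i, w i := Finset.sum_pos (fun i _ => hw i) ⟨i, mem_univ _⟩
  have ht0 : 0 < t := by rw [ht]; positivity
  have hr0 : (0 : ℝ) < r := by exact_mod_cast (by omega : 0 < r)
  have hr2 : (2 : ℝ) ≤ r := by exact_mod_cast hr
  obtain ⟨ε, hε⟩ : ∃ ε : ℝ, ε = min 1 (κ / (48 * t)) := ⟨_, rfl⟩
  have hε0 : 0 < ε := by rw [hε]; exact lt_min one_pos (by positivity)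
  have hε1 : ε ≤ 1 := by rw [hε]; exact min_le_left _ _
  have hε2 : 4 * ε * t ≤ κ / 12 := by
    have h1 : ε ≤ κ / (48 * t) := by rw [hε]; exact min_le_right _ _
    rw [le_div_iff₀ (by positivity)] at h1
    linarith
  obtain ⟨κ', hκ'⟩ : ∃ κ' : ℝ, κ' = κ / (12 * (r + 3)) := ⟨_, rfl⟩
  have hκ'0 : 0 < κ' := by rw [hκ']; positivity
  have hκ'1 : κ' * (r + 3) = κ / 12 := by rw [hκ']; field_simp
  obtain ⟨C₃, hC₃, h₃⟩ := ycnt0 ε hε0
  obtain ⟨C₂, hC₂, h₂⟩ := spl hL hr hR hnp ε hε0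
  obtain ⟨N, hN⟩ : ∃ N : ℕ, N = a.natAbs + b.natAbs + c.natAbs := ⟨_, rfl⟩
  have hN1 : 1 ≤ N := by
    have := Int.natAbs_pos.2 hR.ha
    omega
  have hN0 : (0 : ℝ) < N := by exact_mod_cast hN1
  have hrt : (r : ℝ) / (∑ i, w i) = r * t := by rw [ht]; ring
  obtain ⟨C₀, hC₀⟩ : ∃ C₀ : ℝ, C₀ = C₂ * C₃ * 8 ^ (2 / 3 + ε) * (N : ℝ) ^ (2 * (1 / 3 + ε)) *
    2 ^ (r - 1 / 3 + 3 * ε) := ⟨_, rfl⟩
  refine asm hL i w hw hst hr κ' hκ'0 (κ / 6) C₀ (by positivity) (by rw [hC₀]; positivity) N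
    (gg L i j a b) (by rw [hN]; exact gg_le hR)
    (fun X x => ∃ m, (2 : ℝ) ^ (gg L i j a b x m) < X ^ (1 / (∑ i, w i) - κ)) ?_
  rintro X hX z P pz ⟨m, hm⟩ hb hP
  have hX0 : 0 < X := by linarith
  rw [← ht] at hb hm
  rw [hrt]
  obtain ⟨R, hRd⟩ : ∃ R : ℕ, R = ⌊2 * X ^ (t + κ')⌋₊ := ⟨_, rfl⟩
  have hXt : 1 ≤ X ^ (t + κ') := Real.one_le_rpow hX (by positivity)
  have hR1 : 1 ≤ R := by
    rw [hRd]
    apply Nat.le_floor
    push_cast
    linarith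
  have hRX : (R : ℝ) ≤ 2 * X ^ (t + κ') := by
    rw [hRd]
    exact Nat.floor_le (by positivity)
  have hR0 : (0 : ℝ) < R := by exact_mod_cast hR1
  have hzR : ∀ p, zr (lz L p z) ≤ R := by
    intro p
    rw [hRd]
    exact box hX (by positivity) (fun i => (hb i).1) (fun _ => rfl) p
  have hxR : ∀ x ∈ P, ∀ p, zr (lz L p x) ≤ R := by
    intro x hx p
    rw [hRd]
    exact box hX (by positivity) (fun i => (hb i).1) (hP x hx).2.2.1 p
  obtain ⟨g, hg⟩ : ∃ g, g = gg L i j a b z := ⟨_, rfl⟩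
  have hxg : ∀ x ∈ P, gg L i j a b x = g := fun x hx => by rw [hg]; exact (hP x hx).2.2.2
  have hY := h₃ (2 ^ (g 0 + g 1 + g 2 + 3)) Nat.one_le_two_pow (P.image (yr L i j a b)) (by
    intro y hy
    rw [mem_image] at hy
    obtain ⟨x, hx, rfl⟩ := hy
    obtain ⟨f1, f2, -⟩ := yr_facts hR (hP x hx).1
    exact ⟨f1, f2, U_dy hR (hP x hx).1 (hxg x hx)⟩)
  have h5 := h₂ R hR1 g P (fun x hx => ⟨(hP x hx).1, hxR x hx, hxg x hx⟩) C₃ (2 / 3 + ε) hC₃.le hY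
  have hf := facts hR pz hN.ge hzR
  rw [← hg] at hf hm
  have h2S : (2 : ℝ) ^ ((2 / 3 + ε - 1 / 3) * ((g 0 + g 1 + g 2 : ℕ) : ℝ)) ≤
      (N : ℝ) ^ (2 * (1 / 3 + ε)) * (R : ℝ) ^ (2 * (1 / 3 + ε)) * X ^ ((t - κ) * (1 / 3 + ε)) := by
    rw [mul_comm, Real.rpow_mul (by norm_num), Real.rpow_natCast, ← Real.mul_rpow hN0.le hR0.le]
    have e1 : (2 : ℝ) ^ (g 0 + g 1 + g 2) ≤ (N * R : ℝ) ^ (2 : ℝ) * X ^ (t - κ) := by
      rw [pow_add, pow_add]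
      have e2 : (N * R : ℝ) ^ (2 : ℝ) = (N * R) * (N * R) := by
        rw [show (2 : ℝ) = ((2 : ℕ) : ℝ) by norm_num, Real.rpow_natCast]
        ring
      rw [e2]
      have hf0 := hf 0
      have hf1 := hf 1
      have hf2 := hf 2
      have hNR : (0 : ℝ) ≤ N * R := by positivity
      have hXk : (0 : ℝ) ≤ X ^ (t - κ) := by positivity
      fin_cases m
      · calc (2 : ℝ) ^ g 0 * 2 ^ g 1 * 2 ^ g 2 ≤ X ^ (t - κ) * (N * R) * (N * R) :=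
              mul_le_mul (mul_le_mul hm.le hf1 (by positivity) hXk) hf2
                (by positivity) (by positivity)
          _ = _ := by ring
      · calc (2 : ℝ) ^ g 0 * 2 ^ g 1 * 2 ^ g 2 ≤ (N * R) * X ^ (t - κ) * (N * R) :=
              mul_le_mul (mul_le_mul hf0 hm.le (by positivity) hNR) hf2
                (by positivity) (by positivity)
          _ = _ := by ring
      · calc (2 : ℝ) ^ g 0 * 2 ^ g 1 * 2 ^ g 2 ≤ (N * R) * (N * R) * X ^ (t - κ) :=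
              mul_le_mul (mul_le_mul hf0 hf1 (by positivity) hNR) hm.le
                (by positivity) (by positivity)
          _ = _ := by ring
    calc ((2 : ℝ) ^ (g 0 + g 1 + g 2)) ^ (2 / 3 + ε - 1 / 3) ≤
          ((N * R : ℝ) ^ (2 : ℝ) * X ^ (t - κ)) ^ (2 / 3 + ε - 1 / 3) :=
          Real.rpow_le_rpow (by positivity) e1 (by linarith)
      _ = _ := by
          rw [Real.mul_rpow (by positivity) (by positivity), ← Real.rpow_mul (by positivity),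
            ← Real.rpow_mul hX0.le]
          congr 2 <;> ring
  have hRr : (R : ℝ) ^ (r - 1) = (R : ℝ) ^ ((r : ℝ) - 1) := by
    rw [← Real.rpow_natCast, Nat.cast_sub (by omega), Nat.cast_one]
  calc (P.card : ℝ) ≤ C₂ * C₃ * 8 ^ (2 / 3 + ε) * (R : ℝ) ^ ε *
        (2 : ℝ) ^ ((2 / 3 + ε - 1 / 3) * ((g 0 + g 1 + g 2 : ℕ) : ℝ)) * (R : ℝ) ^ (r - 1) := h5
    _ ≤ C₂ * C₃ * 8 ^ (2 / 3 + ε) * (R : ℝ) ^ ε *
        ((N : ℝ) ^ (2 * (1 / 3 + ε)) * (R : ℝ) ^ (2 * (1 / 3 + ε)) * X ^ ((t - κ) * (1 / 3 + ε))) *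
          (R : ℝ) ^ (r - 1) := by
        apply mul_le_mul_of_nonneg_right _ (by positivity)
        exact mul_le_mul_of_nonneg_left h2S (by positivity)
    _ = C₂ * C₃ * 8 ^ (2 / 3 + ε) * (N : ℝ) ^ (2 * (1 / 3 + ε)) *
        ((R : ℝ) ^ ε * (R : ℝ) ^ (2 * (1 / 3 + ε)) * (R : ℝ) ^ ((r : ℝ) - 1)) *
          X ^ ((t - κ) * (1 / 3 + ε)) := by
        rw [hRr]
        ring
    _ = C₂ * C₃ * 8 ^ (2 / 3 + ε) * (N : ℝ) ^ (2 * (1 / 3 + ε)) * (R : ℝ) ^ (r - 1 / 3 + 3 * ε) *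
          X ^ ((t - κ) * (1 / 3 + ε)) := by
        rw [← Real.rpow_add hR0, ← Real.rpow_add hR0]
        congr 3
        ring
    _ ≤ C₂ * C₃ * 8 ^ (2 / 3 + ε) * (N : ℝ) ^ (2 * (1 / 3 + ε)) *
          (2 * X ^ (t + κ')) ^ (r - 1 / 3 + 3 * ε) * X ^ ((t - κ) * (1 / 3 + ε)) := by
        apply mul_le_mul_of_nonneg_right _ (by positivity)
        apply mul_le_mul_of_nonneg_left _ (by positivity)
        exact Real.rpow_le_rpow hR0.le hRX (by linarith)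
    _ = C₀ * (X ^ ((t + κ') * (r - 1 / 3 + 3 * ε)) * X ^ ((t - κ) * (1 / 3 + ε))) := by
        rw [Real.mul_rpow (by norm_num) (by positivity), ← Real.rpow_mul hX0.le, hC₀]
        ring
    _ ≤ C₀ * X ^ (r * t - κ / 6) := by
        rw [← Real.rpow_add hX0]
        apply mul_le_mul_of_nonneg_left _ (by rw [hC₀]; positivity)
        apply Real.rpow_le_rpow_of_exponent_le hX
        have e1 : κ' * (3 * ε) ≤ κ' * 3 := mul_le_mul_of_nonneg_left (by linarith) hκ'0.le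
        have e2 : 0 ≤ κ * ε := by positivity
        have e3 : (t + κ') * (r - 1 / 3 + 3 * ε) + (t - κ) * (1 / 3 + ε) =
          r * t + 4 * ε * t + κ' * r - κ' / 3 + κ' * (3 * ε) - κ / 3 - κ * ε := by ring
        rw [e3]
        have e4 : κ' * (r + 3) = κ' * r + κ' * 3 := by ring
        linarith

end Pool.Agent.H583.SB
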