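import Pool.Agent.H583.SB.D

/-!
Weighted arrangements: the number of points, the converse, all the relations together.
-/

set_option autoImplicit false

namespace Pool.Agent.H583.SB

open Finset Pool.Agent.T2H20.ABC Pool.Agent.T2H20.AH Pool.Agent.H785R2.ABC Pool.Agent.H583.SF
  Pool.Agent.H583.WT Pool.Agent.H583.AL Pool.Agent.H583.AR Pool.Agent.H583.GD Pool.Agent.H583.PD
  Pool.Agent.H583.ST Pool.Agent.H583.SA

variable {n r : ℕ}

/-- **many points** -/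
theorem low {L : Fin n → Fin r → ℤ} (hne : ∀ i, ∃ k, L i k ≠ 0) (i₀ : Fin n) (w : Fin n → ℝ)
    (hw : ∀ i, 0 < w i) (hr : 2 ≤ r) : ∃ c X₀ : ℝ, 0 < c ∧ 1 ≤ X₀ ∧ ∀ X : ℝ, X₀ ≤ X →
      ∃ S : Finset (Fin r → ℤ), c * X ^ (r / (∑ i, w i)) ≤ (S.card : ℝ) ∧
        ∀ x ∈ S, Pt L x ∧ wp L w x ≤ X := by
  classical
  obtain ⟨c, R, Y₀, hc, hR, h⟩ := many hr hne ⊤
  obtain ⟨Ω, hΩ⟩ : ∃ Ω : ℝ, Ω = ∑ i, w i := ⟨_, rfl⟩
  have hΩ0 : 0 < Ω := by
    rw [hΩ]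
    exact Finset.sum_pos (fun i _ => hw i) ⟨i₀, mem_univ _⟩
  rw [← hΩ]
  have hR0 : 0 < R := by linarith
  have hrt : 0 ≤ (r : ℝ) / Ω := by positivity
  refine ⟨c * (1 / (2 * R)) ^ r, (R * (Y₀ + 1)) ^ Ω, by positivity, ?_, ?_⟩
  · apply Real.one_le_rpow _ hΩ0.le
    have : (0 : ℝ) ≤ Y₀ := Nat.cast_nonneg _
    nlinarith
  intro X hX
  have hY0 : (0 : ℝ) ≤ Y₀ := Nat.cast_nonneg _
  have hb : 0 < R * (Y₀ + 1) := by positivity
  have hX1 : 0 < X := lt_of_lt_of_le (Real.rpow_pos_of_pos hb _) hX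
  obtain ⟨T, hT⟩ : ∃ T : ℝ, T = X ^ (1 / Ω) / R := ⟨_, rfl⟩
  have hT1 : (Y₀ : ℝ) + 1 ≤ T := by
    rw [hT, le_div_iff₀ hR0]
    have h1 := Real.rpow_le_rpow (by positivity) hX (by positivity : 0 ≤ 1 / Ω)
    rw [← Real.rpow_mul hb.le, mul_one_div_cancel hΩ0.ne', Real.rpow_one] at h1
    linarith
  obtain ⟨Y, hY⟩ : ∃ Y : ℕ, Y = ⌊T⌋₊ := ⟨_, rfl⟩
  have hYT : (Y : ℝ) ≤ T := by rw [hY]; exact Nat.floor_le (by linarith)
  have hYY : Y₀ ≤ Y := by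
    rw [hY]
    apply Nat.le_floor
    linarith
  have hY1 : 1 ≤ Y := by
    rw [hY]
    apply Nat.le_floor
    push_cast
    linarith
  have hYT2 : T / 2 ≤ Y := by
    have h1 := Nat.lt_floor_add_one T
    rw [← hY] at h1
    have h2 : (1 : ℝ) ≤ Y := by exact_mod_cast hY1
    linarith
  obtain ⟨S, hS1, hS2⟩ := h Y hYY hY1
  refine ⟨S, ?_, ?_⟩
  · refine le_trans ?_ hS1
    rw [finrank_top, Module.finrank_fin_fun, mul_assoc]
    apply mul_le_mul_of_nonneg_left _ hc.le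
    have h1 : X ^ ((r : ℝ) / Ω) = (X ^ (1 / Ω)) ^ r := by
      rw [← Real.rpow_natCast, ← Real.rpow_mul hX1.le]
      congr 1
      ring
    rw [h1, ← mul_pow]
    apply pow_le_pow_left₀ (by positivity)
    calc 1 / (2 * R) * X ^ (1 / Ω) = T / 2 := by
          rw [hT]
          field_simp
      _ ≤ Y := hYT2
  · intro x hx
    obtain ⟨⟨h1, -⟩, h2⟩ := hS2 x hx
    refine ⟨h1, ?_⟩
    have h3 : R * Y ≤ X ^ (1 / Ω) := by
      have h4 := mul_le_mul_of_nonneg_left hYT hR0.le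
      rw [hT, mul_div_cancel₀ _ hR0.ne'] at h4
      exact h4
    have hRY : 0 ≤ R * Y := by positivity
    calc wp L w x ≤ ∏ i, (R * Y) ^ w i := by
          apply Finset.prod_le_prod (fun _ _ => Real.rpow_nonneg (Nat.cast_nonneg _) _)
          intro i _
          exact Real.rpow_le_rpow (Nat.cast_nonneg _) (h2 i).1 (hw i).le
      _ = (R * Y) ^ Ω := by
          have hRY' : 0 < R * Y := by
            have : (1 : ℝ) ≤ Y := by exact_mod_cast hY1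
            nlinarith
          rw [hΩ, Real.rpow_sum_of_pos hRY']
      _ ≤ (X ^ (1 / Ω)) ^ Ω := Real.rpow_le_rpow hRY h3 hΩ0.le
      _ = X := by
          rw [← Real.rpow_mul hX1.le, one_div_mul_cancel hΩ0.ne', Real.rpow_one]

/-- **finiteness** -/
theorem fnt {L : Fin n → Fin r → ℤ} (hL : Ar L) (i₀ : Fin n) (w : Fin n → ℝ)
    (hw : ∀ i, 0 < w i) : ∃ σ C : ℝ, ∀ X : ℝ, 1 ≤ X → ∀ Q : Finset (Fin r → ℤ),
      (∀ x ∈ Q, Pt L x ∧ wp L w x ≤ X) → (Q.card : ℝ) ≤ C * X ^ σ := by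
  classical
  obtain ⟨p₀, -, hp₀⟩ := Finset.exists_min_image univ w ⟨i₀, mem_univ _⟩
  obtain ⟨σ, hσ⟩ : ∃ σ : ℝ, σ = (r + 1) / w p₀ := ⟨_, rfl⟩
  have hσ0 : 0 < σ := by
    rw [hσ]
    have := hw p₀
    positivity
  obtain ⟨C, hC⟩ := conv hL i₀ (fun i => σ * w i) (fun i => (mul_pos hσ0 (hw i)).le) 0 le_rfl
    (fun i => by rw [zero_add]; exact mul_pos hσ0 (hw i)) (by
      intro W hW
      obtain ⟨v, hv1, hv2⟩ := (Submodule.ne_bot_iff _).1 hW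
      have h1 : (crs L W).Nonempty := by
        by_contra h
        rw [Finset.not_nonempty_iff_eq_empty] at h
        apply hv2
        apply hL.ess
        intro i
        by_contra h2
        have h3 : i ∈ crs L W := mem_crs.2 ⟨v, hv1, h2⟩
        rw [h] at h3
        exact absurd h3 (Finset.notMem_empty i)
      obtain ⟨i, hi⟩ := h1
      have h2 : σ * w i ≤ ∑ i ∈ crs L W, σ * w i :=
        Finset.single_le_sum (f := fun i => σ * w i) (fun i _ => (mul_pos hσ0 (hw i)).le) hi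
      have h3 : (r : ℝ) + 1 ≤ σ * w i := by
        calc (r : ℝ) + 1 = σ * w p₀ := by rw [hσ, div_mul_cancel₀ _ (hw p₀).ne']
          _ ≤ σ * w i := mul_le_mul_of_nonneg_left (hp₀ i (mem_univ i)) hσ0.le
      have h4 : (Module.finrank ℚ W : ℝ) ≤ r := by
        have := Submodule.finrank_le W
        rw [Module.finrank_fin_fun] at this
        exact_mod_cast this
      linarith)
  refine ⟨σ, C, ?_⟩
  intro X hX Q hQ
  have hX0 : 0 < X := by linarith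
  have h1 := hC Q fun x hx => (hQ x hx).1
  have h2 : (Q.card : ℝ) * X ^ (-σ) ≤ ∑ x ∈ Q, SA.term L (fun i => σ * w i) 0 x := by
    rw [← nsmul_eq_mul]
    apply Finset.card_nsmul_le_sum
    intro x hx
    unfold SA.term
    rw [neg_zero, Real.rpow_zero, one_mul]
    have h3 : ∏ i, (zr (lz L i x) : ℝ) ^ (-(σ * w i)) = (wp L w x) ^ (-σ) := by
      unfold wp
      rw [← Real.finsetProd_rpow _ _ (fun i _ => by positivity)]
      apply Finset.prod_congr rfl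
      intro i _
      rw [← Real.rpow_mul (Nat.cast_nonneg _)]
      congr 1
      ring
    rw [h3]
    apply Real.rpow_le_rpow_of_nonpos _ (hQ x hx).2 (by linarith)
    unfold wp
    apply Finset.prod_pos
    intro i _
    have : (0 : ℝ) < zr (lz L i x) := by exact_mod_cast zr_pos _
    positivity
  have h3 : (Q.card : ℝ) * X ^ (-σ) ≤ C := h2.trans h1
  calc (Q.card : ℝ) = (Q.card : ℝ) * X ^ (-σ) * X ^ σ := by
        rw [mul_assoc, ← Real.rpow_add hX0, neg_add_cancel, Real.rpow_zero, mul_one]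
    _ ≤ C * X ^ σ := mul_le_mul_of_nonneg_right h3 (by positivity)

/-- **the converse** -/
theorem cnv {L : Fin n → Fin r → ℤ} (hL : Ar L) (i₀ : Fin n) (w : Fin n → ℝ)
    (hw : ∀ i, 0 < w i) (hr : 2 ≤ r)
    (H : ∃ δ C X₀ : ℝ, 0 < δ ∧ ∀ X : ℝ, X₀ ≤ X → ∀ Q : Finset (Fin r → ℤ),
      (∀ x ∈ Q, Pt L x ∧ wp L w x ≤ X ∧ ∃ i, (zr (lz L i x) : ℝ) < X ^ (1 / (∑ i, w i) / 2)) →
        (Q.card : ℝ) ≤ C * X ^ (r / (∑ i, w i) - δ)) : Stb L w := by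
  classical
  obtain ⟨δ, C, X₀, hδ, hH⟩ := H
  obtain ⟨Ω, hΩ⟩ : ∃ Ω : ℝ, Ω = ∑ i, w i := ⟨_, rfl⟩
  have hΩ0 : 0 < Ω := by
    rw [hΩ]
    exact Finset.sum_pos (fun i _ => hw i) ⟨i₀, mem_univ _⟩
  intro W hW hW'
  by_contra hcon
  rw [not_lt] at hcon
  rw [← hΩ] at hH hcon
  obtain ⟨c, R, Y₀, hc, hR, h⟩ := many hr hL.ne W
  have hR0 : 0 < R := by linarith
  obtain ⟨β, hβ⟩ : ∃ β : ℝ, β = ∑ i ∈ crs L W, w i := ⟨_, rfl⟩
  rw [← hβ] at hcon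
  -- a form which vanishes on `W`
  obtain ⟨i₁, hi₁⟩ : ∃ i, i ∉ crs L W := by
    by_contra hall
    push Not at hall
    have h1 : crs L W = univ := by
      ext i
      exact ⟨fun _ => mem_univ i, fun _ => hall i⟩
    rw [h1, ← hΩ] at hβ
    rw [hβ] at hcon
    have h2 : (r : ℝ) ≤ Module.finrank ℚ W := le_of_mul_le_mul_right hcon hΩ0
    have h3 : r ≤ Module.finrank ℚ W := by exact_mod_cast h2
    apply hW'
    apply Submodule.eq_top_of_finrank_eq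
    rw [Module.finrank_fin_fun]
    have h4 := Submodule.finrank_le W
    rw [Module.finrank_fin_fun] at h4
    omega
  have hβ0 : 0 < β := by
    obtain ⟨v, hv1, hv2⟩ := (Submodule.ne_bot_iff _).1 hW
    rw [hβ]
    apply Finset.sum_pos (fun i _ => hw i)
    by_contra h
    rw [Finset.not_nonempty_iff_eq_empty] at h
    apply hv2
    apply hL.ess
    intro i
    by_contra h2
    have h3 : i ∈ crs L W := mem_crs.2 ⟨v, hv1, h2⟩
    rw [h] at h3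
    exact absurd h3 (Finset.notMem_empty i)
  -- a large parameter
  have ht : Filter.Tendsto (fun Y : ℕ => (Y : ℝ) ^ (β * δ)) Filter.atTop Filter.atTop :=
    (tendsto_rpow_atTop (by positivity)).comp tendsto_natCast_atTop_atTop
  have ht2 : Filter.Tendsto (fun Y : ℕ => (Y : ℝ) ^ (β * (1 / Ω / 2))) Filter.atTop Filter.atTop :=
    (tendsto_rpow_atTop (by positivity)).comp tendsto_natCast_atTop_atTop
  have ht3 : Filter.Tendsto (fun Y : ℕ => (Y : ℝ) ^ β) Filter.atTop Filter.atTop :=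
    (tendsto_rpow_atTop (by positivity)).comp tendsto_natCast_atTop_atTop
  obtain ⟨C', hC'⟩ : ∃ C' : ℝ, C' = |C| * (R ^ Ω) ^ (r / Ω - δ) := ⟨_, rfl⟩
  obtain ⟨Y, hY1, hY2, hY3, hY4, hY5⟩ := ((ht.eventually_gt_atTop (C' / c)).and
    ((ht2.eventually_gt_atTop R).and ((ht3.eventually_ge_atTop X₀).and
    ((Filter.eventually_ge_atTop Y₀).and (Filter.eventually_ge_atTop 1))))).exists
  obtain ⟨S, hS1, hS2⟩ := h Y hY4 hY5
  have hYr : (1 : ℝ) ≤ Y := by exact_mod_cast hY5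
  have hYr0 : (0 : ℝ) < Y := by linarith
  obtain ⟨X, hX⟩ : ∃ X : ℝ, X = R ^ Ω * (Y : ℝ) ^ β := ⟨_, rfl⟩
  have hRΩ : 1 ≤ R ^ Ω := Real.one_le_rpow hR hΩ0.le
  have hYβ : (Y : ℝ) ^ β ≤ X := by
    rw [hX]
    exact le_mul_of_one_le_left (by positivity) hRΩ
  have h1 := hH X (hY3.trans hYβ) S (by
    intro x hx
    obtain ⟨⟨k1, -⟩, k2⟩ := hS2 x hx
    refine ⟨k1, ?_, i₁, ?_⟩
    · calc wp L w x ≤ ∏ i, R ^ w i * (if i ∈ crs L W then (Y : ℝ) ^ w i else 1) := by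
            apply Finset.prod_le_prod (fun _ _ => Real.rpow_nonneg (Nat.cast_nonneg _) _)
            intro i _
            split_ifs with hi
            · rw [← Real.mul_rpow hR0.le hYr0.le]
              exact Real.rpow_le_rpow (Nat.cast_nonneg _) (k2 i).1 (hw i).le
            · rw [mul_one]
              exact Real.rpow_le_rpow (Nat.cast_nonneg _) ((k2 i).2 hi) (hw i).le
        _ = X := by
            rw [Finset.prod_mul_distrib, Finset.prod_ite_mem, Finset.univ_inter, hX, hΩ, hβ,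
              Real.rpow_sum_of_pos hR0, Real.rpow_sum_of_pos hYr0]
    · refine ((k2 i₁).2 hi₁).trans_lt (hY2.trans_le ?_)
      rw [Real.rpow_mul hYr0.le]
      exact Real.rpow_le_rpow (by positivity) hYβ (by positivity))
  have h2 : c * (Y : ℝ) ^ (Module.finrank ℚ W) ≤ C' * (Y : ℝ) ^ (β * (r / Ω - δ)) := by
    refine hS1.trans (h1.trans ?_)
    rw [hX, Real.mul_rpow (by positivity) (by positivity), ← Real.rpow_mul hYr0.le, hC', ← mul_assoc]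
    apply mul_le_mul_of_nonneg_right _ (by positivity)
    exact mul_le_mul_of_nonneg_right (le_abs_self C) (by positivity)
  have h3 : (Y : ℝ) ^ (β * (r / Ω)) ≤ (Y : ℝ) ^ (Module.finrank ℚ W) := by
    rw [← Real.rpow_natCast]
    apply Real.rpow_le_rpow_of_exponent_le hYr
    rw [mul_div_assoc', div_le_iff₀ hΩ0]
    linarith
  have h4 : (Y : ℝ) ^ (β * (r / Ω)) = (Y : ℝ) ^ (β * δ) * (Y : ℝ) ^ (β * (r / Ω - δ)) := by
    rw [← Real.rpow_add hYr0]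
    congr 1
    ring
  have h5 : c * (Y : ℝ) ^ (β * δ) * (Y : ℝ) ^ (β * (r / Ω - δ)) ≤
      C' * (Y : ℝ) ^ (β * (r / Ω - δ)) := by
    rw [mul_assoc, ← h4]
    exact (mul_le_mul_of_nonneg_left h3 hc.le).trans h2
  have h6 := le_of_mul_le_mul_right h5 (by positivity)
  rw [div_lt_iff₀ hc] at hY1
  linarith

/-- small `X` do not matter -/
lemma ext_small {L : Fin n → Fin r → ℤ} (hL : Ar L) (i₀ : Fin n) (w : Fin n → ℝ)
    (hw : ∀ i, 0 < w i) (hst : Stb L w) (hr : 2 ≤ r) (p : ℝ → (Fin r → ℤ) → Prop) (X₀ : ℝ)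
    (H : ∃ δ C : ℝ, 0 < δ ∧ 0 < C ∧ ∀ X : ℝ, 1 ≤ X → X₀ < X → ∀ Q : Finset (Fin r → ℤ),
      (∀ x ∈ Q, Pt L x ∧ wp L w x ≤ X ∧ p X x) → (Q.card : ℝ) ≤ C * X ^ (r / (∑ i, w i) - δ)) :
    ∃ δ C : ℝ, 0 < δ ∧ 0 < C ∧ ∀ X : ℝ, 1 ≤ X → ∀ Q : Finset (Fin r → ℤ),
      (∀ x ∈ Q, Pt L x ∧ wp L w x ≤ X ∧ p X x) → (Q.card : ℝ) ≤ C * X ^ (r / (∑ i, w i) - δ) := by
  obtain ⟨δ, C, hδ, hC, h₁⟩ := H
  have hΩ0 : 0 < ∑ i, w i := Finset.sum_pos (fun i _ => hw i) ⟨i₀, mem_univ _⟩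
  have hr0 : (0 : ℝ) < r := by exact_mod_cast (by omega : 0 < r)
  obtain ⟨C₂, hC₂, h₂⟩ := up hL i₀ w hw hst hr 1 one_pos
  obtain ⟨X₁, hX₁⟩ : ∃ X₁ : ℝ, X₁ = max X₀ 1 := ⟨_, rfl⟩
  have hX₁1 : 1 ≤ X₁ := by rw [hX₁]; exact le_max_right _ _
  have hrt : 0 < r / ∑ i, w i := div_pos hr0 hΩ0
  refine ⟨min δ (r / ∑ i, w i), C + C₂ * X₁ ^ (r / (∑ i, w i) + 1), lt_min hδ hrt, by positivity, ?_⟩
  intro X hX Q hQ
  have hX0 : 0 < X := by linarith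
  by_cases hl : X₀ < X
  · have h3 := h₁ X hX hl Q hQ
    refine h3.trans ?_
    apply mul_le_mul _ _ (by positivity) (by positivity)
    · have : 0 ≤ C₂ * X₁ ^ (r / (∑ i, w i) + 1) := by positivity
      linarith
    · apply Real.rpow_le_rpow_of_exponent_le hX
      have := min_le_left δ (r / ∑ i, w i)
      linarith
  · have hl' : X ≤ X₁ := by
      rw [hX₁]
      exact (not_lt.1 hl).trans (le_max_left _ _)
    have h3 := h₂ X hX Q (fun x hx => ⟨(hQ x hx).1, (hQ x hx).2.1⟩)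
    have h4 : X ^ (r / (∑ i, w i) + 1) ≤ X₁ ^ (r / (∑ i, w i) + 1) :=
      Real.rpow_le_rpow hX0.le hl' (by positivity)
    have h5 : 1 ≤ X ^ (r / (∑ i, w i) - min δ (r / ∑ i, w i)) := by
      apply Real.one_le_rpow hX
      have := min_le_right δ (r / ∑ i, w i)
      linarith
    calc (Q.card : ℝ) ≤ C₂ * X ^ (r / (∑ i, w i) + 1) := h3
      _ ≤ C₂ * X₁ ^ (r / (∑ i, w i) + 1) := mul_le_mul_of_nonneg_left h4 hC₂.le
      _ ≤ (C + C₂ * X₁ ^ (r / (∑ i, w i) + 1)) * 1 := by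
          rw [mul_one]
          linarith
      _ ≤ _ := mul_le_mul_of_nonneg_left h5 (by positivity)

/-- the properties of almost all points -/
def Good (L : Fin n → Fin r → ℤ) (t : ℝ) (N : ℕ) (κ X : ℝ) (x : Fin r → ℤ) : Prop :=
  (∀ i, X ^ (t - κ) ≤ zr (lz L i x) ∧ (zr (lz L i x) : ℝ) ≤ X ^ (t + κ)) ∧
  ∀ i j l, i ≠ j → Cl L i j l → ∃ a b c : ℤ, Rl L i j l a b c ∧ a.natAbs + b.natAbs + c.natAbs ≤ N ∧
    (Cc (yr L i j a b x) : ℝ) < (zr (U (yr L i j a b x)) : ℝ) ^ (1 / 3 + κ) ∧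
    ∀ m, X ^ (t - κ) ≤ (2 : ℝ) ^ (gg L i j a b x m)

/-- **all the relations together** -/
theorem pick {L : Fin n → Fin r → ℤ} (hL : Ar L) (i₀ : Fin n) (w : Fin n → ℝ)
    (hw : ∀ i, 0 < w i) (hst : Stb L w) (hr : 2 ≤ r) (hnp : ∀ i j, i ≠ j → Np L i j) : ∃ N : ℕ,
    ∀ κ : ℝ, 0 < κ → ∃ δ C : ℝ, 0 < δ ∧ 0 < C ∧ ∀ X : ℝ, 1 ≤ X → ∀ Q : Finset (Fin r → ℤ),
      (∀ x ∈ Q, Pt L x ∧ wp L w x ≤ X ∧ ¬ Good L (1 / ∑ i, w i) N κ X x) →
        (Q.card : ℝ) ≤ C * X ^ (r / (∑ i, w i) - δ) := by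
  classical
  have hco : ∀ τ : Fin n × Fin n × Fin n, ∃ a b c : ℤ, Cl L τ.1 τ.2.1 τ.2.2 →
      Rl L τ.1 τ.2.1 τ.2.2 a b c := by
    intro τ
    by_cases h : Cl L τ.1 τ.2.1 τ.2.2
    · obtain ⟨a, b, c, ha, hb, hc, hrel⟩ := h
      exact ⟨a, b, c, fun _ => ⟨ha, hb, hc, hrel⟩⟩
    · exact ⟨0, 0, 0, fun h' => absurd h' h⟩
  choose a b c hco using hco
  refine ⟨∑ τ, ((a τ).natAbs + (b τ).natAbs + (c τ).natAbs), ?_⟩
  intro κ hκ
  obtain ⟨δ₀, C₀, hδ₀, hC₀, h₀⟩ := thin0 hL i₀ w hw hst hr κ hκ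
  have hτ : ∀ τ : Fin n × Fin n × Fin n, ∃ δ C : ℝ, 0 < δ ∧ 0 < C ∧
      (τ.1 ≠ τ.2.1 → Cl L τ.1 τ.2.1 τ.2.2 → ∀ X : ℝ, 1 ≤ X → ∀ Q : Finset (Fin r → ℤ),
      (∀ x ∈ Q, Pt L x ∧ wp L w x ≤ X ∧
        ((zr (U (yr L τ.1 τ.2.1 (a τ) (b τ) x)) : ℝ) ^ (1 / 3 + κ) ≤
          Cc (yr L τ.1 τ.2.1 (a τ) (b τ) x) ∨
        ∃ m, (2 : ℝ) ^ (gg L τ.1 τ.2.1 (a τ) (b τ) x m) < X ^ (1 / (∑ i, w i) - κ))) →
        (Q.card : ℝ) ≤ C * X ^ (r / (∑ i, w i) - δ)) := by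
    intro τ
    by_cases h : τ.1 ≠ τ.2.1 ∧ Cl L τ.1 τ.2.1 τ.2.2
    · have hR := hco τ h.2
      obtain ⟨δ₁, C₁, hδ₁, hC₁, h₁⟩ := thin1 hL w hw hst hr hR (hnp _ _ h.1) κ hκ
      obtain ⟨δ₂, C₂, hδ₂, hC₂, h₂⟩ := thin2 hL w hw hst hr hR (hnp _ _ h.1) κ hκ
      refine ⟨min δ₁ δ₂, C₁ + C₂, lt_min hδ₁ hδ₂, by positivity, fun _ _ X hX Q hQ => ?_⟩
      obtain ⟨P, hP⟩ : ∃ P : (Fin r → ℤ) → Prop, P = fun x =>
        (zr (U (yr L τ.1 τ.2.1 (a τ) (b τ) x)) : ℝ) ^ (1 / 3 + κ) ≤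
          Cc (yr L τ.1 τ.2.1 (a τ) (b τ) x) := ⟨_, rfl⟩
      have e1 := h₁ X hX (Q.filter P) (by
        intro x hx
        rw [mem_filter, hP] at hx
        exact ⟨(hQ x hx.1).1, (hQ x hx.1).2.1, hx.2⟩)
      have e2 := h₂ X hX (Q.filter fun x => ¬ P x) (by
        intro x hx
        rw [mem_filter, hP] at hx
        exact ⟨(hQ x hx.1).1, (hQ x hx.1).2.1, (hQ x hx.1).2.2.resolve_left hx.2⟩)
      have e3 : (Q.card : ℝ) = (Q.filter P).card + (Q.filter fun x => ¬ P x).card := by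
        exact_mod_cast (Finset.card_filter_add_card_filter_not P).symm
      have e4 : X ^ (r / (∑ i, w i) - δ₁) ≤ X ^ (r / (∑ i, w i) - min δ₁ δ₂) := by
        apply Real.rpow_le_rpow_of_exponent_le hX
        linarith [min_le_left δ₁ δ₂]
      have e5 : X ^ (r / (∑ i, w i) - δ₂) ≤ X ^ (r / (∑ i, w i) - min δ₁ δ₂) := by
        apply Real.rpow_le_rpow_of_exponent_le hX
        linarith [min_le_right δ₁ δ₂]
      have e6 := mul_le_mul_of_nonneg_left e4 hC₁.le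
      have e7 := mul_le_mul_of_nonneg_left e5 hC₂.le
      rw [e3, add_mul]
      linarith
    · refine ⟨1, 1, one_pos, one_pos, fun h1 h2 => absurd ⟨h1, h2⟩ h⟩
  choose δ C hδ hC hτ using hτ
  obtain ⟨τ₀, -, hτ₀⟩ := Finset.exists_min_image univ δ ⟨(i₀, i₀, i₀), mem_univ _⟩
  refine ⟨min δ₀ (δ τ₀), C₀ + ∑ τ, C τ, lt_min hδ₀ (hδ τ₀), ?_, ?_⟩
  · have : 0 ≤ ∑ τ, C τ := Finset.sum_nonneg fun τ _ => (hC τ).le
    linarith
  intro X hX Q hQ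
  obtain ⟨P₀, hP₀⟩ : ∃ P₀ : (Fin r → ℤ) → Prop, P₀ = fun x => ∃ i,
    X ^ (1 / (∑ i, w i) + κ) < zr (lz L i x) ∨
        (zr (lz L i x) : ℝ) < X ^ (1 / (∑ i, w i) - κ) := ⟨_, rfl⟩
  obtain ⟨P, hP⟩ : ∃ P : Fin n × Fin n × Fin n → (Fin r → ℤ) → Prop, P = fun τ x =>
    (τ.1 ≠ τ.2.1 ∧ Cl L τ.1 τ.2.1 τ.2.2) ∧
      ((zr (U (yr L τ.1 τ.2.1 (a τ) (b τ) x)) : ℝ) ^ (1 / 3 + κ) ≤
          Cc (yr L τ.1 τ.2.1 (a τ) (b τ) x) ∨
        ∃ m, (2 : ℝ) ^ (gg L τ.1 τ.2.1 (a τ) (b τ) x m) < X ^ (1 / (∑ i, w i) - κ)) := ⟨_, rfl⟩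
  have hcov : Q ⊆ Q.filter P₀ ∪ univ.biUnion fun τ => Q.filter (P τ) := by
    intro x hx
    obtain ⟨-, -, hx3⟩ := hQ x hx
    by_contra hcon
    rw [mem_union, mem_filter, mem_biUnion, not_or] at hcon
    obtain ⟨g1, g2⟩ := hcon
    apply hx3
    refine ⟨?_, ?_⟩
    · intro i
      have h1 : ¬ P₀ x := fun h => g1 ⟨hx, h⟩
      rw [hP₀] at h1
      push Not at h1
      exact ⟨(h1 i).2, (h1 i).1⟩
    · intro i j l hij hcl
      have h1 : ¬ P (i, j, l) x := fun h => g2 ⟨(i, j, l), mem_univ _, mem_filter.2 ⟨hx, h⟩⟩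
      rw [hP] at h1
      have h2 : ¬ ((zr (U (yr L i j (a (i, j, l)) (b (i, j, l)) x)) : ℝ) ^ (1 / 3 + κ) ≤
          Cc (yr L i j (a (i, j, l)) (b (i, j, l)) x) ∨
        ∃ m, (2 : ℝ) ^ (gg L i j (a (i, j, l)) (b (i, j, l)) x m) < X ^ (1 / (∑ i, w i) - κ)) :=
        fun h => h1 ⟨⟨hij, hcl⟩, h⟩
      push Not at h2
      refine ⟨a (i, j, l), b (i, j, l), c (i, j, l), hco (i, j, l) hcl, ?_, h2.1, h2.2⟩
      exact Finset.single_le_sum (f := fun τ => (a τ).natAbs + (b τ).natAbs + (c τ).natAbs)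
        (fun _ _ => Nat.zero_le _) (mem_univ (i, j, l))
  have e1 := h₀ X hX (Q.filter P₀) (by
    intro x hx
    rw [mem_filter, hP₀] at hx
    exact ⟨(hQ x hx.1).1, (hQ x hx.1).2.1, hx.2⟩)
  have e2 : ∀ τ, ((Q.filter (P τ)).card : ℝ) ≤ C τ * X ^ (r / (∑ i, w i) - min δ₀ (δ τ₀)) := by
    intro τ
    by_cases h : τ.1 ≠ τ.2.1 ∧ Cl L τ.1 τ.2.1 τ.2.2
    · have e3 := hτ τ h.1 h.2 X hX (Q.filter (P τ)) (by
        intro x hx
        rw [mem_filter, hP] at hx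
        exact ⟨(hQ x hx.1).1, (hQ x hx.1).2.1, hx.2.2⟩)
      refine e3.trans ?_
      apply mul_le_mul_of_nonneg_left _ (hC τ).le
      apply Real.rpow_le_rpow_of_exponent_le hX
      have h4 := hτ₀ τ (mem_univ τ)
      linarith [min_le_right δ₀ (δ τ₀)]
    · have h3 : Q.filter (P τ) = ∅ := by
        rw [Finset.filter_eq_empty_iff]
        intro x _ hx
        rw [hP] at hx
        exact h hx.1
      rw [h3, card_empty, Nat.cast_zero]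
      exact mul_nonneg (hC τ).le (Real.rpow_nonneg (by linarith) _)
  have e4 : X ^ (r / (∑ i, w i) - δ₀) ≤ X ^ (r / (∑ i, w i) - min δ₀ (δ τ₀)) := by
    apply Real.rpow_le_rpow_of_exponent_le hX
    linarith [min_le_left δ₀ (δ τ₀)]
  have e5 : (Q.card : ℝ) ≤ (Q.filter P₀).card + ∑ τ, ((Q.filter (P τ)).card : ℝ) := by
    have := (card_le_card hcov).trans ((card_union_le _ _).trans
      (Nat.add_le_add_left card_biUnion_le _))
    exact_mod_cast this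
  have e6 : ∑ τ, ((Q.filter (P τ)).card : ℝ) ≤
      (∑ τ, C τ) * X ^ (r / (∑ i, w i) - min δ₀ (δ τ₀)) := by
    rw [Finset.sum_mul]
    exact Finset.sum_le_sum fun τ _ => e2 τ
  have e7 := mul_le_mul_of_nonneg_left e4 hC₀.le
  rw [add_mul]
  linarith

end Pool.Agent.H583.SB
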