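import Pool.Agent.H583.SB.E

/-!
Stable weighted arrangements: the height of a typical point.
-/

set_option autoImplicit false

namespace Pool.Agent.H583.SB

open Finset Pool.Agent.T2H20.ABC Pool.Agent.T2H20.AH Pool.Agent.H785R2.ABC Pool.Agent.H583.SF
  Pool.Agent.H583.WT Pool.Agent.H583.AL Pool.Agent.H583.AR Pool.Agent.H583.GD Pool.Agent.H583.PD
  Pool.Agent.H583.ST Pool.Agent.H583.SA

variable {n r : ℕ}

lemma rad_exc {m M : ℕ} (hM : M ≠ 0) (h : m ∣ M) : m * rad M ≤ rad m * M := by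
  obtain ⟨k, rfl⟩ := h
  have hm : m ≠ 0 := left_ne_zero_of_mul hM
  have hk : k ≠ 0 := right_ne_zero_of_mul hM
  calc m * rad (m * k) ≤ m * (rad m * k) :=
        Nat.mul_le_mul_left _ ((SF.rad_mul_le hm hk).trans
          (Nat.mul_le_mul_left _ (SF.rad_le_self hk)))
    _ = _ := by ring

lemma gcd_rad {ρ u v a b : ℕ} (hρ : 0 < ρ) (hc : Nat.Coprime u v) (h1 : ρ ∣ a) (h1' : u ∣ a)
    (h2 : ρ ∣ b) (h2' : v ∣ b) (ha : 0 < a) (hb : 0 < b) : ρ * (u * v) ≤ a * b := by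
  have e1 : ρ * u ≤ Nat.gcd ρ u * a := by
    rw [← Nat.gcd_mul_lcm ρ u]
    exact Nat.mul_le_mul_left _ (Nat.le_of_dvd ha (Nat.lcm_dvd h1 h1'))
  have e2 : ρ * v ≤ Nat.gcd ρ v * b := by
    rw [← Nat.gcd_mul_lcm ρ v]
    exact Nat.mul_le_mul_left _ (Nat.le_of_dvd hb (Nat.lcm_dvd h2 h2'))
  have e3 : Nat.gcd ρ u * Nat.gcd ρ v ≤ ρ := by
    apply Nat.le_of_dvd hρ
    apply Nat.Coprime.mul_dvd_of_dvd_of_dvd _ (Nat.gcd_dvd_left _ _) (Nat.gcd_dvd_left _ _)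
    exact (hc.coprime_dvd_left (Nat.gcd_dvd_right _ _)).coprime_dvd_right (Nat.gcd_dvd_right _ _)
  have e4 : ρ * (ρ * (u * v)) ≤ ρ * (a * b) := by
    calc ρ * (ρ * (u * v)) = (ρ * u) * (ρ * v) := by ring
      _ ≤ (Nat.gcd ρ u * a) * (Nat.gcd ρ v * b) := Nat.mul_le_mul e1 e2
      _ = (Nat.gcd ρ u * Nat.gcd ρ v) * (a * b) := by ring
      _ ≤ ρ * (a * b) := Nat.mul_le_mul_right _ e3
  exact Nat.le_of_mul_le_mul_left e4 hρ

lemma stepN {h Pk Pl α β ν δ : ℕ} (hh : 0 < h) (hPl : 0 < Pl)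
    (e : α * Pk * δ = β * Pl * ν) : ∃ f, f ∣ h ∧ f ∣ β * ν ∧ Nat.gcd h Pk ≤ f * Nat.gcd h Pl := by
  obtain ⟨G, hG⟩ : ∃ G, G = Nat.gcd h Pk := ⟨_, rfl⟩
  have hG0 : 0 < G := by rw [hG]; exact Nat.gcd_pos_of_pos_left _ hh
  have hGh : G ∣ h := by rw [hG]; exact Nat.gcd_dvd_left _ _
  have hGP : G ∣ Pk := by rw [hG]; exact Nat.gcd_dvd_right _ _
  obtain ⟨g, hg⟩ : ∃ g, g = Nat.gcd G Pl := ⟨_, rfl⟩
  have hg0 : 0 < g := by rw [hg]; exact Nat.gcd_pos_of_pos_left _ hG0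
  obtain ⟨f, hf⟩ : g ∣ G := by rw [hg]; exact Nat.gcd_dvd_left _ _
  obtain ⟨q, hq⟩ : g ∣ Pl := by rw [hg]; exact Nat.gcd_dvd_right _ _
  have hfq : Nat.Coprime f q := by
    have h1 : Nat.gcd G Pl = g * Nat.gcd f q := by
      rw [hf, hq, Nat.gcd_mul_left]
    rw [← hg] at h1
    have h2 : g * Nat.gcd f q = g * 1 := by rw [← h1, mul_one]
    exact Nat.eq_of_mul_eq_mul_left hg0 h2
  refine ⟨f, ?_, ?_, ?_⟩
  · exact (Dvd.intro_left g hf.symm).trans hGh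
  · have h1 : g * f ∣ g * (q * (β * ν)) := by
      rw [← hf]
      have h2 : G ∣ α * Pk * δ := (hGP.mul_left α).mul_right δ
      rw [e, hq] at h2
      rw [show g * (q * (β * ν)) = β * (g * q) * ν by ring]
      exact h2
    exact hfq.dvd_of_dvd_mul_left (Nat.dvd_of_mul_dvd_mul_left hg0 h1)
  · rw [← hG, hf, mul_comm]
    apply Nat.mul_le_mul_left
    apply Nat.le_of_dvd (Nat.gcd_pos_of_pos_left _ hh)
    apply Nat.dvd_gcd
    · rw [hf] at hGh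
      exact (dvd_mul_right g f).trans hGh
    · rw [hq]
      exact dvd_mul_right g q

/-- the coordinates in terms of the forms -/
lemma inv {L : Fin n → Fin r → ℤ} (hess : ∀ x : Fin r → ℚ, (∀ i, lq L i x = 0) → x = 0) :
    ∃ (Δ : ℤ) (e : Fin r → Fin n → ℤ), Δ ≠ 0 ∧ ∀ (x : Fin r → ℤ) (c : Fin r),
      Δ * x c = ∑ k, e c k * lz L k x := by
  classical
  obtain ⟨f, hf⟩ : ∃ f : (Fin r → ℚ) →ₗ[ℚ] (Fin n → ℚ), f = LinearMap.pi (lq L) := ⟨_, rfl⟩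
  have hker : LinearMap.ker f = ⊥ := by
    rw [Submodule.eq_bot_iff]
    intro x hx
    rw [LinearMap.mem_ker, hf] at hx
    exact hess x fun i => congrFun hx i
  obtain ⟨g, hg⟩ := f.exists_leftInverse_of_injective hker
  obtain ⟨q, hq⟩ : ∃ q : Fin r → Fin n → ℚ, q = fun c k => g (fun j => if k = j then 1 else 0) c :=
    ⟨_, rfl⟩
  obtain ⟨D, hD⟩ : ∃ D : ℕ, D = ∏ p : Fin r × Fin n, (q p.1 p.2).den := ⟨_, rfl⟩
  have hD0 : D ≠ 0 := by
    rw [hD]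
    exact Finset.prod_ne_zero_iff.2 fun p _ => (q p.1 p.2).den_nz
  have hdiv : ∀ c k, ∃ z : ℤ, (D : ℚ) * q c k = z := by
    intro c k
    obtain ⟨m, hm⟩ : (q c k).den ∣ D := by
      rw [hD]
      exact Finset.dvd_prod_of_mem (fun p : Fin r × Fin n => (q p.1 p.2).den) (mem_univ (c, k))
    refine ⟨m * (q c k).num, ?_⟩
    rw [hm]
    push_cast
    have h1 : ((q c k).den : ℚ) * q c k = (q c k).num := by
      rw [mul_comm]
      exact Rat.mul_den_eq_num (q c k)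
    calc ((q c k).den : ℚ) * m * q c k = m * (((q c k).den : ℚ) * q c k) := by ring
      _ = _ := by rw [h1]
  choose e he using hdiv
  refine ⟨D, e, by exact_mod_cast hD0, ?_⟩
  intro x c
  have h1 : g (f fun k => (x k : ℚ)) = fun k => (x k : ℚ) := by
    have := LinearMap.congr_fun hg (fun k => (x k : ℚ))
    exact this
  have h2 : (x c : ℚ) = ∑ k, (lz L k x : ℚ) * q c k := by
    have h3 := congrFun h1 c
    rw [LinearMap.pi_apply_eq_sum_univ g] at h3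
    rw [Finset.sum_apply] at h3
    rw [← h3]
    apply Finset.sum_congr rfl
    intro k _
    rw [Pi.smul_apply, smul_eq_mul, hq, hf]
    congr 1
    change lq L k _ = _
    rw [lq_apply]
    unfold lz
    push_cast
    rfl
  have h3 : (D : ℚ) * x c = ∑ k, (e c k : ℚ) * (lz L k x : ℚ) := by
    rw [h2, Finset.mul_sum]
    apply Finset.sum_congr rfl
    intro k _
    rw [← he c k]
    ring
  exact_mod_cast h3

/-- every form is related to another one -/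
lemma adj_exists {L : Fin n → Fin r → ℤ} (hL : Ar L) (hr : 2 ≤ r) (i : Fin n) :
    ∃ j l, i ≠ j ∧ Cl L i j l := by
  by_contra hcon
  push Not at hcon
  have h1 := hL.linked (fun k => k = i) (by
    intro k j l hcl
    constructor
    · rintro rfl
      by_contra hj
      exact hcon j l (fun h => hj h.symm) hcl
    · rintro rfl
      by_contra hk
      obtain ⟨a, b, c, ha, hb, hc, hrel⟩ := hcl
      exact hcon k l (fun h => hk h.symm) ⟨b, a, c, hb, ha, hc, fun k => by rw [← hrel k]; ring⟩)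
  have h2 : ∀ j, j = i := fun j => (h1 i j).1 rfl
  have h3 := LinearMap.finrank_range_add_finrank_ker (lq L i)
  have h4 : Module.finrank ℚ (LinearMap.range (lq L i)) ≤ 1 := by
    refine (Submodule.finrank_le _).trans ?_
    rw [Module.finrank_self]
  rw [Module.finrank_fin_fun] at h3
  have h5 : 0 < Module.finrank ℚ (LinearMap.ker (lq L i)) := by omega
  rw [Module.finrank_pos_iff] at h5
  obtain ⟨⟨x, hx⟩, hx0⟩ := exists_ne (0 : LinearMap.ker (lq L i))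
  apply hx0
  apply Subtype.ext
  apply hL.ess
  intro j
  rw [h2 j]
  exact LinearMap.mem_ker.1 hx

/-- the data of a relation at a good point -/
lemma adj {L : Fin n → Fin r → ℤ} {N : ℕ} {t κ X : ℝ} (ht : 0 < t) (hκ : 0 < κ) (hκ1 : κ ≤ 1)
    (hX : 1 ≤ X) {x : Fin r → ℤ} (hx : Pt L x) (hg : Good L t N κ X x) {i j l : Fin n} (hij : i ≠ j)
    (hcl : Cl L i j l) : ∃ α β ν δ : ℕ, 0 < β ∧ 0 < ν ∧ (β : ℝ) ≤ (N : ℝ) + 1 ∧
      α * (lz L i x).natAbs * δ = β * (lz L j x).natAbs * ν ∧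
      (ν : ℝ) ≤ ((N : ℝ) + 1) ^ 4 * X ^ (t + κ * (4 + 3 * t)) ∧ X ^ (t - κ) ≤ rad ν ∧
      (rad (Nat.gcd (lz L i x).natAbs (lz L j x).natAbs) : ℝ) ≤ ((N : ℝ) + 1) ^ 2 * X ^ (4 * κ) := by
  have hX0 : 0 < X := by linarith
  obtain ⟨hgr, hgt⟩ := hg
  obtain ⟨a, b, c, hR, hN, hC, hm⟩ := hgt i j l hij hcl
  obtain ⟨f1, f2, d, d1, d2, d3, d4⟩ := yr_facts hR hx
  obtain ⟨g1, g2, g3⟩ := red_facts hR hx hN
  obtain ⟨y, hy⟩ : ∃ y, y = yr L i j a b x := ⟨_, rfl⟩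
  rw [← hy] at f1 f2 d2 d3 d4 g1 g2 g3 hC
  have hNr : (0 : ℝ) ≤ N := Nat.cast_nonneg _
  have hz : ∀ (p : Fin n) (v : ℕ), v ≤ N * zr (lz L p x) → (v : ℝ) ≤ ((N : ℝ) + 1) * X ^ (t + κ) := by
    intro p v hv
    calc (v : ℝ) ≤ ((N * zr (lz L p x) : ℕ) : ℝ) := by exact_mod_cast hv
      _ = (N : ℝ) * zr (lz L p x) := by push_cast; ring
      _ ≤ ((N : ℝ) + 1) * X ^ (t + κ) :=
          mul_le_mul (by linarith) (hgr p).2 (Nat.cast_nonneg _) (by positivity)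
  have hm0 : X ^ (t - κ) ≤ zr y.num := by
    have h1 := hm 0
    have h2 := two_zr y.num
    rw [Real.rpow_natCast] at h2
    have h3 : gg L i j a b x 0 = Nat.log 2 (zr y.num) := by rw [hy]; rfl
    rw [h3] at h1
    exact h1.trans h2
  have hm1 : X ^ (t - κ) ≤ zr (y.den : ℤ) := by
    have h1 := hm 1
    have h2 := two_zr (y.den : ℤ)
    rw [Real.rpow_natCast] at h2
    have h3 : gg L i j a b x 1 = Nat.log 2 (zr (y.den : ℤ)) := by rw [hy]; rfl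
    rw [h3] at h1
    exact h1.trans h2
  refine ⟨a.natAbs, b.natAbs, y.num.natAbs, (y.den : ℤ).natAbs, Int.natAbs_pos.2 hR.hb,
    Int.natAbs_pos.2 (Rat.num_ne_zero.2 f1), ?_, ?_, ?_, hm0, ?_⟩
  · have : b.natAbs ≤ N + 1 := by omega
    exact_mod_cast this
  · rw [← Int.natAbs_mul, ← Int.natAbs_mul, ← Int.natAbs_mul, ← Int.natAbs_mul]
    congr 1
    rw [d2, d3]
    ring
  · have h1 : (y.num.natAbs : ℝ) ≤ Cc y := by
      have : y.num.natAbs ≤ Cc y := by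
        unfold Cc
        exact (le_max_left _ _).trans (le_max_left _ _)
      exact_mod_cast this
    have h2 : (zr (U y) : ℝ) ≤ (((N : ℝ) + 1) * X ^ (t + κ)) ^ (3 : ℝ) := by
      have e1 : (zr (U y) : ℝ) ≤ zr y.num * zr y.den * zr (y.num + y.den) := by
        exact_mod_cast zU_le' f1 f2
      rw [show (3 : ℝ) = ((3 : ℕ) : ℝ) by norm_num, Real.rpow_natCast]
      calc (zr (U y) : ℝ) ≤ _ := e1
        _ ≤ (((N : ℝ) + 1) * X ^ (t + κ)) * (((N : ℝ) + 1) * X ^ (t + κ)) *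
            (((N : ℝ) + 1) * X ^ (t + κ)) :=
            mul_le_mul (mul_le_mul (hz i _ g1) (hz j _ g2) (Nat.cast_nonneg _) (by positivity))
              (hz l _ g3) (Nat.cast_nonneg _) (by positivity)
        _ = _ := by ring
    have h3 : (zr (U y) : ℝ) ^ (1 / 3 + κ) ≤ ((((N : ℝ) + 1) * X ^ (t + κ)) ^ (3 : ℝ)) ^ (1 / 3 + κ) :=
      Real.rpow_le_rpow (Nat.cast_nonneg _) h2 (by positivity)
    rw [← Real.rpow_mul (by positivity), Real.mul_rpow (by positivity) (by positivity),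
      ← Real.rpow_mul hX0.le] at h3
    have h4 : ((N : ℝ) + 1) ^ (3 * (1 / 3 + κ)) ≤ ((N : ℝ) + 1) ^ 4 := by
      rw [← Real.rpow_natCast]
      apply Real.rpow_le_rpow_of_exponent_le (by linarith)
      push_cast
      linarith
    have h5 : X ^ ((t + κ) * (3 * (1 / 3 + κ))) ≤ X ^ (t + κ * (4 + 3 * t)) := by
      apply Real.rpow_le_rpow_of_exponent_le hX
      nlinarith
    exact h1.trans (hC.le.trans (h3.trans (mul_le_mul h4 h5 (by positivity) (by positivity))))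
  · obtain ⟨ρ, hρ⟩ : ∃ ρ, ρ = rad (Nat.gcd (lz L i x).natAbs (lz L j x).natAbs) := ⟨_, rfl⟩
    rw [← hρ]
    have hA : a * lz L i x ≠ 0 := mul_ne_zero hR.ha (hx.ne i)
    have hB : b * lz L j x ≠ 0 := mul_ne_zero hR.hb (hx.ne j)
    have hcop : Nat.Coprime (zr y.num) (zr (y.den : ℤ)) := by
      have h1 : Nat.Coprime y.num.natAbs y.den := y.reduced
      have h2 : zr y.num ∣ y.num.natAbs := SF.rad_dvd_self _
      have h3 : zr (y.den : ℤ) ∣ y.den := SF.rad_dvd_self _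
      exact (h1.coprime_dvd_left h2).coprime_dvd_right h3
    have e1 : ρ ∣ zr (a * lz L i x) := by
      rw [hρ]
      apply SF.rad_dvd_of_dvd (Int.natAbs_ne_zero.2 hA)
      rw [Int.natAbs_mul]
      exact (Nat.gcd_dvd_left _ _).mul_left _
    have e2 : ρ ∣ zr (b * lz L j x) := by
      rw [hρ]
      apply SF.rad_dvd_of_dvd (Int.natAbs_ne_zero.2 hB)
      rw [Int.natAbs_mul]
      exact (Nat.gcd_dvd_right _ _).mul_left _
    have e3 : zr y.num ∣ zr (a * lz L i x) := zr_dvd_of_dvd hA ⟨d, by rw [d2]; ring⟩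
    have e4 : zr (y.den : ℤ) ∣ zr (b * lz L j x) := zr_dvd_of_dvd hB ⟨d, by rw [d3]; ring⟩
    have e5 := gcd_rad (by rw [hρ]; exact SF.rad_pos _) hcop e1 e3 e2 e4 (zr_pos _) (zr_pos _)
    have hco : ∀ (f : ℤ) (p : Fin n), f ≠ 0 → f.natAbs ≤ N → zr (f * lz L p x) ≤ N * zr (lz L p x) := by
      intro f p hf hfN
      exact (zr_mul_le hf (hx.ne p)).trans
        (Nat.mul_le_mul_right _ ((SF.rad_le_self (Int.natAbs_ne_zero.2 hf)).trans hfN))
    have e6 := hz i _ (hco a i hR.ha (by omega))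
    have e7 := hz j _ (hco b j hR.hb (by omega))
    have e8 : (ρ : ℝ) * (X ^ (t - κ) * X ^ (t - κ)) ≤
        (((N : ℝ) + 1) * X ^ (t + κ)) * (((N : ℝ) + 1) * X ^ (t + κ)) := by
      calc (ρ : ℝ) * (X ^ (t - κ) * X ^ (t - κ)) ≤ ρ * ((zr y.num : ℝ) * zr (y.den : ℤ)) := by
            apply mul_le_mul_of_nonneg_left _ (Nat.cast_nonneg _)
            exact mul_le_mul hm0 hm1 (by positivity) (Nat.cast_nonneg _)
        _ ≤ (zr (a * lz L i x) : ℝ) * zr (b * lz L j x) := by exact_mod_cast e5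
        _ ≤ _ := mul_le_mul e6 e7 (Nat.cast_nonneg _) (by positivity)
    have e9 : X ^ (t + κ) = X ^ (t - κ) * X ^ (2 * κ) := by
      rw [← Real.rpow_add hX0]
      congr 1
      ring
    have e10 : X ^ (4 * κ) = X ^ (2 * κ) * X ^ (2 * κ) := by
      rw [← Real.rpow_add hX0]
      congr 1
      ring
    rw [e9] at e8
    rw [e10]
    have hp : 0 < X ^ (t - κ) * X ^ (t - κ) := by positivity
    refine le_of_mul_le_mul_right (e8.trans (le_of_eq ?_)) hp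
    ring

/-- a divisor of a value with a small radical -/
lemma small_f {N : ℕ} {t κ X : ℝ} (hX : 1 ≤ X) {f β ν : ℕ} (hβ : 0 < β) (hν : 0 < ν)
    (hβN : (β : ℝ) ≤ (N : ℝ) + 1) (hνH : (ν : ℝ) ≤ ((N : ℝ) + 1) ^ 4 * X ^ (t + κ * (4 + 3 * t)))
    (hr : X ^ (t - κ) ≤ rad ν) (hf : f ∣ β * ν)
    (hfr : (rad f : ℝ) ≤ ((N : ℝ) + 1) ^ 2 * X ^ (4 * κ)) :
    (f : ℝ) ≤ ((N : ℝ) + 1) ^ 7 * X ^ (κ * (9 + 3 * t)) := by
  have hX0 : 0 < X := by linarith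
  have hβν : β * ν ≠ 0 := (Nat.mul_pos hβ hν).ne'
  have h1 := rad_exc hβν hf
  have h2 : rad ν ≤ rad (β * ν) := SF.rad_le_of_dvd hβν (dvd_mul_left _ _)
  have h3 : f * rad ν ≤ rad f * (β * ν) := (Nat.mul_le_mul_left _ h2).trans h1
  have h4 : (f : ℝ) * X ^ (t - κ) ≤ (((N : ℝ) + 1) ^ 2 * X ^ (4 * κ)) * (((N : ℝ) + 1) *
      (((N : ℝ) + 1) ^ 4 * X ^ (t + κ * (4 + 3 * t)))) := by
    calc (f : ℝ) * X ^ (t - κ) ≤ f * rad ν := mul_le_mul_of_nonneg_left hr (Nat.cast_nonneg _)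
      _ ≤ (rad f : ℝ) * (β * ν) := by exact_mod_cast h3
      _ ≤ _ := mul_le_mul hfr (mul_le_mul hβN hνH (Nat.cast_nonneg _) (by positivity))
          (by positivity) (by positivity)
  have h5 : X ^ (4 * κ) * X ^ (t + κ * (4 + 3 * t)) = X ^ (κ * (9 + 3 * t)) * X ^ (t - κ) := by
    rw [← Real.rpow_add hX0, ← Real.rpow_add hX0]
    congr 1
    ring
  refine le_of_mul_le_mul_right (h4.trans (le_of_eq ?_)) (by positivity : 0 < X ^ (t - κ))
  calc (((N : ℝ) + 1) ^ 2 * X ^ (4 * κ)) * (((N : ℝ) + 1) *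
      (((N : ℝ) + 1) ^ 4 * X ^ (t + κ * (4 + 3 * t)))) =
      ((N : ℝ) + 1) ^ 7 * (X ^ (4 * κ) * X ^ (t + κ * (4 + 3 * t))) := by ring
    _ = _ := by rw [h5]; ring

/-- **the common divisors are small** -/
theorem spread {L : Fin n → Fin r → ℤ} (hL : Ar L) (N : ℕ) {t : ℝ} (ht : 0 < t) (i₀ : Fin n) :
    ∀ k, ∃ m : ℕ, ∀ (κ X : ℝ) (x : Fin r → ℤ), 0 < κ → κ ≤ 1 → 1 ≤ X → Pt L x → Good L t N κ X x →
      ∀ h : ℕ, 0 < h → h ∣ (lz L i₀ x).natAbs →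
      (rad h : ℝ) ≤ ((N : ℝ) + 1) ^ 2 * X ^ (4 * κ) →
      (h : ℝ) ≤ (Nat.gcd h (lz L k x).natAbs : ℝ) *
        (((N : ℝ) + 1) ^ 7 * X ^ (κ * (9 + 3 * t))) ^ m := by
  obtain ⟨A, hA⟩ : ∃ A : Fin n → Prop, A = fun k => ∃ m : ℕ, ∀ (κ X : ℝ) (x : Fin r → ℤ), 0 < κ →
      κ ≤ 1 → 1 ≤ X → Pt L x → Good L t N κ X x →
      ∀ h : ℕ, 0 < h → h ∣ (lz L i₀ x).natAbs →
      (rad h : ℝ) ≤ ((N : ℝ) + 1) ^ 2 * X ^ (4 * κ) →
      (h : ℝ) ≤ (Nat.gcd h (lz L k x).natAbs : ℝ) *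
        (((N : ℝ) + 1) ^ 7 * X ^ (κ * (9 + 3 * t))) ^ m := ⟨_, rfl⟩
  have step : ∀ k p l, k ≠ p → Cl L k p l → A k → A p := by
    intro k p l hkp hcl hk
    rw [hA] at hk ⊢
    obtain ⟨m, hm⟩ := hk
    refine ⟨m + 1, ?_⟩
    intro κ X x hκ hκ1 hX hx hg h hh hdvd hrad
    have hX0 : 0 < X := by linarith
    obtain ⟨α, β, ν, δ, hβ, hν, hβN, e, hνH, hνr, -⟩ := adj ht hκ hκ1 hX hx hg hkp hcl
    obtain ⟨f, f1, f2, f3⟩ := stepN (h := h) hh (Int.natAbs_pos.2 (hx.ne p)) e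
    have hfr : (rad f : ℝ) ≤ ((N : ℝ) + 1) ^ 2 * X ^ (4 * κ) := by
      refine le_trans ?_ hrad
      exact_mod_cast SF.rad_le_of_dvd hh.ne' f1
    have hf := small_f (N := N) (t := t) (κ := κ) hX hβ hν hβN hνH hνr f2 hfr
    have h1 := hm κ X x hκ hκ1 hX hx hg h hh hdvd hrad
    have hF : 0 ≤ ((N : ℝ) + 1) ^ 7 * X ^ (κ * (9 + 3 * t)) := by positivity
    have f3' : (Nat.gcd h (lz L k x).natAbs : ℝ) ≤ f * Nat.gcd h (lz L p x).natAbs := by
      exact_mod_cast f3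
    calc (h : ℝ) ≤ (Nat.gcd h (lz L k x).natAbs : ℝ) *
          (((N : ℝ) + 1) ^ 7 * X ^ (κ * (9 + 3 * t))) ^ m := h1
      _ ≤ (f * Nat.gcd h (lz L p x).natAbs : ℝ) *
          (((N : ℝ) + 1) ^ 7 * X ^ (κ * (9 + 3 * t))) ^ m :=
          mul_le_mul_of_nonneg_right f3' (by positivity)
      _ ≤ ((((N : ℝ) + 1) ^ 7 * X ^ (κ * (9 + 3 * t))) * Nat.gcd h (lz L p x).natAbs : ℝ) *
          (((N : ℝ) + 1) ^ 7 * X ^ (κ * (9 + 3 * t))) ^ m := by
          apply mul_le_mul_of_nonneg_right _ (by positivity)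
          exact mul_le_mul_of_nonneg_right hf (Nat.cast_nonneg _)
      _ = _ := by rw [pow_succ]; ring
  have hlink := hL.linked A (by
    intro k p l hcl
    by_cases hkp : k = p
    · rw [hkp]
    · refine ⟨step k p l hkp hcl, ?_⟩
      obtain ⟨a, b, c, ha, hb, hc, hrel⟩ := hcl
      exact step p k l (Ne.symm hkp) ⟨b, a, c, hb, ha, hc, fun k => by rw [← hrel k]; ring⟩)
  have h0 : A i₀ := by
    rw [hA]
    refine ⟨0, ?_⟩
    intro κ X x hκ hκ1 hX hx hg h hh hdvd hrad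
    rw [pow_zero, mul_one, Nat.gcd_eq_left hdvd]
  intro k
  have h1 := (hlink i₀ k).1 h0
  rw [hA] at h1
  exact h1

/-- **the height of a typical point** -/
theorem hgt {L : Fin n → Fin r → ℤ} (hL : Ar L) (hr : 2 ≤ r) (N : ℕ) {t : ℝ} (ht : 0 < t) :
    ∃ C c : ℝ, 0 < C ∧ 0 < c ∧ ∀ (κ X : ℝ) (x : Fin r → ℤ), 0 < κ → κ ≤ 1 → 1 ≤ X → Pt L x →
      Good L t N κ X x → ‖x‖ ≤ C * X ^ (t + c * κ) := by
  classical
  choose m hm using fun i₀ => spread hL N ht i₀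
  obtain ⟨Δ, e, hΔ, hinv⟩ := inv hL.ess
  obtain ⟨M, hM⟩ : ∃ M : ℕ, M = ∑ i, ∑ k, m i k := ⟨_, rfl⟩
  obtain ⟨E, hE⟩ : ∃ E : ℝ, E = ∑ c, ∑ k, |(e c k : ℝ)| := ⟨_, rfl⟩
  have hE0 : 0 ≤ E := by
    rw [hE]
    exact Finset.sum_nonneg fun _ _ => Finset.sum_nonneg fun _ _ => abs_nonneg _
  refine ⟨(E + 1) * (|(Δ : ℝ)| * (((N : ℝ) + 1) ^ 7) ^ M * ((N : ℝ) + 1) ^ 5),
    (9 + 3 * t) * M + (4 + 3 * t), by positivity, by positivity, ?_⟩
  intro κ X x hκ hκ1 hX hx hg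
  have hX0 : 0 < X := by linarith
  obtain ⟨F, hF⟩ : ∃ F : ℝ, F = ((N : ℝ) + 1) ^ 7 * X ^ (κ * (9 + 3 * t)) := ⟨_, rfl⟩
  have hN1 : (1 : ℝ) ≤ (N : ℝ) + 1 := by
    have : (0 : ℝ) ≤ N := Nat.cast_nonneg _
    linarith
  have hF1 : 1 ≤ F := by
    rw [hF]
    exact one_le_mul_of_one_le_of_one_le (one_le_pow₀ hN1) (Real.one_le_rpow hX (by positivity))
  -- the values of the forms
  have hP : ∀ i, ((lz L i x).natAbs : ℝ) ≤ |(Δ : ℝ)| * F ^ M *
      (((N : ℝ) + 1) ^ 5 * X ^ (t + κ * (4 + 3 * t))) := by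
    intro i
    obtain ⟨j, l, hij, hcl⟩ := adj_exists hL hr i
    obtain ⟨α, β, ν, δ, hβ, hν, hβN, ee, hνH, hνr, hrad⟩ := adj ht hκ hκ1 hX hx hg hij hcl
    obtain ⟨h, hh⟩ : ∃ h, h = Nat.gcd (lz L i x).natAbs (lz L j x).natAbs := ⟨_, rfl⟩
    have hh0 : 0 < h := by rw [hh]; exact Nat.gcd_pos_of_pos_left _ (Int.natAbs_pos.2 (hx.ne i))
    have hdvd : h ∣ (lz L i x).natAbs := by rw [hh]; exact Nat.gcd_dvd_left _ _
    rw [← hh] at hrad
    -- the quotients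
    obtain ⟨q, hq⟩ : ∃ q : Fin n → ℕ, q = fun k => h / Nat.gcd h (lz L k x).natAbs := ⟨_, rfl⟩
    have hqe : ∀ k, h = q k * Nat.gcd h (lz L k x).natAbs := by
      intro k
      rw [hq]
      exact (Nat.div_mul_cancel (Nat.gcd_dvd_left _ _)).symm
    have hqF : ∀ k, (q k : ℝ) ≤ F ^ m i k := by
      intro k
      have h1 := hm i k κ X x hκ hκ1 hX hx hg h hh0 hdvd hrad
      rw [← hF] at h1
      have h2 : (0 : ℝ) < Nat.gcd h (lz L k x).natAbs := by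
        exact_mod_cast Nat.gcd_pos_of_pos_left _ hh0
      have h3 : (h : ℝ) = (q k : ℝ) * Nat.gcd h (lz L k x).natAbs := by exact_mod_cast hqe k
      rw [h3, mul_comm] at h1
      exact le_of_mul_le_mul_left h1 h2
    have hdv : ∀ c, (h : ℤ) ∣ ((∏ k, q k : ℕ) : ℤ) * Δ * x c := by
      intro c
      rw [mul_assoc, hinv x c, Finset.mul_sum]
      apply Finset.dvd_sum
      intro k _
      have h1 : (h : ℤ) ∣ (q k : ℤ) * lz L k x := by
        rw [← Int.dvd_natAbs, Int.natAbs_mul, Int.natAbs_natCast]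
        rw [Int.natCast_dvd_natCast]
        nth_rewrite 1 [hqe k]
        exact Nat.mul_dvd_mul_left _ (Nat.gcd_dvd_right _ _)
      have h2 : (q k : ℤ) ∣ ((∏ k, q k : ℕ) : ℤ) := by
        exact_mod_cast Finset.dvd_prod_of_mem q (mem_univ k)
      have h3 : (h : ℤ) ∣ ((∏ k, q k : ℕ) : ℤ) * lz L k x := h1.trans (mul_dvd_mul_right h2 _)
      calc (h : ℤ) ∣ ((∏ k, q k : ℕ) : ℤ) * lz L k x := h3
        _ ∣ ((∏ k, q k : ℕ) : ℤ) * (e c k * lz L k x) := ⟨e c k, by ring⟩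
    have hdv2 : (h : ℤ) ∣ ((∏ k, q k : ℕ) : ℤ) * Δ := by
      have h1 : (h : ℤ) ∣ Finset.univ.gcd (fun c => ((∏ k, q k : ℕ) : ℤ) * Δ * x c) :=
        Finset.dvd_gcd fun c _ => hdv c
      rw [Finset.gcd_mul_left, hx.gcd, mul_one] at h1
      exact h1.trans (normalize_associated _).dvd
    have hq0 : ∀ k, q k ≠ 0 := by
      intro k h1
      have := hqe k
      rw [h1, zero_mul] at this
      omega
    have hne : ((∏ k, q k : ℕ) : ℤ) * Δ ≠ 0 := by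
      apply mul_ne_zero _ hΔ
      exact_mod_cast Finset.prod_ne_zero_iff.2 fun k _ => hq0 k
    have hhle : (h : ℝ) ≤ |(Δ : ℝ)| * F ^ M := by
      have h1 := Int.le_of_dvd (abs_pos.2 hne) ((dvd_abs _ _).2 hdv2)
      have h2 : (h : ℝ) ≤ |((∏ k, q k : ℕ) : ℝ) * Δ| := by exact_mod_cast h1
      rw [abs_mul, abs_of_nonneg (Nat.cast_nonneg _)] at h2
      have h3 : ((∏ k, q k : ℕ) : ℝ) ≤ F ^ M := by
        push_cast
        calc ∏ k, (q k : ℝ) ≤ ∏ k, F ^ m i k :=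
              Finset.prod_le_prod (fun _ _ => Nat.cast_nonneg _) fun k _ => hqF k
          _ = F ^ (∑ k, m i k) := Finset.prod_pow_eq_pow_sum _ _ _
          _ ≤ F ^ M := by
              apply pow_le_pow_right₀ hF1
              rw [hM]
              exact Finset.single_le_sum (f := fun i => ∑ k, m i k) (fun _ _ => Nat.zero_le _)
                (mem_univ i)
      calc (h : ℝ) ≤ ((∏ k, q k : ℕ) : ℝ) * |(Δ : ℝ)| := h2
        _ ≤ F ^ M * |(Δ : ℝ)| := mul_le_mul_of_nonneg_right h3 (abs_nonneg _)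
        _ = _ := mul_comm _ _
    obtain ⟨f, f1, f2, f3⟩ := stepN (h := (lz L i x).natAbs) (Int.natAbs_pos.2 (hx.ne i))
      (Int.natAbs_pos.2 (hx.ne j)) ee
    rw [Nat.gcd_self, ← hh] at f3
    have hfle : (f : ℝ) ≤ ((N : ℝ) + 1) ^ 5 * X ^ (t + κ * (4 + 3 * t)) := by
      have h1 : f ≤ β * ν := Nat.le_of_dvd (Nat.mul_pos hβ hν) f2
      calc (f : ℝ) ≤ ((β * ν : ℕ) : ℝ) := by exact_mod_cast h1
        _ = (β : ℝ) * ν := by push_cast; ring
        _ ≤ ((N : ℝ) + 1) * (((N : ℝ) + 1) ^ 4 * X ^ (t + κ * (4 + 3 * t))) :=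
            mul_le_mul hβN hνH (Nat.cast_nonneg _) (by positivity)
        _ = _ := by ring
    calc ((lz L i x).natAbs : ℝ) ≤ ((f * h : ℕ) : ℝ) := by exact_mod_cast f3
      _ = (h : ℝ) * f := by push_cast; ring
      _ ≤ _ := mul_le_mul hhle hfle (Nat.cast_nonneg _) (by positivity)
  obtain ⟨V, hV⟩ : ∃ V : ℝ, V = |(Δ : ℝ)| * F ^ M *
      (((N : ℝ) + 1) ^ 5 * X ^ (t + κ * (4 + 3 * t))) := ⟨_, rfl⟩
  have hV0 : 0 ≤ V := by rw [hV]; positivity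
  have hxV : ‖x‖ ≤ E * V := by
    rw [pi_norm_le_iff_of_nonneg (by positivity)]
    intro c
    rw [Int.norm_eq_abs]
    have h1 : |(Δ : ℝ)| * |(x c : ℝ)| ≤ ∑ k, |(e c k : ℝ)| * V := by
      rw [← abs_mul]
      have h2 : (Δ : ℝ) * x c = ∑ k, (e c k : ℝ) * (lz L k x : ℝ) := by exact_mod_cast hinv x c
      rw [h2]
      refine (Finset.abs_sum_le_sum_abs _ _).trans ?_
      apply Finset.sum_le_sum
      intro k _
      rw [abs_mul]
      apply mul_le_mul_of_nonneg_left _ (abs_nonneg _)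
      have h3 := hP k
      rw [← hV, Nat.cast_natAbs, Int.cast_abs] at h3
      exact h3
    have hΔ1 : (1 : ℝ) ≤ |(Δ : ℝ)| := by
      have : 1 ≤ |Δ| := Int.one_le_abs hΔ
      exact_mod_cast this
    calc |(x c : ℝ)| ≤ |(Δ : ℝ)| * |(x c : ℝ)| := le_mul_of_one_le_left (abs_nonneg _) hΔ1
      _ ≤ ∑ k, |(e c k : ℝ)| * V := h1
      _ = (∑ k, |(e c k : ℝ)|) * V := by rw [Finset.sum_mul]
      _ ≤ E * V := by
          apply mul_le_mul_of_nonneg_right _ hV0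
          rw [hE]
          exact Finset.single_le_sum (f := fun c => ∑ k, |(e c k : ℝ)|)
            (fun _ _ => Finset.sum_nonneg fun _ _ => abs_nonneg _) (mem_univ c)
  refine hxV.trans ?_
  have hVe : V = (|(Δ : ℝ)| * (((N : ℝ) + 1) ^ 7) ^ M * ((N : ℝ) + 1) ^ 5) *
      X ^ (t + ((9 + 3 * t) * M + (4 + 3 * t)) * κ) := by
    have h1 : X ^ (t + ((9 + 3 * t) * M + (4 + 3 * t)) * κ) =
        (X ^ (κ * (9 + 3 * t))) ^ M * X ^ (t + κ * (4 + 3 * t)) := by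
      rw [← Real.rpow_natCast (X ^ (κ * (9 + 3 * t))), ← Real.rpow_mul hX0.le, ← Real.rpow_add hX0]
      congr 1
      ring
    rw [h1, hV, hF, mul_pow]
    ring
  calc E * V ≤ (E + 1) * V := mul_le_mul_of_nonneg_right (by linarith) hV0
    _ = _ := by rw [hVe]; ring

end Pool.Agent.H583.SB
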