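import Pool.Agent.H583.SB.F

/-!
Weighted arrangements: almost all points are typical if and only if the arrangement is stable.
-/

set_option autoImplicit false

namespace Pool.Agent.H583.SB

open Finset Pool.Agent.T2H20.ABC Pool.Agent.T2H20.AH Pool.Agent.H785R2.ABC Pool.Agent.H583.SF
  Pool.Agent.H583.WT Pool.Agent.H583.AL Pool.Agent.H583.AR Pool.Agent.H583.GD Pool.Agent.H583.PD
  Pool.Agent.H583.ST Pool.Agent.H583.SA

variable {n r : ℕ}

/-- the triples of a point -/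
def Tri (L : Fin n → Fin r → ℤ) (x : Fin r → ℤ) (A B C : ℤ) : Prop :=
  ∃ (i j l : Fin n) (a b c g : ℤ), i ≠ j ∧ a ≠ 0 ∧ b ≠ 0 ∧ c ≠ 0 ∧
    (∀ k, a * L i k + b * L j k + c * L l k = 0) ∧ IsCoprime A B ∧
    a * lz L i x = g * A ∧ b * lz L j x = g * B ∧ c * lz L l x = g * C

/-- typical points -/
def Typ (L : Fin n → Fin r → ℤ) (t κ X : ℝ) (x : Fin r → ℤ) : Prop :=
  ‖x‖ ≤ X ^ (t + κ) ∧ ∀ A B C : ℤ, Tri L x A B C →
    (X ^ (t - κ) ≤ zr A ∧ X ^ (t - κ) ≤ zr B ∧ X ^ (t - κ) ≤ zr C) ∧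
    ((max (max A.natAbs B.natAbs) C.natAbs : ℕ) : ℝ) < (zr (A * B * C) : ℝ) ^ (1 / 3 + κ)

lemma tri_num {L : Fin n → Fin r → ℤ} {i j l : Fin n} {a₀ b₀ c₀ a b c g A B C : ℤ}
    (h : Rl L i j l a₀ b₀ c₀) (hnp : Np L i j) {x : Fin r → ℤ} (hx : Pt L x) (ha : a ≠ 0)
    (_hb : b ≠ 0) (hrel : ∀ k, a * L i k + b * L j k + c * L l k = 0) (hAB : IsCoprime A B)
    (e1 : a * lz L i x = g * A) (e2 : b * lz L j x = g * B) (e3 : c * lz L l x = g * C) :
    ∃ s : ℤ, (s = 1 ∨ s = -1) ∧ A = s * (yr L i j a₀ b₀ x).num ∧ B = s * (yr L i j a₀ b₀ x).den ∧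
      C = -(s * ((yr L i j a₀ b₀ x).num + (yr L i j a₀ b₀ x).den)) := by
  obtain ⟨f1, f2, d, d1, d2, d3, d4⟩ := yr_facts h hx
  obtain ⟨y, hy⟩ : ∃ y, y = yr L i j a₀ b₀ x := ⟨_, rfl⟩
  rw [← hy] at f1 f2 d2 d3 d4 ⊢
  obtain ⟨p1, p2⟩ := hnp (c₀ * a - c * a₀) (-(c₀ * b - c * b₀)) (by
    intro k
    linear_combination c₀ * hrel k - c * h.rel k)
  have hab : a * b₀ = a₀ * b := by
    apply mul_left_cancel₀ h.hc
    linear_combination b₀ * p1 + a₀ * p2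
  have hA0 : a * lz L i x ≠ 0 := mul_ne_zero ha (hx.ne i)
  have hg : g ≠ 0 := by
    intro h0
    rw [h0, zero_mul] at e1
    exact hA0 e1
  have hcr : A * y.den = B * y.num := by
    apply mul_left_cancel₀ hg
    apply mul_left_cancel₀ d1
    calc d * (g * (A * (y.den : ℤ))) = (g * A) * (d * y.den) := by ring
      _ = (a * lz L i x) * (b₀ * lz L j x) := by rw [e1, d3]
      _ = (b * lz L j x) * (a₀ * lz L i x) := by
          linear_combination lz L i x * lz L j x * hab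
      _ = (g * B) * (d * y.num) := by rw [e2, d2]
      _ = d * (g * (B * y.num)) := by ring
  have hnum : y.num ≠ 0 := Rat.num_ne_zero.2 f1
  have h1 : A ∣ y.num := hAB.dvd_of_dvd_mul_left ⟨y.den, hcr.symm⟩
  have hcop : IsCoprime y.num (y.den : ℤ) := by
    rw [Int.isCoprime_iff_gcd_eq_one]
    exact y.reduced
  have h2 : y.num ∣ A := hcop.dvd_of_dvd_mul_right ⟨B, by rw [hcr]; ring⟩
  have h3 := Int.natAbs_eq_of_dvd_dvd h1 h2
  have hABC : A + B + C = 0 := by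
    have h4 := lz_rel hrel x
    rw [e1, e2, e3] at h4
    have h5 : g * (A + B + C) = g * 0 := by rw [mul_zero, ← h4]; ring
    exact mul_left_cancel₀ hg h5
  rcases Int.natAbs_eq_natAbs_iff.1 h3 with h4 | h4
  · have h5 : B = y.den := by
      apply mul_right_cancel₀ hnum
      rw [← hcr, h4]
      ring
    refine ⟨1, Or.inl rfl, by rw [h4]; ring, by rw [h5]; ring, ?_⟩
    rw [h4, h5] at hABC
    linarith
  · have h5 : B = -y.den := by
      apply mul_right_cancel₀ hnum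
      rw [← hcr, h4]
      ring
    refine ⟨-1, Or.inr rfl, by rw [h4]; ring, by rw [h5]; ring, ?_⟩
    rw [h4, h5] at hABC
    linarith

lemma zr_neg' (v : ℤ) : zr (-v) = zr v := by
  unfold zr
  rw [Int.natAbs_neg]

/-- the triples of a good point -/
lemma good_tri {L : Fin n → Fin r → ℤ} (hnp : ∀ i j, i ≠ j → Np L i j) {N : ℕ} {t κ X : ℝ}
    {x : Fin r → ℤ} (hx : Pt L x) (hg : Good L t N κ X x) {A B C : ℤ} (h : Tri L x A B C) :
    (X ^ (t - κ) ≤ zr A ∧ X ^ (t - κ) ≤ zr B ∧ X ^ (t - κ) ≤ zr C) ∧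
    ((max (max A.natAbs B.natAbs) C.natAbs : ℕ) : ℝ) < (zr (A * B * C) : ℝ) ^ (1 / 3 + κ) := by
  obtain ⟨i, j, l, a, b, c, g, hij, ha, hb, hc, hrel, hAB, e1, e2, e3⟩ := h
  obtain ⟨a₀, b₀, c₀, hR, -, hC, hm⟩ := hg.2 i j l hij ⟨a, b, c, ha, hb, hc, hrel⟩
  obtain ⟨s, hs, hA, hB, hC'⟩ := tri_num hR (hnp i j hij) hx ha hb hrel hAB e1 e2 e3
  obtain ⟨y, hy⟩ : ∃ y, y = yr L i j a₀ b₀ x := ⟨_, rfl⟩
  rw [← hy] at hA hB hC' hC
  have hlog : ∀ (v : ℤ) (m : Fin 3), gg L i j a₀ b₀ x m = Nat.log 2 (zr v) → X ^ (t - κ) ≤ zr v := by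
    intro v m hv
    have h1 := hm m
    have h2 := two_zr v
    rw [Real.rpow_natCast] at h2
    rw [hv] at h1
    exact h1.trans h2
  have g0 := hlog y.num 0 (by rw [hy]; rfl)
  have g1 := hlog y.den 1 (by rw [hy]; rfl)
  have g2 := hlog (y.num + y.den) 2 (by rw [hy]; rfl)
  rcases hs with rfl | rfl
  · rw [one_mul] at hA hB hC'
    rw [hA, hB, hC']
    refine ⟨⟨g0, g1, by rw [zr_neg']; exact g2⟩, ?_⟩
    have h1 : zr (y.num * y.den * -(y.num + y.den)) = zr (U y) := by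
      unfold U
      rw [mul_neg, zr_neg']
    have h2 : max (max y.num.natAbs (y.den : ℤ).natAbs) (-(y.num + (y.den : ℤ))).natAbs = Cc y := by
      unfold Cc
      rw [Int.natAbs_neg, Int.natAbs_natCast]
    rw [h1, h2]
    exact hC
  · rw [neg_one_mul] at hA hB hC'
    rw [neg_neg] at hC'
    rw [hA, hB, hC']
    refine ⟨⟨by rw [zr_neg']; exact g0, by rw [zr_neg']; exact g1, g2⟩, ?_⟩
    have h1 : zr (-y.num * -y.den * (y.num + y.den)) = zr (U y) := by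
      unfold U
      rw [neg_mul_neg]
    have h2 : max (max (-y.num).natAbs (-(y.den : ℤ)).natAbs) (y.num + (y.den : ℤ)).natAbs = Cc y := by
      unfold Cc
      rw [Int.natAbs_neg, Int.natAbs_neg, Int.natAbs_natCast]
    rw [h1, h2]
    exact hC

/-- **the untypical points are few if the arrangement is stable** -/
theorem fwd {L : Fin n → Fin r → ℤ} (hL : Ar L) (i₀ : Fin n) (w : Fin n → ℝ)
    (hw : ∀ i, 0 < w i) (hst : Stb L w) (hr : 2 ≤ r) (hnp : ∀ i j, i ≠ j → Np L i j)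
    (κ : ℝ) (hκ : 0 < κ) : ∃ δ C : ℝ, 0 < δ ∧ 0 < C ∧ ∀ X : ℝ, 1 ≤ X → ∀ Q : Finset (Fin r → ℤ),
      (∀ x ∈ Q, Pt L x ∧ wp L w x ≤ X ∧ ¬ Typ L (1 / ∑ i, w i) κ X x) →
        (Q.card : ℝ) ≤ C * X ^ (r / (∑ i, w i) - δ) := by
  classical
  have hΩ0 : 0 < ∑ i, w i := Finset.sum_pos (fun i _ => hw i) ⟨i₀, mem_univ _⟩
  obtain ⟨t, ht⟩ : ∃ t : ℝ, t = 1 / ∑ i, w i := ⟨_, rfl⟩
  have ht0 : 0 < t := by rw [ht]; positivity
  obtain ⟨N, hN⟩ := pick hL i₀ w hw hst hr hnp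
  obtain ⟨C, c, hC, hc, hh⟩ := hgt hL hr N ht0
  obtain ⟨κ₁, hκ₁⟩ : ∃ κ₁ : ℝ, κ₁ = min (min κ 1) (κ / (2 * c)) := ⟨_, rfl⟩
  have hκ₁0 : 0 < κ₁ := by
    rw [hκ₁]
    exact lt_min (lt_min hκ one_pos) (by positivity)
  have hκ₁1 : κ₁ ≤ 1 := by
    rw [hκ₁]
    exact (min_le_left _ _).trans (min_le_right _ _)
  have hκ₁2 : κ₁ ≤ κ := by
    rw [hκ₁]
    exact (min_le_left _ _).trans (min_le_left _ _)
  have hκ₁3 : c * κ₁ ≤ κ / 2 := by
    have h1 : κ₁ ≤ κ / (2 * c) := by rw [hκ₁]; exact min_le_right _ _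
    rw [le_div_iff₀ (by positivity)] at h1
    linarith
  obtain ⟨δ, D, hδ, hD, h₁⟩ := hN κ₁ hκ₁0
  refine ext_small hL i₀ w hw hst hr (fun X x => ¬ Typ L (1 / ∑ i, w i) κ X x) (C ^ (2 / κ))
    ⟨δ, D, hδ, hD, ?_⟩
  intro X hX hX₀ Q hQ
  have hX0 : 0 < X := by linarith
  apply h₁ X hX Q
  intro x hx
  obtain ⟨k1, k2, k3⟩ := hQ x hx
  refine ⟨k1, k2, fun hg => k3 ?_⟩
  rw [← ht] at hg ⊢
  refine ⟨?_, ?_⟩
  · have h1 := hh κ₁ X x hκ₁0 hκ₁1 hX k1 hg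
    have h2 : C ≤ X ^ (κ / 2) := by
      have h3 := Real.rpow_le_rpow (by positivity) hX₀.le (by positivity : 0 ≤ κ / 2)
      rw [← Real.rpow_mul hC.le] at h3
      have h4 : 2 / κ * (κ / 2) = 1 := by field_simp
      rw [h4, Real.rpow_one] at h3
      exact h3
    calc ‖x‖ ≤ C * X ^ (t + c * κ₁) := h1
      _ ≤ X ^ (κ / 2) * X ^ (t + κ / 2) := by
          apply mul_le_mul h2 _ (by positivity) (by positivity)
          exact Real.rpow_le_rpow_of_exponent_le hX (by linarith)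
      _ = _ := by
          rw [← Real.rpow_add hX0]
          congr 1
          ring
  · intro A B C' htri
    obtain ⟨⟨g1, g2, g3⟩, g4⟩ := good_tri hnp k1 hg htri
    have h1 : X ^ (t - κ) ≤ X ^ (t - κ₁) := Real.rpow_le_rpow_of_exponent_le hX (by linarith)
    refine ⟨⟨h1.trans g1, h1.trans g2, h1.trans g3⟩, g4.trans_le ?_⟩
    apply Real.rpow_le_rpow_of_exponent_le _ (by linarith)
    exact_mod_cast zr_pos _

/-- **the arrangement is stable if the untypical points are few** -/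
theorem bwd {L : Fin n → Fin r → ℤ} (hL : Ar L) (i₀ : Fin n) (w : Fin n → ℝ)
    (hw : ∀ i, 0 < w i) (hr : 2 ≤ r)
    (H : ∀ κ : ℝ, 0 < κ → ∃ δ C : ℝ, 0 < δ ∧ ∀ X : ℝ, 1 ≤ X → ∀ Q : Finset (Fin r → ℤ),
      (∀ x ∈ Q, Pt L x ∧ wp L w x ≤ X ∧ ¬ Typ L (1 / ∑ i, w i) κ X x) →
        (Q.card : ℝ) ≤ C * X ^ (r / (∑ i, w i) - δ)) : Stb L w := by
  classical
  have hΩ0 : 0 < ∑ i, w i := Finset.sum_pos (fun i _ => hw i) ⟨i₀, mem_univ _⟩
  obtain ⟨t, ht⟩ : ∃ t : ℝ, t = 1 / ∑ i, w i := ⟨_, rfl⟩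
  have ht0 : 0 < t := by rw [ht]; positivity
  obtain ⟨δ, C, hδ, h₁⟩ := H (t / 4) (by positivity)
  have hadj : ∀ i : Fin n, ∃ (j l : Fin n) (a b c : ℤ), i ≠ j ∧ a ≠ 0 ∧ b ≠ 0 ∧ c ≠ 0 ∧
      ∀ k, a * L i k + b * L j k + c * L l k = 0 := by
    intro i
    obtain ⟨j, l, hij, a, b, c, ha, hb, hc, hrel⟩ := adj_exists hL hr i
    exact ⟨j, l, a, b, c, hij, ha, hb, hc, hrel⟩
  choose j l a b c hij ha hb hc hrel using hadj
  obtain ⟨M, hM⟩ : ∃ M : ℕ, M = ∑ i, (a i).natAbs + 1 := ⟨_, rfl⟩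
  have hM1 : (1 : ℝ) ≤ M := by
    have : 1 ≤ M := by omega
    exact_mod_cast this
  refine cnv hL i₀ w hw hr ⟨δ, C, (M : ℝ) ^ (4 / t), hδ, ?_⟩
  intro X hX Q hQ
  have hX1 : 1 ≤ X := (Real.one_le_rpow hM1 (by positivity)).trans hX
  have hX0 : 0 < X := by linarith
  have hMX : (M : ℝ) ≤ X ^ (t / 4) := by
    have h3 := Real.rpow_le_rpow (by positivity) hX (by positivity : 0 ≤ t / 4)
    rw [← Real.rpow_mul (by linarith)] at h3
    have h4 : 4 / t * (t / 4) = 1 := by field_simp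
    rw [h4, Real.rpow_one] at h3
    exact h3
  apply h₁ X hX1 Q
  intro x hx
  obtain ⟨k1, k2, i, hi⟩ := hQ x hx
  refine ⟨k1, k2, fun htyp => ?_⟩
  rw [← ht] at hi htyp
  -- the triple of the relation of `i`
  have hA0 : a i * lz L i x ≠ 0 := mul_ne_zero (ha i) (k1.ne i)
  obtain ⟨g, hg⟩ : ∃ g : ℤ, g = Int.gcd (a i * lz L i x) (b i * lz L (j i) x) := ⟨_, rfl⟩
  have hg0 : 0 < Int.gcd (a i * lz L i x) (b i * lz L (j i) x) := Int.gcd_pos_of_ne_zero_left _ hA0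
  have hgA : g ∣ a i * lz L i x := by rw [hg]; exact Int.gcd_dvd_left _ _
  have hgB : g ∣ b i * lz L (j i) x := by rw [hg]; exact Int.gcd_dvd_right _ _
  obtain ⟨A, hA⟩ := hgA
  obtain ⟨B, hB⟩ := hgB
  have hz := lz_rel (hrel i) x
  have hgz : g ≠ 0 := by rw [hg]; exact_mod_cast hg0.ne'
  have hcop : IsCoprime A B := by
    rw [Int.isCoprime_iff_gcd_eq_one]
    have h1 : Int.gcd (a i * lz L i x) (b i * lz L (j i) x) = g.natAbs * Int.gcd A B := by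
      rw [hA, hB, Int.gcd_mul_left]
    have h2 : g.natAbs = Int.gcd (a i * lz L i x) (b i * lz L (j i) x) := by
      rw [hg, Int.natAbs_natCast]
    rw [← h2] at h1
    have h3 : 0 < g.natAbs := Int.natAbs_pos.2 hgz
    have h4 : g.natAbs * Int.gcd A B = g.natAbs * 1 := by rw [← h1, mul_one]
    exact Nat.eq_of_mul_eq_mul_left h3 h4
  have htri : Tri L x A B (-(A + B)) := by
    refine ⟨i, j i, l i, a i, b i, c i, g, hij i, ha i, hb i, hc i, hrel i, hcop, hA, hB, ?_⟩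
    rw [hA, hB] at hz
    linarith
  have h1 := ((htyp.2 A B (-(A + B)) htri).1).1
  have h2 : zr A ≤ (a i).natAbs * zr (lz L i x) := by
    refine (zr_le_of_dvd hA0 ⟨g, by rw [hA]; ring⟩).trans ((zr_mul_le (ha i) (k1.ne i)).trans ?_)
    exact Nat.mul_le_mul_right _ (SF.rad_le_self (Int.natAbs_ne_zero.2 (ha i)))
  have h3 : ((a i).natAbs : ℝ) ≤ M := by
    have : (a i).natAbs ≤ ∑ i, (a i).natAbs :=
      Finset.single_le_sum (f := fun i => (a i).natAbs) (fun _ _ => Nat.zero_le _) (mem_univ i)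
    rw [hM]
    exact_mod_cast this.trans (Nat.le_succ _)
  have h4 : (zr A : ℝ) < X ^ (t - t / 4) := by
    have ha1 : (0 : ℝ) < (a i).natAbs := by exact_mod_cast Int.natAbs_pos.2 (ha i)
    calc (zr A : ℝ) ≤ (a i).natAbs * zr (lz L i x) := by exact_mod_cast h2
      _ < (a i).natAbs * X ^ (t / 2) := mul_lt_mul_of_pos_left hi ha1
      _ ≤ X ^ (t / 4) * X ^ (t / 2) := mul_le_mul_of_nonneg_right (h3.trans hMX) (by positivity)
      _ = _ := by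
          rw [← Real.rpow_add hX0]
          congr 1
          ring
  linarith

end Pool.Agent.H583.SB
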