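import Pool.Agent.H583.SB.G

/-!
Stable weighted arrangements: the values of the forms at almost all points are almost coprime.
-/

set_option autoImplicit false

namespace Pool.Agent.H583.SB

open Finset Pool.Agent.T2H20.ABC Pool.Agent.T2H20.AH Pool.Agent.H785R2.ABC Pool.Agent.H583.SF
  Pool.Agent.H583.WT Pool.Agent.H583.AL Pool.Agent.H583.AR Pool.Agent.H583.GD Pool.Agent.H583.PD
  Pool.Agent.H583.ST Pool.Agent.H583.SA

variable {n r : ℕ}

lemma lz_norm (L : Fin n → Fin r → ℤ) : ∃ A : ℝ, 1 ≤ A ∧ ∀ (x : Fin r → ℤ) (i : Fin n),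
    |(lz L i x : ℝ)| ≤ A * ‖x‖ := by
  refine ⟨1 + ∑ i, ∑ k, |(L i k : ℝ)|, ?_, ?_⟩
  · have : (0 : ℝ) ≤ ∑ i, ∑ k, |(L i k : ℝ)| :=
      Finset.sum_nonneg fun _ _ => Finset.sum_nonneg fun _ _ => abs_nonneg _
    linarith
  intro x i
  unfold lz
  push_cast
  calc |∑ k, (L i k : ℝ) * (x k : ℝ)| ≤ ∑ k, |(L i k : ℝ) * (x k : ℝ)| := Finset.abs_sum_le_sum_abs _ _
    _ ≤ ∑ k, |(L i k : ℝ)| * ‖x‖ := by
        apply Finset.sum_le_sum
        intro k _
        rw [abs_mul]
        apply mul_le_mul_of_nonneg_left _ (abs_nonneg _)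
        have := norm_le_pi_norm x k
        rwa [Int.norm_eq_abs] at this
    _ = (∑ k, |(L i k : ℝ)|) * ‖x‖ := by rw [Finset.sum_mul]
    _ ≤ _ := by
        apply mul_le_mul_of_nonneg_right _ (norm_nonneg _)
        have : ∑ k, |(L i k : ℝ)| ≤ ∑ i, ∑ k, |(L i k : ℝ)| :=
          Finset.single_le_sum (f := fun i => ∑ k, |(L i k : ℝ)|)
            (fun _ _ => Finset.sum_nonneg fun _ _ => abs_nonneg _) (mem_univ i)
        linarith

/-- coordinates which determine a point with given values of two forms -/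
lemma coords {L : Fin n → Fin r → ℤ} {i j : Fin n} (hi : ∃ k, L i k ≠ 0) (hnp : Np L i j) :
    ∃ T : Finset (Fin r), T.card + 2 ≤ r ∧ ∀ x : Fin r → ℚ, lq L i x = 0 → lq L j x = 0 →
      (∀ c ∈ T, x c = 0) → x = 0 := by
  classical
  obtain ⟨I, hI⟩ : ∃ I : Fin r → Fin r → ℤ, I = fun p k => if p = k then 1 else 0 := ⟨_, rfl⟩
  have hlq : ∀ (c : Fin r) (x : Fin r → ℚ), lq I c x = x c := by
    intro c x
    rw [lq_apply, Finset.sum_eq_single c]
    · rw [hI]
      simp
    · intro k _ hk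
      rw [hI]
      simp [hk.symm]
    · intro h
      exact absurd (mem_univ c) h
  obtain ⟨T, -, hT2, hT3⟩ := small_set (L := I) (fun x hx => by
    funext c
    rw [← hlq c x]
    exact hx c) (zs L fun p => p = i ∨ p = j)
  have hdim := dim_two hi hnp
  refine ⟨T, by omega, ?_⟩
  intro x h1 h2 h3
  apply hT2 x
  · rw [mem_zs]
    rintro p (rfl | rfl)
    · exact h1
    · exact h2
  · intro c hc
    rw [hlq]
    exact h3 c hc

/-- **points with a large common divisor of two values** -/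
theorem gcd_few {L : Fin n → Fin r → ℤ} {i j : Fin n} (hi : ∃ k, L i k ≠ 0) (hnp : Np L i j) :
    ∃ C : ℝ, 0 < C ∧ ∀ H D : ℝ, 1 ≤ H → 1 ≤ D → ∀ Q : Finset (Fin r → ℤ),
      (∀ x ∈ Q, Pt L x ∧ ‖x‖ ≤ H ∧ D ≤ (Int.gcd (lz L i x) (lz L j x) : ℝ)) →
      (Q.card : ℝ) ≤ C * H ^ r * D ^ (-(1 / 2) : ℝ) := by
  classical
  obtain ⟨A, hA, hn⟩ := lz_norm L
  obtain ⟨T, hT, hT2⟩ := coords hi hnp
  have hsum : Summable fun g : ℕ => 1 / (g : ℝ) ^ (3 / 2 : ℝ) :=
    Real.summable_one_div_nat_rpow.2 (by norm_num)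
  obtain ⟨S₀, hS⟩ : ∃ S₀ : ℝ, S₀ = ∑' g : ℕ, 1 / (g : ℝ) ^ (3 / 2 : ℝ) := ⟨_, rfl⟩
  have hS0 : 0 ≤ S₀ := by
    rw [hS]
    exact tsum_nonneg fun g => by positivity
  refine ⟨9 * A ^ 2 * 3 ^ (r - 2) * (S₀ + 1), by positivity, ?_⟩
  intro H D hH hD Q hQ
  have hH0 : 0 < H := by linarith
  have hD0 : 0 < D := by linarith
  obtain ⟨γ, hγ⟩ : ∃ γ : (Fin r → ℤ) → ℕ, γ = fun x => Int.gcd (lz L i x) (lz L j x) := ⟨_, rfl⟩
  have hfib : ∀ g ∈ Q.image γ, ((Q.filter fun x => γ x = g).card : ℝ) ≤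
      9 * A ^ 2 * 3 ^ (r - 2) * H ^ r * D ^ (-(1 / 2) : ℝ) * (1 / (g : ℝ) ^ (3 / 2 : ℝ)) := by
    intro g hg
    obtain ⟨P, hP⟩ : ∃ P, P = Q.filter fun x => γ x = g := ⟨_, rfl⟩
    rw [← hP]
    rw [mem_image] at hg
    obtain ⟨z, hz, hzg⟩ := hg
    have mP : ∀ x ∈ P, x ∈ Q ∧ Int.gcd (lz L i x) (lz L j x) = g := fun x hx => by
      rw [hP, mem_filter, hγ] at hx
      exact hx
    have hgD : D ≤ g := by
      rw [← hzg, hγ]
      exact (hQ z hz).2.2
    have hg0 : (0 : ℝ) < g := by linarith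
    have hgn : g ≠ 0 := by
      rintro rfl
      rw [Nat.cast_zero] at hg0
      exact lt_irrefl _ hg0
    have hgAH : (g : ℝ) ≤ A * H := by
      have h1 : g ∣ (lz L i z).natAbs := by
        rw [← hzg, hγ]
        exact Int.gcd_dvd_natAbs_left _ _
      have h2 : g ≤ (lz L i z).natAbs := Nat.le_of_dvd (Int.natAbs_pos.2 ((hQ z hz).1.ne i)) h1
      calc (g : ℝ) ≤ (lz L i z).natAbs := by exact_mod_cast h2
        _ = |(lz L i z : ℝ)| := by rw [Nat.cast_natAbs, Int.cast_abs]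
        _ ≤ A * ‖z‖ := hn z i
        _ ≤ A * H := mul_le_mul_of_nonneg_left (hQ z hz).2.1 (by linarith)
    obtain ⟨m, hm⟩ : ∃ m : ℕ, m = ⌊A * H / g⌋₊ := ⟨_, rfl⟩
    obtain ⟨h, hh⟩ : ∃ h : ℕ, h = ⌊H⌋₊ := ⟨_, rfl⟩
    have hone : 1 ≤ A * H / g := by rw [le_div_iff₀ hg0]; linarith
    have hm3 : (2 * m + 1 : ℝ) ≤ 3 * (A * H / g) := by
      have : (m : ℝ) ≤ A * H / g := by rw [hm]; exact Nat.floor_le (by positivity)
      linarith
    have hh3 : (2 * h + 1 : ℝ) ≤ 3 * H := by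
      have : (h : ℝ) ≤ H := by rw [hh]; exact Nat.floor_le (by positivity)
      linarith
    have hval : ∀ x ∈ P, ∀ p, (p = i ∨ p = j) → (g : ℤ) ∣ lz L p x ∧
        lz L p x / g ∈ Icc (-(m : ℤ)) m := by
      intro x hx p hp
      obtain ⟨h1, h2⟩ := mP x hx
      have h3 : (g : ℤ) ∣ lz L p x := by
        rw [← h2]
        rcases hp with rfl | rfl
        · exact Int.gcd_dvd_left _ _
        · exact Int.gcd_dvd_right _ _
      refine ⟨h3, ?_⟩
      obtain ⟨v, hv⟩ := h3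
      have hgz : (g : ℤ) ≠ 0 := by exact_mod_cast hgn
      rw [hv, Int.mul_ediv_cancel_left _ hgz]
      have h4 : |(v : ℝ)| ≤ A * H / g := by
        rw [le_div_iff₀ hg0]
        have h5 := hn x p
        rw [hv] at h5
        push_cast at h5
        rw [abs_mul, abs_of_pos hg0] at h5
        have h6 : A * ‖x‖ ≤ A * H := mul_le_mul_of_nonneg_left (hQ x h1).2.1 (by linarith)
        linarith
      have h5 : v.natAbs ≤ m := by
        rw [hm]
        apply Nat.le_floor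
        rw [Nat.cast_natAbs, Int.cast_abs]
        exact h4
      rw [mem_Icc]
      omega
    have hcard : P.card ≤ (((Icc (-(m : ℤ)) m) ×ˢ (Icc (-(m : ℤ)) m)) ×ˢ
        Fintype.piFinset fun c : Fin r => if c ∈ T then Icc (-(h : ℤ)) h else {0}).card := by
      apply Finset.card_le_card_of_injOn (fun x => ((lz L i x / g, lz L j x / g),
        fun c => if c ∈ T then x c else 0))
      · intro x hx
        rw [Finset.mem_coe] at hx ⊢
        rw [mem_product, mem_product, Fintype.mem_piFinset]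
        refine ⟨⟨(hval x hx i (Or.inl rfl)).2, (hval x hx j (Or.inr rfl)).2⟩, ?_⟩
        intro c
        dsimp only
        split_ifs with hc
        · have h1 : |(x c : ℝ)| ≤ H := by
            have := (norm_le_pi_norm x c).trans (hQ x (mP x hx).1).2.1
            rwa [Int.norm_eq_abs] at this
          have h2 : (x c).natAbs ≤ h := by
            rw [hh]
            apply Nat.le_floor
            rw [Nat.cast_natAbs, Int.cast_abs]
            exact h1
          rw [mem_Icc]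
          omega
        · exact mem_singleton_self _
      · intro x hx y hy hxy
        simp only [Prod.mk.injEq] at hxy
        obtain ⟨⟨e1, e2⟩, e3⟩ := hxy
        have hlz : ∀ p, (p = i ∨ p = j) → lz L p x / g = lz L p y / g → lz L p x = lz L p y := by
          intro p hp h1
          have hx1 := (hval x hx p hp).1
          have hy1 := (hval y hy p hp).1
          rw [← Int.mul_ediv_cancel' hx1, ← Int.mul_ediv_cancel' hy1, h1]
        have hi' := hlz i (Or.inl rfl) e1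
        have hj' := hlz j (Or.inr rfl) e2
        have hq : ∀ p, lz L p x = lz L p y → lq L p (fun c => (x c : ℚ) - y c) = 0 := by
          intro p hp
          rw [lq_apply]
          have h1 : ∑ c, (L p c : ℚ) * ((x c : ℚ) - y c) = ((lz L p x - lz L p y : ℤ) : ℚ) := by
            unfold lz
            rw [← Finset.sum_sub_distrib]
            push_cast
            apply Finset.sum_congr rfl
            intro c _
            ring
          rw [h1, hp, sub_self, Int.cast_zero]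
        have h0 := hT2 (fun c => (x c : ℚ) - y c) (hq i hi') (hq j hj') (by
          intro c hc
          have h1 := congrFun e3 c
          simp only [if_pos hc] at h1
          rw [h1, sub_self])
        funext c
        have h1 := congrFun h0 c
        simp only [Pi.zero_apply] at h1
        have h2 : (x c : ℚ) = y c := by linarith
        exact_mod_cast h2
    rw [card_product, card_product, Fintype.card_piFinset] at hcard
    have hc1 : (Icc (-(m : ℤ)) m).card = 2 * m + 1 := by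
      rw [Int.card_Icc]
      omega
    have hc2 : ∀ c : Fin r, (if c ∈ T then Icc (-(h : ℤ)) h else {0} : Finset ℤ).card =
        if c ∈ T then 2 * h + 1 else 1 := by
      intro c
      split_ifs
      · rw [Int.card_Icc]
        omega
      · exact card_singleton _
    rw [hc1, Finset.prod_congr rfl fun c _ => hc2 c, Finset.prod_ite_mem, Finset.univ_inter,
      Finset.prod_const] at hcard
    have hcr : (P.card : ℝ) ≤ (2 * m + 1 : ℝ) * (2 * m + 1) * (2 * h + 1) ^ T.card := by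
      exact_mod_cast hcard
    have h3H : (1 : ℝ) ≤ 3 * H := by linarith
    have e5 : (2 * h + 1 : ℝ) ^ T.card ≤ (3 * H) ^ (r - 2) :=
      (pow_le_pow_left₀ (by positivity) hh3 _).trans (pow_le_pow_right₀ h3H (by omega))
    have e6 : H ^ r = H ^ 2 * H ^ (r - 2) := by
      rw [← pow_add]
      congr 1
      omega
    have e7 : 1 / (g : ℝ) ^ 2 ≤ D ^ (-(1 / 2) : ℝ) * (1 / (g : ℝ) ^ (3 / 2 : ℝ)) := by
      have h1 : (g : ℝ) ^ 2 = (g : ℝ) ^ (1 / 2 : ℝ) * (g : ℝ) ^ (3 / 2 : ℝ) := by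
        rw [← Real.rpow_add hg0, ← Real.rpow_natCast]
        norm_num
      have h2 : D ^ (-(1 / 2) : ℝ) = (D ^ (1 / 2 : ℝ))⁻¹ := Real.rpow_neg hD0.le _
      have h3 : 1 / ((g : ℝ) ^ (1 / 2 : ℝ) * (g : ℝ) ^ (3 / 2 : ℝ)) =
          ((g : ℝ) ^ (1 / 2 : ℝ))⁻¹ * (1 / (g : ℝ) ^ (3 / 2 : ℝ)) := by ring
      rw [h1, h2, h3]
      apply mul_le_mul_of_nonneg_right _ (by positivity)
      apply inv_anti₀ (by positivity)
      exact Real.rpow_le_rpow hD0.le hgD (by norm_num)
    calc (P.card : ℝ) ≤ (2 * m + 1 : ℝ) * (2 * m + 1) * (2 * h + 1) ^ T.card := hcr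
      _ ≤ (3 * (A * H / g)) * (3 * (A * H / g)) * (3 * H) ^ (r - 2) :=
          mul_le_mul (mul_le_mul hm3 hm3 (by positivity) (by positivity)) e5 (by positivity)
            (by positivity)
      _ = 9 * A ^ 2 * 3 ^ (r - 2) * H ^ r * (1 / (g : ℝ) ^ 2) := by
          rw [e6, mul_pow]
          field_simp
          ring
      _ ≤ 9 * A ^ 2 * 3 ^ (r - 2) * H ^ r * (D ^ (-(1 / 2) : ℝ) * (1 / (g : ℝ) ^ (3 / 2 : ℝ))) :=
          mul_le_mul_of_nonneg_left e7 (by positivity)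
      _ = _ := by ring
  rw [Finset.card_eq_sum_card_image γ Q]
  push_cast
  refine (Finset.sum_le_sum hfib).trans ?_
  rw [← Finset.mul_sum]
  have h1 : ∑ g ∈ Q.image γ, 1 / (g : ℝ) ^ (3 / 2 : ℝ) ≤ S₀ := by
    rw [hS]
    exact hsum.sum_le_tsum _ fun g _ => by positivity
  calc 9 * A ^ 2 * 3 ^ (r - 2) * H ^ r * D ^ (-(1 / 2) : ℝ) *
        ∑ g ∈ Q.image γ, 1 / (g : ℝ) ^ (3 / 2 : ℝ) ≤
        9 * A ^ 2 * 3 ^ (r - 2) * H ^ r * D ^ (-(1 / 2) : ℝ) * (S₀ + 1) := by
        apply mul_le_mul_of_nonneg_left _ (by positivity)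
        linarith
    _ = _ := by ring

lemma rad_gcd_prod {ι : Type*} (s : Finset ι) (m : ι → ℕ) (a : ℕ) (ha : a ≠ 0)
    (hm : ∀ i ∈ s, m i ≠ 0) :
    rad (Nat.gcd a (∏ i ∈ s, m i)) ≤ ∏ i ∈ s, rad (Nat.gcd a (m i)) := by
  classical
  induction s using Finset.induction_on with
  | empty =>
    rw [Finset.prod_empty, Finset.prod_empty, Nat.gcd_one_right]
    unfold rad
    simp
  | insert b s hb ih =>
    rw [Finset.prod_insert hb, Finset.prod_insert hb]
    have h1 : Nat.gcd a (m b) ≠ 0 := (Nat.gcd_pos_of_pos_left _ (Nat.pos_of_ne_zero ha)).ne'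
    have h2 : Nat.gcd a (∏ i ∈ s, m i) ≠ 0 := (Nat.gcd_pos_of_pos_left _ (Nat.pos_of_ne_zero ha)).ne'
    calc rad (Nat.gcd a (m b * ∏ i ∈ s, m i)) ≤ rad (Nat.gcd a (m b) * Nat.gcd a (∏ i ∈ s, m i)) :=
          SF.rad_le_of_dvd (mul_ne_zero h1 h2) (Nat.gcd_mul_right_dvd_mul_gcd _ _ _)
      _ ≤ rad (Nat.gcd a (m b)) * rad (Nat.gcd a (∏ i ∈ s, m i)) := SF.rad_mul_le h1 h2
      _ ≤ _ := Nat.mul_le_mul_left _ (ih fun i hi => hm i (mem_insert_of_mem hi))

lemma rad_prod {ι : Type*} (s : Finset ι) (m : ι → ℕ) (hm : ∀ i ∈ s, m i ≠ 0) {G : ℝ} (hG : 1 ≤ G)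
    (h : ∀ i ∈ s, ∀ j ∈ s, i ≠ j → (rad (Nat.gcd (m i) (m j)) : ℝ) ≤ G) :
    ∏ i ∈ s, (rad (m i) : ℝ) ≤ rad (∏ i ∈ s, m i) * G ^ (s.card ^ 2) := by
  classical
  induction s using Finset.induction_on with
  | empty =>
    rw [Finset.prod_empty, Finset.prod_empty, card_empty]
    have : rad 1 = 1 := by unfold rad; simp
    rw [this]
    simp
  | insert b s hb ih =>
    rw [Finset.prod_insert hb, Finset.prod_insert hb, card_insert_of_notMem hb]
    have hmb : m b ≠ 0 := hm b (mem_insert_self _ _)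
    have hms : ∏ i ∈ s, m i ≠ 0 := Finset.prod_ne_zero_iff.2 fun i hi => hm i (mem_insert_of_mem hi)
    have h1 := ih (fun i hi => hm i (mem_insert_of_mem hi)) fun i hi j hj hij =>
      h i (mem_insert_of_mem hi) j (mem_insert_of_mem hj) hij
    have h2 : (rad (Nat.gcd (m b) (∏ i ∈ s, m i)) : ℝ) ≤ G ^ s.card := by
      calc (rad (Nat.gcd (m b) (∏ i ∈ s, m i)) : ℝ) ≤ ((∏ i ∈ s, rad (Nat.gcd (m b) (m i)) : ℕ) : ℝ) := by
            exact_mod_cast rad_gcd_prod s m (m b) hmb fun i hi => hm i (mem_insert_of_mem hi)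
        _ = ∏ i ∈ s, (rad (Nat.gcd (m b) (m i)) : ℝ) := by push_cast; rfl
        _ ≤ ∏ i ∈ s, G := by
            apply Finset.prod_le_prod (fun _ _ => Nat.cast_nonneg _)
            intro i hi
            exact h b (mem_insert_self _ _) i (mem_insert_of_mem hi) (by rintro rfl; exact hb hi)
        _ = G ^ s.card := by rw [Finset.prod_const]
    have h3 : (rad (m b) : ℝ) * rad (∏ i ∈ s, m i) =
        rad (m b * ∏ i ∈ s, m i) * rad (Nat.gcd (m b) (∏ i ∈ s, m i)) := by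
      exact_mod_cast SF.rad_mul_rad hmb hms
    calc (rad (m b) : ℝ) * ∏ i ∈ s, (rad (m i) : ℝ) ≤
          rad (m b) * (rad (∏ i ∈ s, m i) * G ^ (s.card ^ 2)) :=
          mul_le_mul_of_nonneg_left h1 (Nat.cast_nonneg _)
      _ = rad (m b * ∏ i ∈ s, m i) * (rad (Nat.gcd (m b) (∏ i ∈ s, m i)) * G ^ (s.card ^ 2)) := by
          rw [← mul_assoc, h3]
          ring
      _ ≤ rad (m b * ∏ i ∈ s, m i) * (G ^ s.card * G ^ (s.card ^ 2)) := by
          apply mul_le_mul_of_nonneg_left _ (Nat.cast_nonneg _)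
          exact mul_le_mul_of_nonneg_right h2 (by positivity)
      _ ≤ rad (m b * ∏ i ∈ s, m i) * G ^ ((s.card + 1) ^ 2) := by
          apply mul_le_mul_of_nonneg_left _ (Nat.cast_nonneg _)
          rw [← pow_add]
          apply pow_le_pow_right₀ hG
          nlinarith

end Pool.Agent.H583.SB
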