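import Pool.Agent.H583.SB.H

/-!
Stable weighted arrangements: the truncated counting function of almost all points.
-/

set_option autoImplicit false

namespace Pool.Agent.H583.SB

open Finset Pool.Agent.T2H20.ABC Pool.Agent.T2H20.AH Pool.Agent.H785R2.ABC Pool.Agent.H583.SF
  Pool.Agent.H583.WT Pool.Agent.H583.AL Pool.Agent.H583.AR Pool.Agent.H583.GD Pool.Agent.H583.PD
  Pool.Agent.H583.ST Pool.Agent.H583.SA

variable {n r : ℕ}

/-- typical points with almost coprime values -/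
def Typ2 (L : Fin n → Fin r → ℤ) (t κ X : ℝ) (x : Fin r → ℤ) : Prop :=
  Typ L t κ X x ∧ X ^ (n * t - κ) ≤ zr (∏ i, lz L i x)

lemma typ_mono {L : Fin n → Fin r → ℤ} {t κ κ' X : ℝ} (hX : 1 ≤ X) (h : κ ≤ κ') {x : Fin r → ℤ}
    (hx : Typ L t κ X x) : Typ L t κ' X x := by
  refine ⟨hx.1.trans (Real.rpow_le_rpow_of_exponent_le hX (by linarith)), ?_⟩
  intro A B C htri
  obtain ⟨⟨g1, g2, g3⟩, g4⟩ := hx.2 A B C htri
  have h1 : X ^ (t - κ') ≤ X ^ (t - κ) := Real.rpow_le_rpow_of_exponent_le hX (by linarith)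
  refine ⟨⟨h1.trans g1, h1.trans g2, h1.trans g3⟩, g4.trans_le ?_⟩
  apply Real.rpow_le_rpow_of_exponent_le _ (by linarith)
  exact_mod_cast zr_pos _

/-- **the untypical points are few if the arrangement is stable** -/
theorem fwd2 {L : Fin n → Fin r → ℤ} (hL : Ar L) (i₀ : Fin n) (w : Fin n → ℝ)
    (hw : ∀ i, 0 < w i) (hst : Stb L w) (hr : 2 ≤ r) (hnp : ∀ i j, i ≠ j → Np L i j)
    (κ : ℝ) (hκ : 0 < κ) : ∃ δ C : ℝ, 0 < δ ∧ 0 < C ∧ ∀ X : ℝ, 1 ≤ X → ∀ Q : Finset (Fin r → ℤ),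
      (∀ x ∈ Q, Pt L x ∧ wp L w x ≤ X ∧ ¬ Typ2 L (1 / ∑ i, w i) κ X x) →
        (Q.card : ℝ) ≤ C * X ^ (r / (∑ i, w i) - δ) := by
  classical
  have hΩ0 : 0 < ∑ i, w i := Finset.sum_pos (fun i _ => hw i) ⟨i₀, mem_univ _⟩
  obtain ⟨t, ht⟩ : ∃ t : ℝ, t = 1 / ∑ i, w i := ⟨_, rfl⟩
  have ht0 : 0 < t := by rw [ht]; positivity
  have hr0 : (0 : ℝ) < r := by exact_mod_cast (by omega : 0 < r)
  have hn0 : (0 : ℝ) ≤ n := Nat.cast_nonneg _
  have hrt : (r : ℝ) / (∑ i, w i) = r * t := by rw [ht]; ring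
  obtain ⟨κ₂, hκ₂⟩ : ∃ κ₂ : ℝ, κ₂ = κ / (2 * ((n : ℝ) ^ 2 + 1)) := ⟨_, rfl⟩
  have hκ₂0 : 0 < κ₂ := by rw [hκ₂]; positivity
  have hκ₂1 : (n : ℝ) ^ 2 * κ₂ ≤ κ / 2 := by
    rw [hκ₂, mul_div_assoc', div_le_iff₀ (by positivity)]
    nlinarith [sq_nonneg (n : ℝ)]
  obtain ⟨κ₁, hκ₁⟩ : ∃ κ₁ : ℝ, κ₁ = min κ (min (κ / (2 * ((n : ℝ) + 1))) (κ₂ / (4 * r))) := ⟨_, rfl⟩
  have hκ₁0 : 0 < κ₁ := by
    rw [hκ₁]
    exact lt_min hκ (lt_min (by positivity) (by positivity))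
  have hκ₁κ : κ₁ ≤ κ := by rw [hκ₁]; exact min_le_left _ _
  have hκ₁n : n * κ₁ ≤ κ / 2 := by
    have h1 : κ₁ ≤ κ / (2 * ((n : ℝ) + 1)) := by
      rw [hκ₁]
      exact (min_le_right _ _).trans (min_le_left _ _)
    rw [le_div_iff₀ (by positivity)] at h1
    nlinarith
  have hκ₁r : r * κ₁ ≤ κ₂ / 4 := by
    have h1 : κ₁ ≤ κ₂ / (4 * r) := by
      rw [hκ₁]
      exact (min_le_right _ _).trans (min_le_right _ _)
    rw [le_div_iff₀ (by positivity)] at h1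
    linarith
  obtain ⟨δ₁, C₁, hδ₁, hC₁, h₁⟩ := fwd hL i₀ w hw hst hr hnp κ₁ hκ₁0
  obtain ⟨δ₂, C₂, hδ₂, hC₂, h₂⟩ := thin0 hL i₀ w hw hst hr κ₁ hκ₁0
  have hτ : ∀ τ : Fin n × Fin n, ∃ C : ℝ, 0 < C ∧ (τ.1 ≠ τ.2 → ∀ H D : ℝ, 1 ≤ H → 1 ≤ D →
      ∀ Q : Finset (Fin r → ℤ),
      (∀ x ∈ Q, Pt L x ∧ ‖x‖ ≤ H ∧ D ≤ (Int.gcd (lz L τ.1 x) (lz L τ.2 x) : ℝ)) →
      (Q.card : ℝ) ≤ C * H ^ r * D ^ (-(1 / 2) : ℝ)) := by
    intro τ
    by_cases h : τ.1 = τ.2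
    · exact ⟨1, one_pos, fun h' => absurd h h'⟩
    · obtain ⟨C, hC, h3⟩ := gcd_few (hL.ne τ.1) (hnp _ _ h)
      exact ⟨C, hC, fun _ => h3⟩
  choose C hC hτ using hτ
  obtain ⟨δ, hδ⟩ : ∃ δ : ℝ, δ = min (min δ₁ δ₂) (κ₂ / 4) := ⟨_, rfl⟩
  have hδ0 : 0 < δ := by rw [hδ]; exact lt_min (lt_min hδ₁ hδ₂) (by positivity)
  have hd1 : δ ≤ δ₁ := by rw [hδ]; exact (min_le_left _ _).trans (min_le_left _ _)
  have hd2 : δ ≤ δ₂ := by rw [hδ]; exact (min_le_left _ _).trans (min_le_right _ _)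
  have hd3 : δ ≤ κ₂ / 4 := by rw [hδ]; exact min_le_right _ _
  refine ⟨δ, C₁ + C₂ + ∑ τ, C τ, hδ0, ?_, ?_⟩
  · have : 0 ≤ ∑ τ, C τ := Finset.sum_nonneg fun τ _ => (hC τ).le
    linarith
  intro X hX Q hQ
  have hX0 : 0 < X := by linarith
  rw [← ht] at h₁ h₂ hQ
  rw [hrt] at h₁ h₂ ⊢
  obtain ⟨P₁, hP₁⟩ : ∃ P : (Fin r → ℤ) → Prop, P = fun x => ¬ Typ L t κ₁ X x := ⟨_, rfl⟩
  obtain ⟨P₂, hP₂⟩ : ∃ P : (Fin r → ℤ) → Prop, P = fun x => ∃ i, X ^ (t + κ₁) < zr (lz L i x) ∨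
    (zr (lz L i x) : ℝ) < X ^ (t - κ₁) := ⟨_, rfl⟩
  obtain ⟨P, hP⟩ : ∃ P : Fin n × Fin n → (Fin r → ℤ) → Prop, P = fun τ x => τ.1 ≠ τ.2 ∧
    ‖x‖ ≤ X ^ (t + κ₁) ∧ X ^ κ₂ ≤ (Int.gcd (lz L τ.1 x) (lz L τ.2 x) : ℝ) := ⟨_, rfl⟩
  have hcov : Q ⊆ (Q.filter P₁ ∪ Q.filter P₂) ∪ univ.biUnion fun τ => Q.filter (P τ) := by
    intro x hx
    obtain ⟨px, -, hx3⟩ := hQ x hx
    by_contra hcon
    rw [mem_union, mem_union, mem_filter, mem_filter, mem_biUnion, not_or, not_or] at hcon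
    obtain ⟨⟨g1, g2⟩, g3⟩ := hcon
    have k1 : Typ L t κ₁ X x := by
      by_contra h
      exact g1 ⟨hx, by rw [hP₁]; exact h⟩
    have k2 : ∀ i, X ^ (t - κ₁) ≤ zr (lz L i x) := by
      intro i
      by_contra h
      exact g2 ⟨hx, by rw [hP₂]; exact ⟨i, Or.inr (not_le.1 h)⟩⟩
    have k3 : ∀ i j, i ≠ j → (Int.gcd (lz L i x) (lz L j x) : ℝ) < X ^ κ₂ := by
      intro i j hij
      by_contra h
      exact g3 ⟨(i, j), mem_univ _, mem_filter.2 ⟨hx, by rw [hP]; exact ⟨hij, k1.1, not_lt.1 h⟩⟩⟩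
    apply hx3
    refine ⟨typ_mono hX hκ₁κ k1, ?_⟩
    have hG : 1 ≤ X ^ κ₂ := Real.one_le_rpow hX hκ₂0.le
    have h4 := rad_prod (univ : Finset (Fin n)) (fun i => (lz L i x).natAbs)
      (fun i _ => Int.natAbs_ne_zero.2 (px.ne i)) hG (by
        intro i _ j _ hij
        refine le_trans ?_ (k3 i j hij).le
        have h5 : rad (Nat.gcd (lz L i x).natAbs (lz L j x).natAbs) ≤
            Int.gcd (lz L i x) (lz L j x) :=
          SF.rad_le_self (Nat.gcd_pos_of_pos_left _ (Int.natAbs_pos.2 (px.ne i))).ne'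
        exact_mod_cast h5)
    rw [Finset.card_univ, Fintype.card_fin] at h4
    have h5 : rad (∏ i, (lz L i x).natAbs) = zr (∏ i, lz L i x) := by
      unfold zr
      have h6 : (∏ i, lz L i x).natAbs = ∏ i, (lz L i x).natAbs := map_prod Int.natAbsHom _ _
      rw [h6]
    rw [h5] at h4
    have h6 : X ^ (n * (t - κ₁)) ≤ ∏ i, (rad (lz L i x).natAbs : ℝ) := by
      calc X ^ (n * (t - κ₁)) = ∏ _i : Fin n, X ^ (t - κ₁) := by
            rw [Finset.prod_const, Finset.card_univ, Fintype.card_fin, ← Real.rpow_natCast,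
              ← Real.rpow_mul hX0.le]
            congr 1
            ring
        _ ≤ _ := Finset.prod_le_prod (fun _ _ => by positivity) fun i _ => k2 i
    have h7 : (X ^ κ₂) ^ (n ^ 2) = X ^ ((n : ℝ) ^ 2 * κ₂) := by
      rw [← Real.rpow_natCast, ← Real.rpow_mul hX0.le]
      congr 1
      push_cast
      ring
    rw [h7] at h4
    have h8 : X ^ (n * t - κ) * X ^ ((n : ℝ) ^ 2 * κ₂) ≤
        (zr (∏ i, lz L i x) : ℝ) * X ^ ((n : ℝ) ^ 2 * κ₂) := by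
      refine le_trans ?_ (h6.trans h4)
      rw [← Real.rpow_add hX0]
      apply Real.rpow_le_rpow_of_exponent_le hX
      have h9 : (n : ℝ) * (t - κ₁) = n * t - n * κ₁ := by ring
      rw [h9]
      linarith
    exact le_of_mul_le_mul_right h8 (by positivity)
  have e1 := h₁ X hX (Q.filter P₁) (by
    intro x hx
    rw [mem_filter, hP₁] at hx
    exact ⟨(hQ x hx.1).1, (hQ x hx.1).2.1, hx.2⟩)
  have e2 := h₂ X hX (Q.filter P₂) (by
    intro x hx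
    rw [mem_filter, hP₂] at hx
    exact ⟨(hQ x hx.1).1, (hQ x hx.1).2.1, hx.2⟩)
  have e3 : ∀ τ, ((Q.filter (P τ)).card : ℝ) ≤ C τ * X ^ (r * t - δ) := by
    intro τ
    by_cases h : τ.1 = τ.2
    · have h3 : Q.filter (P τ) = ∅ := by
        rw [Finset.filter_eq_empty_iff]
        intro x _ hx
        rw [hP] at hx
        exact hx.1 h
      rw [h3, card_empty, Nat.cast_zero]
      exact mul_nonneg (hC τ).le (by positivity)
    · have h3 := hτ τ h (X ^ (t + κ₁)) (X ^ κ₂) (Real.one_le_rpow hX (by positivity))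
        (Real.one_le_rpow hX hκ₂0.le) (Q.filter (P τ)) (by
          intro x hx
          rw [mem_filter, hP] at hx
          exact ⟨(hQ x hx.1).1, hx.2.2.1, hx.2.2.2⟩)
      refine h3.trans ?_
      rw [mul_assoc]
      apply mul_le_mul_of_nonneg_left _ (hC τ).le
      rw [← Real.rpow_natCast, ← Real.rpow_mul hX0.le, ← Real.rpow_mul hX0.le, ← Real.rpow_add hX0]
      apply Real.rpow_le_rpow_of_exponent_le hX
      have h4 : (t + κ₁) * r + κ₂ * (-(1 / 2)) = r * t + r * κ₁ - κ₂ / 2 := by ring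
      rw [h4]
      linarith
  have e4 : X ^ (r * t - δ₁) ≤ X ^ (r * t - δ) :=
    Real.rpow_le_rpow_of_exponent_le hX (by linarith)
  have e5 : X ^ (r * t - δ₂) ≤ X ^ (r * t - δ) :=
    Real.rpow_le_rpow_of_exponent_le hX (by linarith)
  have e6 : (Q.card : ℝ) ≤ ((Q.filter P₁).card + (Q.filter P₂).card) +
      ∑ τ, ((Q.filter (P τ)).card : ℝ) := by
    have := (card_le_card hcov).trans ((card_union_le _ _).trans
      (Nat.add_le_add (card_union_le _ _) card_biUnion_le))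
    exact_mod_cast this
  have e7 : ∑ τ, ((Q.filter (P τ)).card : ℝ) ≤ (∑ τ, C τ) * X ^ (r * t - δ) := by
    rw [Finset.sum_mul]
    exact Finset.sum_le_sum fun τ _ => e3 τ
  have e8 := mul_le_mul_of_nonneg_left e4 hC₁.le
  have e9 := mul_le_mul_of_nonneg_left e5 hC₂.le
  rw [add_mul, add_mul]
  linarith

end Pool.Agent.H583.SB
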